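import Mathlib
import Pool.Graph.R_pool_sql_team_ae5b0c61.H85.GaussSV

/-! Words of Gauss diagrams without the last end-of-strand symbol, and equality of virtual string
links up to self-virtualization in terms of such words. -/

set_option autoImplicit false

namespace Pool.Agent.H763.SV3

open Pool.Agent.H85.Gauss

/-- The other passage through the same crossing. -/
def bar (e : End) : End := (e.1, !e.2.1, e.2.2)

@[simp] theorem bar_bar (e : End) : bar (bar e) = e := by simp [bar]

/-- Crossing and over/under. -/
def key (e : End) : ℕ × Bool := (e.1, e.2.1)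

def ends (w : Word) : List End := w.filterMap id

@[simp] theorem ends_nil : ends [] = [] := rfl
@[simp] theorem ends_none (w : Word) : ends (none :: w) = ends w := rfl
@[simp] theorem ends_some (e : End) (w : Word) : ends (some e :: w) = e :: ends w := rfl
@[simp] theorem ends_append (u v : Word) : ends (u ++ v) = ends u ++ ends v := by
  simp [ends]
@[simp] theorem ends_map (c : List End) : ends (c.map some) = c := by
  induction c with
  | nil => rfl
  | cons a c ih => simp [ih]

theorem mem_ends {e : End} {w : Word} : e ∈ ends w ↔ some e ∈ w := by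
  simp [ends]

structure GW (n : ℕ) (w : Word) : Prop where
  cnt : w.count none + 1 = n
  nd : ((ends w).map key).Nodup
  cl : ∀ e ∈ ends w, bar e ∈ ends w

theorem exists_diagram (w : Word) : ∃ D : Diagram, flat D = w ++ [none] ∧
    D.length = w.count none + 1 ∧ D.flatten = ends w := by
  induction w with
  | nil => exact ⟨[[]], by simp [flat]⟩
  | cons p w ih =>
    obtain ⟨D, h1, h2, h3⟩ := ih
    cases p with
    | none => exact ⟨[] :: D, by simp_all [flat]⟩
    | some e =>
      cases D with
      | nil => simp at h2
      | cons c D => exact ⟨(e :: c) :: D, by simp_all [flat]⟩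

theorem split_inj {c c' : List End} {X Y : Word}
    (h : c.map some ++ none :: X = c'.map some ++ none :: Y) : c = c' ∧ X = Y := by
  induction c generalizing c' with
  | nil =>
    cases c' with
    | nil => simpa using h
    | cons a c' => simp at h
  | cons a c ih =>
    cases c' with
    | nil => simp at h
    | cons b c' =>
      simp only [List.map_cons, List.cons_append, List.cons.injEq, Option.some.injEq] at h
      obtain ⟨h1, h2⟩ := h
      obtain ⟨h3, h4⟩ := ih h2
      exact ⟨by rw [h1, h3], h4⟩

theorem flat_cons (c : List End) (D : Diagram) :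
    flat (c :: D) = c.map some ++ none :: flat D := by simp [flat]

theorem flat_inj {D D' : Diagram} (h : flat D = flat D') : D = D' := by
  induction D generalizing D' with
  | nil =>
    cases D' with
    | nil => rfl
    | cons c D' => simp [flat] at h
  | cons c D ih =>
    cases D' with
    | nil => simp [flat] at h
    | cons c' D' =>
      rw [flat_cons, flat_cons] at h
      obtain ⟨h1, h2⟩ := split_inj h
      rw [h1, ih h2]

theorem flatten_eq (D : Diagram) : D.flatten = ends (flat D) := by
  induction D with
  | nil => rfl
  | cons c D ih => simp [flat_cons, ih]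

theorem length_eq (D : Diagram) : D.length = (flat D).count none := by
  induction D with
  | nil => rfl
  | cons c D ih =>
    have : (c.map some).count (none : Option End) = 0 := by
      rw [List.count_eq_zero]; simp
    rw [flat_cons, List.count_append, this, List.count_cons]; simp [ih]

theorem wf_iff {n : ℕ} {D : Diagram} {w : Word} (h : flat D = w ++ [none]) :
    WF n D ↔ GW n w := by
  have h1 := flatten_eq D
  have h2 := length_eq D
  rw [h] at h1 h2
  simp only [ends_append, ends_none, ends_nil, List.append_nil] at h1
  rw [List.count_append] at h2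
  constructor
  · rintro ⟨a, b, c⟩
    refine ⟨?_, ?_, ?_⟩
    · rw [← a, h2]; simp
    · rw [← h1]; exact b
    · rw [← h1]; exact c
  · rintro ⟨a, b, c⟩
    refine ⟨?_, ?_, ?_⟩
    · rw [h2, ← a]; simp
    · rw [h1]; exact b
    · rw [h1]; exact c

def GE (n : ℕ) (w w' : Word) : Prop :=
  GW n w ∧ GW n w' ∧ ∀ D D' : Diagram, flat D = w ++ [none] → flat D' = w' ++ [none] →
    EqvSV n D D'

theorem GE.refl {n : ℕ} {w : Word} (h : GW n w) : GE n w w :=
  ⟨h, h, fun D D' h1 h2 => by
    have : D = D' := flat_inj (h1.trans h2.symm)
    rw [this]; exact Relation.EqvGen.refl _⟩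

theorem GE.symm {n : ℕ} {w w' : Word} (h : GE n w w') : GE n w' w :=
  ⟨h.2.1, h.1, fun D D' h1 h2 => Relation.EqvGen.symm _ _ (h.2.2 D' D h2 h1)⟩

theorem GE.trans {n : ℕ} {w u v : Word} (h : GE n w u) (k : GE n u v) : GE n w v := by
  refine ⟨h.1, k.2.1, fun D D' h1 h2 => ?_⟩
  obtain ⟨E, hE, -⟩ := exists_diagram u
  exact Relation.EqvGen.trans _ _ _ (h.2.2 D E h1 hE) (k.2.2 E D' hE h2)

theorem GE.of_move {n : ℕ} {w w' : Word} (h : GW n w) (h' : GW n w')
    (m : MoveSV (w ++ [none]) (w' ++ [none])) : GE n w w' :=
  ⟨h, h', fun D D' h1 h2 => Relation.EqvGen.rel _ _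
    ⟨(wf_iff h1).2 h, (wf_iff h2).2 h', by rw [h1, h2]; exact m⟩⟩

theorem GW.perm {n : ℕ} {w w' : Word} (h : GW n w) (p : w.Perm w') : GW n w' := by
  have q : (ends w).Perm (ends w') := p.filterMap id
  refine ⟨?_, ?_, ?_⟩
  · rw [← p.count_eq]; exact h.cnt
  · exact (q.map key).nodup_iff.1 h.nd
  · intro e he
    exact q.mem_iff.1 (h.cl e (q.mem_iff.2 he))

/-- `a` is not the name of a crossing of `w`. -/
def Fresh (a : ℕ) (w : Word) : Prop := ∀ e ∈ ends w, e.1 ≠ a

theorem Fresh.perm {a : ℕ} {w w' : Word} (h : Fresh a w) (p : w.Perm w') : Fresh a w' := by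
  have q : (ends w).Perm (ends w') := p.filterMap id
  exact fun e he => h e (q.mem_iff.2 he)

theorem exists_fresh (w : Word) : ∃ a, Fresh a w := by
  refine ⟨((ends w).map Prod.fst).sum + 1, fun e he h => ?_⟩
  have : e.1 ≤ ((ends w).map Prod.fst).sum :=
    List.single_le_sum (by simp) _ (List.mem_map_of_mem he)
  omega

/-- Adding a crossing. -/
theorem GW.add {n : ℕ} {w : Word} (h : GW n w) {a : ℕ} (ha : Fresh a w) (o s : Bool) :
    GW n (w ++ [some (a, o, s), some (a, !o, s)]) := by
  refine ⟨?_, ?_, ?_⟩
  · rw [List.count_append]; simpa using h.cnt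
  · simp only [ends_append, ends_some, ends_nil, List.map_append, List.map_cons, List.map_nil]
    rw [List.nodup_append]
    refine ⟨h.nd, by simp [key], ?_⟩
    intro x hx y hy
    obtain ⟨e, he, rfl⟩ := List.mem_map.1 hx
    have := ha e he
    simp only [List.mem_cons, List.not_mem_nil, or_false] at hy
    rintro rfl
    rcases hy with hy | hy <;> exact this (congrArg Prod.fst hy)
  · intro e he
    simp only [ends_append, ends_some, ends_nil, List.mem_append, List.mem_cons, List.not_mem_nil,
      or_false] at he ⊢
    rcases he with he | he | he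
    · exact Or.inl (h.cl e he)
    · right; right; rw [he]; rfl
    · right; left; rw [he]; simp [bar]

theorem GW.del {n : ℕ} {w : Word} {a : ℕ} {o s : Bool}
    (h : GW n (w ++ [some (a, o, s), some (a, !o, s)])) : GW n w ∧ Fresh a w := by
  have h2 := h.nd
  simp only [ends_append, ends_some, ends_nil, List.map_append, List.map_cons, List.map_nil] at h2
  rw [List.nodup_append] at h2
  obtain ⟨h3, -, h4⟩ := h2
  have hf : Fresh a w := by
    intro e he h5
    obtain ⟨e1, e2, e3⟩ := e
    simp only at h5
    subst h5
    have := h4 (key (e1, e2, e3)) (List.mem_map_of_mem he)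
    by_cases h6 : e2 = o
    · exact this (key (e1, o, s)) (by simp) (by simp [key, h6])
    · exact this (key (e1, !o, s)) (by simp) (by simp [key]; revert h6; cases e2 <;> cases o <;> simp)
  refine ⟨⟨?_, h3, ?_⟩, hf⟩
  · have := h.cnt
    rw [List.count_append] at this
    simpa using this
  · intro e he
    have := h.cl e (by simp [he])
    simp only [ends_append, ends_some, ends_nil, List.mem_append, List.mem_cons, List.not_mem_nil,
      or_false] at this
    rcases this with h6 | h6 | h6
    · exact h6
    · exact absurd (congrArg Prod.fst h6) (hf e he)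
    · exact absurd (congrArg Prod.fst h6) (hf e he)

end Pool.Agent.H763.SV3
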