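import Mathlib
import Pool.Agent.H763.Words

/-! Stacking is compatible with equality of virtual string links up to self-virtualization. -/

set_option autoImplicit false

namespace Pool.Agent.H763.SV3

open Pool.Agent.H85.Gauss

/-- Insertion of words before and after the symbols `none`. -/
def ins : List (List End × List End) → Word → Word
  | _, [] => []
  | Es, some e :: w => some e :: ins Es w
  | Es, none :: w => (Es.headD ([], [])).1.map some ++ none ::
      ((Es.headD ([], [])).2.map some ++ ins Es.tail w)

theorem ins_append (Es : List (List End × List End)) (x y : Word) :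
    ins Es (x ++ y) = ins Es x ++ ins (Es.drop (x.count none)) y := by
  induction x generalizing Es with
  | nil => simp [ins]
  | cons p x ih =>
    cases p with
    | none => simp [ins, ih]
    | some e => simp [ins, ih]

theorem ins_free (Es : List (List End × List End)) {x : Word} (h : none ∉ x) : ins Es x = x := by
  induction x with
  | nil => rfl
  | cons p x ih =>
    cases p with
    | none => simp at h
    | some e => simp only [ins]; rw [ih (by simpa using h)]

theorem ins_mid (Es : List (List End × List End)) {x P y : Word} (h : none ∉ P) :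
    ins Es (x ++ P ++ y) = ins Es x ++ P ++ ins (Es.drop (x.count none)) y := by
  have hc : P.count none = 0 := by rw [List.count_eq_zero]; exact h
  rw [ins_append, ins_append, ins_free _ h, List.count_append, hc, add_zero]

/-- Renaming of crossings. -/
def ren (ρ : ℕ → ℕ) (w : Word) : Word := w.map (Option.map fun e => (ρ e.1, e.2))

theorem ren_append (ρ : ℕ → ℕ) (x y : Word) : ren ρ (x ++ y) = ren ρ x ++ ren ρ y := by
  simp [ren]

theorem ren_free (ρ : ℕ → ℕ) {x : Word} (h : none ∉ x) : none ∉ ren ρ x := by
  simp only [ren, List.mem_map, Option.map_eq_none_iff, not_exists, not_and]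
  rintro a ha rfl
  exact h ha

theorem ren_count (ρ : ℕ → ℕ) (x : Word) : (ren ρ x).count none = x.count none := by
  induction x with
  | nil => rfl
  | cons p x ih =>
    cases p <;> simp_all [ren]

theorem ren_reverse (ρ : ℕ → ℕ) (x : Word) : ren ρ x.reverse = (ren ρ x).reverse := by
  simp [ren]

theorem ren_ord (ρ : ℕ → ℕ) (d : Bool) (p q : Option End) :
    ren ρ (ord d p q) = ord d (p.map fun e => (ρ e.1, e.2)) (q.map fun e => (ρ e.1, e.2)) := by
  cases d <;> rfl

theorem ord_free (d : Bool) {p q : Option End} (hp : p ≠ none) (hq : q ≠ none) :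
    none ∉ ord d p q := by
  cases d <;> simp [ord, hp.symm, hq.symm]

theorem exists_ext (ρ : ℕ → ℕ) (hρ : Function.Injective ρ) (σ : ℕ → ℕ)
    (hσ : Function.Injective σ) : ∃ τ : ℕ → ℕ, Function.Injective τ ∧ (∀ x, τ (ρ x) = ρ (σ x)) ∧
      ∀ y, y ∉ Set.range ρ → τ y = y := by
  refine ⟨Function.extend ρ (ρ ∘ σ) id, ?_, fun x => hρ.extend_apply _ _ x,
    fun y hy => Function.extend_apply' _ _ _ (by simpa using hy)⟩
  intro a b hab
  by_cases ha : a ∈ Set.range ρ <;> by_cases hb : b ∈ Set.range ρ
  · obtain ⟨x, rfl⟩ := ha
    obtain ⟨y, rfl⟩ := hb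
    rw [hρ.extend_apply, hρ.extend_apply] at hab
    exact congrArg ρ (hσ (hρ hab))
  · obtain ⟨x, rfl⟩ := ha
    rw [hρ.extend_apply, Function.extend_apply' _ _ _ (by simpa using hb)] at hab
    exact absurd ⟨σ x, hab⟩ hb
  · obtain ⟨y, rfl⟩ := hb
    rw [hρ.extend_apply, Function.extend_apply' _ _ _ (by simpa using ha)] at hab
    exact absurd ⟨σ y, hab.symm⟩ ha
  · rw [Function.extend_apply' _ _ _ (by simpa using ha),
      Function.extend_apply' _ _ _ (by simpa using hb)] at hab
    exact hab

/-- The words of the context have names outside of the range of `ρ`. -/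
def Off (ρ : ℕ → ℕ) (l : List End) : Prop := ∀ e ∈ l, e.1 ∉ Set.range ρ

theorem map_off {ρ τ : ℕ → ℕ} (hτ : ∀ y, y ∉ Set.range ρ → τ y = y) {l : List End}
    (h : Off ρ l) : ren τ (l.map some) = l.map some := by
  induction l with
  | nil => rfl
  | cons e l ih =>
    have h1 := hτ _ (h e (by simp))
    have h2 := ih fun e' he' => h e' (by simp [he'])
    simp only [ren, List.map_cons, Option.map_some] at h2 ⊢
    rw [h1, h2]

theorem ren_ins {ρ τ : ℕ → ℕ} (hτ : ∀ y, y ∉ Set.range ρ → τ y = y)
    {Es : List (List End × List End)} (h : ∀ E ∈ Es, Off ρ E.1 ∧ Off ρ E.2) (w : Word) :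
    ren τ (ins Es w) = ins Es (ren τ w) := by
  induction w generalizing Es with
  | nil => rfl
  | cons p w ih =>
    cases p with
    | some e =>
      have := ih h
      simp only [ins, ren, List.map_cons, Option.map_some] at this ⊢
      rw [this]
    | none =>
      have h1 : Off ρ (Es.headD ([], [])).1 ∧ Off ρ (Es.headD ([], [])).2 := by
        cases Es with
        | nil => exact ⟨by simp [Off], by simp [Off]⟩
        | cons E Es => exact h E (by simp)
      have h2 := ih (Es := Es.tail) fun E hE => h E (List.mem_of_mem_tail hE)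
      have h3 := map_off hτ h1.1
      have h4 := map_off hτ h1.2
      simp only [ren] at h2 h3 h4
      simp only [ins, ren, List.map_cons, Option.map_none, List.map_append]
      rw [h2, h3, h4]

theorem free_of_perm2 {P Q A B : Word} (h : [P, Q].Perm [A, B]) (hA : none ∉ A) (hB : none ∉ B) :
    none ∉ P ∧ none ∉ Q := by
  have h1 : ∀ X ∈ [A, B], none ∉ X := by simp [hA, hB]
  exact ⟨h1 P (h.mem_iff.1 (by simp)), h1 Q (h.mem_iff.1 (by simp))⟩

theorem free_of_perm3 {P Q R A B C : Word} (h : [P, Q, R].Perm [A, B, C]) (hA : none ∉ A)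
    (hB : none ∉ B) (hC : none ∉ C) : none ∉ P ∧ none ∉ Q ∧ none ∉ R := by
  have h1 : ∀ X ∈ [A, B, C], none ∉ X := by simp [hA, hB, hC]
  exact ⟨h1 P (h.mem_iff.1 (by simp)), h1 Q (h.mem_iff.1 (by simp)), h1 R (h.mem_iff.1 (by simp))⟩

theorem O_ne (a : ℕ) (s : Bool) : O a s ≠ none := by simp [O]
theorem U_ne (a : ℕ) (s : Bool) : U a s ≠ none := by simp [U]

/-- Moves can be carried out inside a stack. -/
theorem move_ctx {ρ : ℕ → ℕ} (hρ : Function.Injective ρ) {pre : List End} (hpre : Off ρ pre)
    {Es : List (List End × List End)} (h : ∀ E ∈ Es, Off ρ E.1 ∧ Off ρ E.2) {w w' : Word}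
    (m : MoveSV w w') :
    MoveSV (pre.map some ++ ins Es (ren ρ w)) (pre.map some ++ ins Es (ren ρ w')) := by
  cases m with
  | sv x y z a o s hy =>
    have h1 := ren_free ρ hy
    have h2 : none ∉ ([some (ρ a, o, s)] : Word) := by simp
    have h3 : none ∉ ([some (ρ a, !o, s)] : Word) := by simp
    have e1 : ren ρ (x ++ [some (a, o, s)] ++ y ++ [some (a, !o, s)] ++ z) =
        ren ρ x ++ ([some (ρ a, o, s)] ++ ren ρ y ++ [some (ρ a, !o, s)]) ++ ren ρ z := by
      simp [ren, List.append_assoc]
    have e2 : none ∉ ([some (ρ a, o, s)] ++ ren ρ y ++ [some (ρ a, !o, s)]) := by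
      simp [h1]
    rw [e1, ins_mid _ e2, ren_append, ren_append, ins_mid _ h1]
    have := MoveSV.sv (pre.map some ++ ins Es (ren ρ x)) (ren ρ y)
      (ins (Es.drop ((ren ρ x).count none)) (ren ρ z)) (ρ a) o s h1
    simpa [List.append_assoc] using this
  | move _ _ m =>
    refine MoveSV.move _ _ ?_
    cases m with
    | rename σ hσ w =>
      obtain ⟨τ, t1, t2, t3⟩ := exists_ext ρ hρ σ hσ
      have e1 : ren τ (pre.map some ++ ins Es (ren ρ w)) =
          pre.map some ++ ins Es (ren ρ (w.map (Option.map fun e => (σ e.1, e.2)))) := by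
        rw [ren_append, map_off t3 hpre, ren_ins t3 h]
        congr 2
        simp only [ren, List.map_map]
        refine List.map_congr_left fun p _ => ?_
        cases p <;> simp [t2]
      rw [← e1]
      exact Move.rename τ t1 _
    | r1 x y a s d =>
      have h1 : none ∉ ren ρ (ord d (O a s) (U a s)) := ren_free _ (ord_free _ (O_ne _ _) (U_ne _ _))
      rw [ren_append, ren_append, ren_append, ins_mid _ h1, ins_append]
      have := Move.r1 (oc := false) (sc := false) (pre.map some ++ ins Es (ren ρ x))
        (ins (Es.drop ((ren ρ x).count none)) (ren ρ y)) (ρ a) s d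
      have ho : ren ρ (ord d (O a s) (U a s)) = ord d (O (ρ a) s) (U (ρ a) s) := ren_ord _ _ _ _
      rw [ho]
      simpa [List.append_assoc] using this
    | r2 x y z P Q a b s d hp =>
      obtain ⟨f1, f2⟩ := free_of_perm2 hp (by simp [O]) (ord_free _ (U_ne _ _) (U_ne _ _))
      have g1 := ren_free ρ f1
      have g2 := ren_free ρ f2
      have c1 : (ren ρ P).count none = 0 := by rw [List.count_eq_zero]; exact g1
      have c2 : (ren ρ Q).count none = 0 := by rw [List.count_eq_zero]; exact g2
      have hp' : [ren ρ P, ren ρ Q].Perm [[O (ρ a) s, O (ρ b) (!s)],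
          ord d (U (ρ a) s) (U (ρ b) (!s))] := by
        have := hp.map (ren ρ)
        simp only [List.map_cons, List.map_nil, ren_ord] at this
        exact this
      simp only [ren_append, ins_append, List.count_append, c1, c2, ins_free _ g1, ins_free _ g2,
        add_zero]
      have := Move.r2 (oc := false) (sc := false) (pre.map some ++ ins Es (ren ρ x))
        (ins (Es.drop ((ren ρ x).count none)) (ren ρ y))
        (ins (Es.drop ((ren ρ x).count none + (ren ρ y).count none)) (ren ρ z)) _ _ _ _ s d hp'
      simpa [List.append_assoc] using this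
    | r3 x y z v P Q R a b c sa sb sc' t m u hp h1 h2 =>
      obtain ⟨f1, f2, f3⟩ := free_of_perm3 hp (ord_free _ (O_ne _ _) (O_ne _ _))
        (ord_free _ (U_ne _ _) (O_ne _ _)) (ord_free _ (U_ne _ _) (U_ne _ _))
      have g1 := ren_free ρ f1
      have g2 := ren_free ρ f2
      have g3 := ren_free ρ f3
      have g1' : none ∉ (ren ρ P).reverse := by simpa using g1
      have g2' : none ∉ (ren ρ Q).reverse := by simpa using g2
      have g3' : none ∉ (ren ρ R).reverse := by simpa using g3
      have c1 : (ren ρ P).count none = 0 := by rw [List.count_eq_zero]; exact g1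
      have c2 : (ren ρ Q).count none = 0 := by rw [List.count_eq_zero]; exact g2
      have c3 : (ren ρ R).count none = 0 := by rw [List.count_eq_zero]; exact g3
      have hp' : [ren ρ P, ren ρ Q, ren ρ R].Perm
          [ord t (O (ρ a) sa) (O (ρ b) sb), ord m (U (ρ a) sa) (O (ρ c) sc'),
            ord u (U (ρ b) sb) (U (ρ c) sc')] := by
        have := hp.map (ren ρ)
        simp only [List.map_cons, List.map_nil, ren_ord] at this
        exact this
      simp only [ren_append, ins_append, List.count_append, ren_reverse, List.count_reverse, c1, c2,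
        c3, ins_free _ g1, ins_free _ g2, ins_free _ g3, ins_free _ g1', ins_free _ g2',
        ins_free _ g3', add_zero]
      have := Move.r3 (oc := false) (sc := false) (pre.map some ++ ins Es (ren ρ x))
        (ins (Es.drop ((ren ρ x).count none)) (ren ρ y))
        (ins (Es.drop ((ren ρ x).count none + (ren ρ y).count none)) (ren ρ z))
        (ins (Es.drop ((ren ρ x).count none + (ren ρ y).count none + (ren ρ z).count none))
          (ren ρ v)) _ _ _ _ _ _ _ _ _ _ _ _ hp' h1 h2
      simpa [List.append_assoc] using this
    | oc h => exact absurd h (by simp)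
    | sc h => exact absurd h (by simp)


/-- Renaming in a list of passages. -/
def rl (ρ : ℕ → ℕ) (l : List End) : List End := l.map fun e => (ρ e.1, e.2)

theorem flat_ren (ρ : ℕ → ℕ) (D : Diagram) : flat (D.map (rl ρ)) = ren ρ (flat D) := by
  induction D with
  | nil => rfl
  | cons c D ih =>
    rw [List.map_cons, flat_cons, flat_cons, ren_append, ih]
    simp [ren, rl]

theorem flat_zip_right {D E : Diagram} (h : D.length = E.length) :
    flat (List.zipWith (fun c c' => c ++ c') D E) = ins (E.map fun c => (c, [])) (flat D) := by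
  induction D generalizing E with
  | nil =>
    cases E with
    | nil => rfl
    | cons _ _ => simp at h
  | cons c D ih =>
    cases E with
    | nil => simp at h
    | cons e E =>
      have h1 : D.length = E.length := by simpa using h
      have h2 : (none : Option End) ∉ c.map some := by simp
      have h3 : (c.map some).count (none : Option End) = 0 := by rw [List.count_eq_zero]; exact h2
      rw [List.zipWith_cons_cons, flat_cons, flat_cons, ins_append, ins_free _ h2, h3, ih h1]
      simp [ins]

theorem flat_zip_left {D E : Diagram} (h : D.length = E.length) (hD : D ≠ []) :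
    flat (List.zipWith (fun c c' => c ++ c') E D) =
      (E.headD []).map some ++ ins (E.tail.map fun c => ([], c)) (flat D) := by
  induction D generalizing E with
  | nil => exact absurd rfl hD
  | cons c D ih =>
    cases E with
    | nil => simp at h
    | cons e E =>
      have h1 : D.length = E.length := by simpa using h
      have h2 : (none : Option End) ∉ c.map some := by simp
      have h3 : (c.map some).count (none : Option End) = 0 := by rw [List.count_eq_zero]; exact h2
      rw [List.zipWith_cons_cons, flat_cons, flat_cons, ins_append, ins_free _ h2, h3]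
      cases D with
      | nil =>
        cases E with
        | nil => simp [ins, flat]
        | cons _ _ => simp at h1
      | cons d D =>
        cases E with
        | nil => simp at h1
        | cons e' E =>
          rw [ih h1 (by simp)]
          simp [ins]

def r0 : ℕ → ℕ := fun x => 2 * x
def r1 : ℕ → ℕ := fun x => 2 * x + 1

theorem r0_inj : Function.Injective r0 := fun a b h => by simp only [r0] at h; omega
theorem r1_inj : Function.Injective r1 := fun a b h => by simp only [r1] at h; omega

theorem stack_eq (D E : Diagram) :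
    stack D E = List.zipWith (fun c c' => c ++ c') (D.map (rl r0)) (E.map (rl r1)) := by
  rw [List.zipWith_map]
  rfl

theorem off0 (l : List End) : Off r0 (rl r1 l) := by
  intro e he
  simp only [rl, List.mem_map] at he
  obtain ⟨e', -, rfl⟩ := he
  simp only [r0, r1, Set.mem_range, not_exists]
  intro x; omega

theorem off1 (l : List End) : Off r1 (rl r0 l) := by
  intro e he
  simp only [rl, List.mem_map] at he
  obtain ⟨e', -, rfl⟩ := he
  simp only [r0, r1, Set.mem_range, not_exists]
  intro x; omega

theorem off_nil (ρ : ℕ → ℕ) : Off ρ [] := by simp [Off]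

theorem stack_move_left {D D' E : Diagram} (hD : D.length = E.length) (hD' : D'.length = E.length)
    (m : MoveSV (flat D) (flat D')) : MoveSV (flat (stack D E)) (flat (stack D' E)) := by
  rw [stack_eq, stack_eq, flat_zip_right (by simpa using hD), flat_zip_right (by simpa using hD'),
    flat_ren, flat_ren]
  have := move_ctx r0_inj (off_nil r0) (Es := (E.map (rl r1)).map fun c => (c, [])) (by
    intro X hX
    simp only [List.map_map, List.mem_map, Function.comp] at hX
    obtain ⟨c, -, rfl⟩ := hX
    exact ⟨off0 _, off_nil _⟩) m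
  simpa using this

theorem stack_move_right {D D' E : Diagram} (hD : D.length = E.length) (hD' : D'.length = E.length)
    (h0 : E ≠ []) (m : MoveSV (flat D) (flat D')) :
    MoveSV (flat (stack E D)) (flat (stack E D')) := by
  have hE : E.length ≠ 0 := by simpa using h0
  rw [stack_eq, stack_eq, flat_zip_left (by simpa using hD) (by
      intro h; apply hE; rw [← hD, List.map_eq_nil_iff.1 h]; rfl),
    flat_zip_left (by simpa using hD') (by
      intro h; apply hE; rw [← hD', List.map_eq_nil_iff.1 h]; rfl),
    flat_ren, flat_ren]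
  refine move_ctx r1_inj ?_ ?_ m
  · cases E with
    | nil => exact off_nil _
    | cons e E => exact off1 _
  · intro X hX
    rw [← List.map_tail] at hX
    simp only [List.map_map, List.mem_map, Function.comp] at hX
    obtain ⟨c, -, rfl⟩ := hX
    exact ⟨off_nil _, off1 _⟩

theorem flatten_zip {D E : Diagram} (h : D.length = E.length) :
    (List.zipWith (fun c c' => c ++ c') D E).flatten.Perm (D.flatten ++ E.flatten) := by
  induction D generalizing E with
  | nil =>
    cases E with
    | nil => simp
    | cons _ _ => simp at h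
  | cons c D ih =>
    cases E with
    | nil => simp at h
    | cons e E =>
      have h1 : D.length = E.length := by simpa using h
      have h2 := ih h1
      rw [List.perm_iff_count] at h2 ⊢
      intro a
      have h3 := h2 a
      simp only [List.zipWith_cons_cons, List.flatten_cons, List.count_append] at h3 ⊢
      omega

theorem flatten_rl (ρ : ℕ → ℕ) (D : Diagram) : (D.map (rl ρ)).flatten = rl ρ D.flatten := by
  induction D with
  | nil => rfl
  | cons c D ih => simp [ih, rl]

theorem wf_stack {n : ℕ} {D E : Diagram} (hD : WF n D) (hE : WF n E) : WF n (stack D E) := by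
  obtain ⟨a1, a2, a3⟩ := hD
  obtain ⟨b1, b2, b3⟩ := hE
  have hl : D.length = E.length := by rw [a1, b1]
  have p : (stack D E).flatten.Perm (rl r0 D.flatten ++ rl r1 E.flatten) := by
    rw [stack_eq, ← flatten_rl, ← flatten_rl]
    exact flatten_zip (by simpa using hl)
  refine ⟨?_, ?_, ?_⟩
  · rw [stack_eq]; simp [a1, b1]
  · rw [(p.map fun e => (e.1, e.2.1)).nodup_iff, List.map_append, List.nodup_append]
    refine ⟨?_, ?_, ?_⟩
    · have : (rl r0 D.flatten).map (fun e => (e.1, e.2.1)) =
          (D.flatten.map fun e => (e.1, e.2.1)).map (Prod.map r0 id) := by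
        simp [rl, Function.comp_def]
      rw [this]
      exact a2.map (Prod.map_injective.2 ⟨r0_inj, Function.injective_id⟩)
    · have : (rl r1 E.flatten).map (fun e => (e.1, e.2.1)) =
          (E.flatten.map fun e => (e.1, e.2.1)).map (Prod.map r1 id) := by
        simp [rl, Function.comp_def]
      rw [this]
      exact b2.map (Prod.map_injective.2 ⟨r1_inj, Function.injective_id⟩)
    · intro x hx y hy hxy
      simp only [rl, List.map_map, List.mem_map, Function.comp] at hx hy
      obtain ⟨e, -, rfl⟩ := hx
      obtain ⟨e', -, rfl⟩ := hy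
      have := congrArg Prod.fst hxy
      simp only [r0, r1] at this
      omega
  · intro e he
    rw [p.mem_iff, List.mem_append] at he ⊢
    rcases he with he | he
    · left
      simp only [rl, List.mem_map] at he ⊢
      obtain ⟨e', he', rfl⟩ := he
      exact ⟨_, a3 e' he', rfl⟩
    · right
      simp only [rl, List.mem_map] at he ⊢
      obtain ⟨e', he', rfl⟩ := he
      exact ⟨_, b3 e' he', rfl⟩

theorem stack_left {n : ℕ} {D D' E : Diagram} (hE : WF n E) (h : EqvSV n D D') :
    EqvSV n (stack D E) (stack D' E) := by
  induction h with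
  | rel D D' h =>
    obtain ⟨h1, h2, h3⟩ := h
    exact Relation.EqvGen.rel _ _ ⟨wf_stack h1 hE, wf_stack h2 hE,
      stack_move_left (h1.1.trans hE.1.symm) (h2.1.trans hE.1.symm) h3⟩
  | refl D => exact Relation.EqvGen.refl _
  | symm _ _ _ ih => exact Relation.EqvGen.symm _ _ ih
  | trans _ _ _ _ _ ih1 ih2 => exact Relation.EqvGen.trans _ _ _ ih1 ih2

theorem stack_right {n : ℕ} (hn : n ≠ 0) {D D' E : Diagram} (hE : WF n E) (h : EqvSV n D D') :
    EqvSV n (stack E D) (stack E D') := by
  have h0 : E ≠ [] := by
    rintro rfl
    exact hn hE.1.symm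
  induction h with
  | rel D D' h =>
    obtain ⟨h1, h2, h3⟩ := h
    exact Relation.EqvGen.rel _ _ ⟨wf_stack hE h1, wf_stack hE h2,
      stack_move_right (h1.1.trans hE.1.symm) (h2.1.trans hE.1.symm) h0 h3⟩
  | refl D => exact Relation.EqvGen.refl _
  | symm _ _ _ ih => exact Relation.EqvGen.symm _ _ ih
  | trans _ _ _ _ _ ih1 ih2 => exact Relation.EqvGen.trans _ _ _ ih1 ih2

theorem mono_stack {D E : Diagram} (hD : Mono D) (hE : Mono E) : Mono (stack D E) := by
  obtain ⟨h, hh⟩ := hD
  obtain ⟨k, hk⟩ := hE
  let M := (D.flatten.map fun e => h e.1).sum + 1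
  refine ⟨fun x => if x % 2 = 0 then h (x / 2) else M + k (x / 2), ?_⟩
  intro c hc
  rw [stack_eq] at hc
  rw [List.mem_iff_getElem] at hc
  obtain ⟨i, hi, rfl⟩ := hc
  simp only [List.length_zipWith, List.length_map] at hi
  have hi1 : i < D.length := lt_of_lt_of_le hi (min_le_left _ _)
  have hi2 : i < E.length := lt_of_lt_of_le hi (min_le_right _ _)
  simp only [List.getElem_zipWith, List.getElem_map]
  have g0 : ∀ x, (if r0 x % 2 = 0 then h (r0 x / 2) else M + k (r0 x / 2)) = h x := by
    intro x
    have h1 : r0 x % 2 = 0 := by simp [r0]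
    have h2 : r0 x / 2 = x := by simp [r0]
    rw [if_pos h1, h2]
  have g1 : ∀ x, (if r1 x % 2 = 0 then h (r1 x / 2) else M + k (r1 x / 2)) = M + k x := by
    intro x
    have h1 : ¬ r1 x % 2 = 0 := by simp only [r1]; omega
    have h2 : r1 x / 2 = x := by simp only [r1]; omega
    rw [if_neg h1, h2]
  rw [List.pairwise_append]
  refine ⟨?_, ?_, ?_⟩
  · simp only [rl, List.pairwise_map]
    refine (hh _ (List.getElem_mem hi1)).imp ?_
    intro a b hab
    rw [g0, g0]; exact hab
  · simp only [rl, List.pairwise_map]
    refine (hk _ (List.getElem_mem hi2)).imp ?_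
    intro a b hab
    rw [g1, g1]; omega
  · intro a ha b hb
    simp only [rl, List.mem_map] at ha hb
    obtain ⟨a', ha', rfl⟩ := ha
    obtain ⟨b', hb', rfl⟩ := hb
    simp only
    rw [g0, g1]
    have : h a'.1 ≤ (D.flatten.map fun e => h e.1).sum :=
      List.single_le_sum (by simp) _ (List.mem_map.2
        ⟨a', List.mem_flatten.2 ⟨_, List.getElem_mem hi1, ha'⟩, rfl⟩)
    simp only [M]; omega

end Pool.Agent.H763.SV3
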