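import Mathlib
import Pool.Agent.H763.Words

/-! The moves in terms of flat signs, and commutation of adjacent passages whose other passages lie
on one strand. -/

set_option autoImplicit false

namespace Pool.Agent.H763.SV3

open Pool.Agent.H85.Gauss

/-- The passage, on its earlier segment, of a crossing with lift `l` (`true`: the earlier segment is
over) and flat sign `f`. -/
def E1 (i : ℕ) (l f : Bool) : Option End := some (i, l, f == l)

/-- The passage, on its later segment, of a crossing with lift `l` and flat sign `f`. -/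
def E2 (i : ℕ) (l f : Bool) : Option End := some (i, !l, f == l)

theorem ord_not (d : Bool) (p q : Option End) : ord (!d) p q = ord d q p := by
  cases d <;> rfl

theorem ord_rev (d : Bool) (p q : Option End) : (ord d p q).reverse = ord d q p := by
  cases d <;> rfl

theorem ord_count (d : Bool) (p q c : Option End) :
    (ord d p q).count c = [p].count c + [q].count c := by
  cases d <;> simp [ord, List.count_cons, add_comm]

theorem some_eq (p : End) : some p = E1 p.1 p.2.1 (p.2.2 == p.2.1) := by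
  obtain ⟨a, b, c⟩ := p
  simp only [E1]
  cases b <;> cases c <;> rfl

theorem some_bar (p : End) : some (bar p) = E2 p.1 p.2.1 (p.2.2 == p.2.1) := by
  obtain ⟨a, b, c⟩ := p
  simp only [E2, bar]
  cases b <;> cases c <;> rfl

section perms
variable {α : Type} (P Q R : α)
theorem p132 : [P, Q, R].Perm [P, R, Q] := (List.Perm.swap R Q []).cons P
theorem p213 : [P, Q, R].Perm [Q, P, R] := List.Perm.swap Q P [R]
theorem p231 : [P, Q, R].Perm [Q, R, P] := (p213 P Q R).trans (p132 Q P R)
theorem p312 : [P, Q, R].Perm [R, P, Q] := (p132 P Q R).trans (p213 P R Q)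
theorem p321 : [P, Q, R].Perm [R, Q, P] := (p312 P Q R).trans (p132 R P Q)
theorem p21 : [P, Q].Perm [Q, P] := List.Perm.swap Q P []
end perms

theorem GR3 (x y z v : Word) (i j k : ℕ) (lx ly lz fx fy fz α β γ : Bool)
    (hA : (α != β) = (fy != fz)) (hB : (β != γ) = (fx != fy)) (hC : lx = ly ∨ lz = ly) :
    MoveSV (x ++ ord α (E1 i lx fx) (E1 j ly fy) ++ y ++ ord β (E2 i lx fx) (E1 k lz fz) ++ z ++
        ord γ (E2 j ly fy) (E2 k lz fz) ++ v)
      (x ++ ord α (E1 j ly fy) (E1 i lx fx) ++ y ++ ord β (E1 k lz fz) (E2 i lx fx) ++ z ++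
        ord γ (E2 k lz fz) (E2 j ly fy) ++ v) := by
  refine MoveSV.move _ _ ?_
  rw [← ord_rev α (E1 i lx fx), ← ord_rev β (E2 i lx fx), ← ord_rev γ (E2 j ly fy)]
  have t1 : ∀ i f, E1 i true f = O i f := by intro i f; cases f <;> rfl
  have t2 : ∀ i f, E2 i true f = U i f := by intro i f; cases f <;> rfl
  have t3 : ∀ i f, E1 i false f = U i (!f) := by intro i f; cases f <;> rfl
  have t4 : ∀ i f, E2 i false f = O i (!f) := by intro i f; cases f <;> rfl
  cases lx <;> cases ly <;> cases lz <;>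
    simp only [reduceCtorEq, or_self, or_false, false_or] at hC <;>
    simp only [t1, t2, t3, t4] <;> clear t1 t2 t3 t4
  · -- F F F
    refine Move.r3 x y z v _ _ _ k j i (!fz) (!fy) (!fx) (!γ) (!β) (!α) ?_ ?_ ?_
    · rw [ord_not, ord_not, ord_not]
      exact p321 _ _ _
    · revert hA hB; revert α β γ fx fy fz; decide
    · revert hA hB; revert α β γ fx fy fz; decide
  · -- F F T
    refine Move.r3 x y z v _ _ _ k i j fz (!fx) (!fy) (!β) (!γ) α ?_ ?_ ?_
    · rw [ord_not, ord_not]
      exact p231 _ _ _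
    · revert hA hB; revert α β γ fx fy fz; decide
    · revert hA hB; revert α β γ fx fy fz; decide
  · -- F T T
    refine Move.r3 x y z v _ _ _ i k j (!fx) fz fy β α (!γ) ?_ ?_ ?_
    · rw [ord_not]
      exact p213 _ _ _
    · revert hA hB; revert α β γ fx fy fz; decide
    · revert hA hB; revert α β γ fx fy fz; decide
  · -- T F F
    refine Move.r3 x y z v _ _ _ j k i (!fy) (!fz) fx γ (!α) (!β) ?_ ?_ ?_
    · rw [ord_not, ord_not]
      exact p312 _ _ _
    · revert hA hB; revert α β γ fx fy fz; decide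
    · revert hA hB; revert α β γ fx fy fz; decide
  · -- T T F
    refine Move.r3 x y z v _ _ _ j i k fy fx (!fz) (!α) γ β ?_ ?_ ?_
    · rw [ord_not]
      exact p132 _ _ _
    · revert hA hB; revert α β γ fx fy fz; decide
    · revert hA hB; revert α β γ fx fy fz; decide
  · -- T T T
    refine Move.r3 x y z v _ _ _ i j k fx fy fz α β γ (List.Perm.refl _) ?_ ?_
    · revert hA hB; revert α β γ fx fy fz; decide
    · revert hA hB; revert α β γ fx fy fz; decide

theorem GR2 (x y z : Word) (i j : ℕ) (l f d e : Bool) :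
    MoveSV (x ++ y ++ z) (x ++ ord d (E1 i l f) (E1 j l (!f)) ++ y ++
      ord e (E2 i l f) (E2 j l (!f)) ++ z) := by
  refine MoveSV.move _ _ ?_
  have t1 : ∀ i f, E1 i true f = O i f := by intro i f; cases f <;> rfl
  have t2 : ∀ i f, E2 i true f = U i f := by intro i f; cases f <;> rfl
  have t3 : ∀ i f, E1 i false f = U i (!f) := by intro i f; cases f <;> rfl
  have t4 : ∀ i f, E2 i false f = O i (!f) := by intro i f; cases f <;> rfl
  cases l <;> simp only [t1, t2, t3, t4]
  · cases e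
    · refine Move.r2 x y z _ _ j i f (!d) ?_
      rw [ord_not, Bool.not_not]
      exact p21 _ _
    · refine Move.r2 x y z _ _ i j (!f) d ?_
      exact p21 _ _
  · cases d
    · refine Move.r2 x y z _ _ j i (!f) (!e) ?_
      rw [ord_not, Bool.not_not]
      exact List.Perm.refl _
    · exact Move.r2 x y z _ _ i j f e (List.Perm.refl _)

theorem T1a {n : ℕ} (x y z v : Word) (i j : ℕ) (lx ly fx fy : Bool) (hz : none ∉ z)
    (h : GW n (x ++ [E1 i lx fx, E1 j ly fy] ++ y ++ [E2 i lx fx] ++ z ++ [E2 j ly fy] ++ v)) :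
    GE n (x ++ [E1 i lx fx, E1 j ly fy] ++ y ++ [E2 i lx fx] ++ z ++ [E2 j ly fy] ++ v)
      (x ++ [E1 j ly fy, E1 i lx fx] ++ y ++ [E2 i lx fx] ++ z ++ [E2 j ly fy] ++ v) := by
  obtain ⟨k, hk⟩ := exists_fresh (x ++ [E1 i lx fx, E1 j ly fy] ++ y ++ [E2 i lx fx] ++ z ++
    [E2 j ly fy] ++ v)
  have hadd := h.add hk ly (fy == ly)
  have hb : ∀ fx fy : Bool, ((true : Bool) != (fx == fy)) = (fx != fy) := by decide
  have r := GR3 x y z (v ++ [none]) i j k lx ly ly fx fy fy true true (fx == fy) (by simp)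
    (hb fx fy) (Or.inr rfl)
  have w1 : GW n (x ++ [E1 i lx fx, E1 j ly fy] ++ y ++ [E2 i lx fx, E1 k ly fy] ++ z ++
      ord (fx == fy) (E2 j ly fy) (E2 k ly fy) ++ v) := by
    refine hadd.perm ?_
    rw [List.perm_iff_count]; intro c
    simp only [List.count_append, ord_count, List.count_cons, List.count_nil, E1, E2]; ring
  have w2 : GW n (x ++ [E1 j ly fy, E1 i lx fx] ++ y ++ [E1 k ly fy, E2 i lx fx] ++ z ++
      ord (fx == fy) (E2 k ly fy) (E2 j ly fy) ++ v) := by
    refine w1.perm ?_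
    rw [List.perm_iff_count]; intro c
    simp only [List.count_append, ord_count, List.count_cons, List.count_nil, E1, E2]; ring
  have w3 : GW n (x ++ [E1 j ly fy, E1 i lx fx] ++ y ++ [E2 i lx fx] ++ z ++ [E2 j ly fy] ++ v) := by
    refine h.perm ?_
    rw [List.perm_iff_count]; intro c
    simp only [List.count_append, List.count_cons, List.count_nil]; ring
  refine (GE.of_move h w1 ?_).trans ((GE.of_move w1 w2 ?_).trans (GE.of_move w3 w2 ?_).symm)
  · cases hc : (fx == fy)
    · have := MoveSV.sv (x ++ [E1 i lx fx, E1 j ly fy] ++ y ++ [E2 i lx fx]) z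
        ([E2 j ly fy] ++ v ++ [none]) k ly (fy == ly) hz
      simpa [ord, E1, E2, List.append_assoc] using this
    · have := MoveSV.sv (x ++ [E1 i lx fx, E1 j ly fy] ++ y ++ [E2 i lx fx]) (z ++ [E2 j ly fy])
        (v ++ [none]) k ly (fy == ly) (by simp [hz, E2])
      simpa [ord, E1, E2, List.append_assoc] using this
  · simpa [ord, List.append_assoc] using r
  · cases hc : (fx == fy)
    · have := MoveSV.sv (x ++ [E1 j ly fy, E1 i lx fx] ++ y) ([E2 i lx fx] ++ z ++ [E2 j ly fy])
        (v ++ [none]) k ly (fy == ly) (by simp [hz, E2])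
      simpa [ord, E1, E2, List.append_assoc] using this
    · have := MoveSV.sv (x ++ [E1 j ly fy, E1 i lx fx] ++ y) ([E2 i lx fx] ++ z)
        ([E2 j ly fy] ++ v ++ [none]) k ly (fy == ly) (by simp [hz, E2])
      simpa [ord, E1, E2, List.append_assoc] using this

theorem T1b {n : ℕ} (x y z v : Word) (i j : ℕ) (li lj fi fj : Bool) (hy : none ∉ y)
    (h : GW n (x ++ [E1 i li fi] ++ y ++ [E1 j lj fj] ++ z ++ [E2 i li fi, E2 j lj fj] ++ v)) :
    GE n (x ++ [E1 i li fi] ++ y ++ [E1 j lj fj] ++ z ++ [E2 i li fi, E2 j lj fj] ++ v)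
      (x ++ [E1 i li fi] ++ y ++ [E1 j lj fj] ++ z ++ [E2 j lj fj, E2 i li fi] ++ v) := by
  obtain ⟨k, hk⟩ := exists_fresh (x ++ [E1 i li fi] ++ y ++ [E1 j lj fj] ++ z ++
    [E2 i li fi, E2 j lj fj] ++ v)
  have hadd := h.add hk li (fi == li)
  have hb : ∀ fi fj : Bool, ((fi == fj) != (true : Bool)) = (fi != fj) := by decide
  have r := GR3 x y z (v ++ [none]) k i j li li lj fi fi fj (fi == fj) true true
    (hb fi fj) (by simp) (Or.inl rfl)
  have w1 : GW n (x ++ ord (fi == fj) (E1 k li fi) (E1 i li fi) ++ y ++ [E2 k li fi, E1 j lj fj] ++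
      z ++ [E2 i li fi, E2 j lj fj] ++ v) := by
    refine hadd.perm ?_
    rw [List.perm_iff_count]; intro c
    simp only [List.count_append, ord_count, List.count_cons, List.count_nil, E1, E2]; ring
  have w2 : GW n (x ++ ord (fi == fj) (E1 i li fi) (E1 k li fi) ++ y ++ [E1 j lj fj, E2 k li fi] ++
      z ++ [E2 j lj fj, E2 i li fi] ++ v) := by
    refine w1.perm ?_
    rw [List.perm_iff_count]; intro c
    simp only [List.count_append, ord_count, List.count_cons, List.count_nil, E1, E2]; ring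
  have w3 : GW n (x ++ [E1 i li fi] ++ y ++ [E1 j lj fj] ++ z ++ [E2 j lj fj, E2 i li fi] ++ v) := by
    refine h.perm ?_
    rw [List.perm_iff_count]; intro c
    simp only [List.count_append, List.count_cons, List.count_nil]; ring
  refine (GE.of_move h w1 ?_).trans ((GE.of_move w1 w2 ?_).trans (GE.of_move w3 w2 ?_).symm)
  · cases hc : (fi == fj)
    · have := MoveSV.sv (x ++ [E1 i li fi]) y
        ([E1 j lj fj] ++ z ++ [E2 i li fi, E2 j lj fj] ++ v ++ [none]) k li (fi == li) hy
      simpa [ord, E1, E2, List.append_assoc] using this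
    · have := MoveSV.sv x ([E1 i li fi] ++ y)
        ([E1 j lj fj] ++ z ++ [E2 i li fi, E2 j lj fj] ++ v ++ [none]) k li (fi == li)
        (by simp [hy, E1])
      simpa [ord, E1, E2, List.append_assoc] using this
  · simpa [ord, List.append_assoc] using r
  · cases hc : (fi == fj)
    · have := MoveSV.sv x ([E1 i li fi] ++ y ++ [E1 j lj fj])
        (z ++ [E2 j lj fj, E2 i li fi] ++ v ++ [none]) k li (fi == li) (by simp [hy, E1])
      simpa [ord, E1, E2, List.append_assoc] using this
    · have := MoveSV.sv (x ++ [E1 i li fi]) (y ++ [E1 j lj fj])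
        (z ++ [E2 j lj fj, E2 i li fi] ++ v ++ [none]) k li (fi == li) (by simp [hy, E1])
      simpa [ord, E1, E2, List.append_assoc] using this

theorem split_two {S : List End} {p q : End} (hp : p ∈ S) (hq : q ∈ S) (h : p ≠ q) :
    (∃ s t u, S = s ++ [p] ++ t ++ [q] ++ u) ∨ ∃ s t u, S = s ++ [q] ++ t ++ [p] ++ u := by
  obtain ⟨s, t, rfl⟩ := List.append_of_mem hp
  rw [List.mem_append, List.mem_cons] at hq
  rcases hq with hq | hq | hq
  · obtain ⟨a, b, rfl⟩ := List.append_of_mem hq
    exact Or.inr ⟨a, b, t, by simp⟩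
  · exact absurd hq.symm h
  · obtain ⟨a, b, rfl⟩ := List.append_of_mem hq
    exact Or.inl ⟨s, a, b, by simp⟩

theorem GW.ne {n : ℕ} {x y : Word} {p q : End} (h : GW n (x ++ [some p, some q] ++ y)) :
    bar p ≠ bar q := by
  intro e
  have e' : p = q := by rw [← bar_bar p, e, bar_bar]
  subst e'
  have := h.nd
  simp [List.nodup_append] at this

theorem none_notMem_map (c : List End) : (none : Option End) ∉ c.map some := by simp

theorem comm_right {n : ℕ} {x y t : Word} {S : List End} {p q : End}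
    (h : GW n (x ++ [some p, some q] ++ y ++ S.map some ++ t)) (hp : bar p ∈ S)
    (hq : bar q ∈ S) :
    GE n (x ++ [some p, some q] ++ y ++ S.map some ++ t)
      (x ++ [some q, some p] ++ y ++ S.map some ++ t) := by
  have hne : bar p ≠ bar q := by
    have h' : GW n (x ++ [some p, some q] ++ (y ++ S.map some ++ t)) := by
      simpa [List.append_assoc] using h
    exact h'.ne
  rcases split_two hp hq hne with ⟨a, b, c, rfl⟩ | ⟨a, b, c, rfl⟩
  · have e : x ++ [some p, some q] ++ y ++ (a ++ [bar p] ++ b ++ [bar q] ++ c).map some ++ t =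
        x ++ [E1 p.1 p.2.1 (p.2.2 == p.2.1), E1 q.1 q.2.1 (q.2.2 == q.2.1)] ++ (y ++ a.map some) ++
        [E2 p.1 p.2.1 (p.2.2 == p.2.1)] ++ b.map some ++ [E2 q.1 q.2.1 (q.2.2 == q.2.1)] ++
        (c.map some ++ t) := by
      rw [← some_eq, ← some_eq, ← some_bar, ← some_bar]; simp [List.append_assoc]
    have e' : x ++ [some q, some p] ++ y ++ (a ++ [bar p] ++ b ++ [bar q] ++ c).map some ++ t =
        x ++ [E1 q.1 q.2.1 (q.2.2 == q.2.1), E1 p.1 p.2.1 (p.2.2 == p.2.1)] ++ (y ++ a.map some) ++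
        [E2 p.1 p.2.1 (p.2.2 == p.2.1)] ++ b.map some ++ [E2 q.1 q.2.1 (q.2.2 == q.2.1)] ++
        (c.map some ++ t) := by
      rw [← some_eq, ← some_eq, ← some_bar, ← some_bar]; simp [List.append_assoc]
    rw [e, e']
    exact T1a _ _ _ _ _ _ _ _ _ _ (none_notMem_map b) (e ▸ h)
  · have e : x ++ [some p, some q] ++ y ++ (a ++ [bar q] ++ b ++ [bar p] ++ c).map some ++ t =
        x ++ [E1 p.1 p.2.1 (p.2.2 == p.2.1), E1 q.1 q.2.1 (q.2.2 == q.2.1)] ++ (y ++ a.map some) ++
        [E2 q.1 q.2.1 (q.2.2 == q.2.1)] ++ b.map some ++ [E2 p.1 p.2.1 (p.2.2 == p.2.1)] ++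
        (c.map some ++ t) := by
      rw [← some_eq, ← some_eq, ← some_bar, ← some_bar]; simp [List.append_assoc]
    have e' : x ++ [some q, some p] ++ y ++ (a ++ [bar q] ++ b ++ [bar p] ++ c).map some ++ t =
        x ++ [E1 q.1 q.2.1 (q.2.2 == q.2.1), E1 p.1 p.2.1 (p.2.2 == p.2.1)] ++ (y ++ a.map some) ++
        [E2 q.1 q.2.1 (q.2.2 == q.2.1)] ++ b.map some ++ [E2 p.1 p.2.1 (p.2.2 == p.2.1)] ++
        (c.map some ++ t) := by
      rw [← some_eq, ← some_eq, ← some_bar, ← some_bar]; simp [List.append_assoc]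
    have h' : GW n (x ++ [some q, some p] ++ y ++ (a ++ [bar q] ++ b ++ [bar p] ++ c).map some ++
        t) := by
      refine h.perm ?_
      rw [List.perm_iff_count]; intro c
      simp only [List.count_append, List.count_cons, List.count_nil]; ring
    rw [e, e']
    exact (T1a _ _ _ _ _ _ _ _ _ _ (none_notMem_map b) (e' ▸ h')).symm

theorem some_eq' (p : End) : some p = E2 p.1 (!p.2.1) (p.2.2 == !p.2.1) := by
  obtain ⟨a, b, c⟩ := p
  simp only [E2]
  cases b <;> cases c <;> rfl

theorem some_bar' (p : End) : some (bar p) = E1 p.1 (!p.2.1) (p.2.2 == !p.2.1) := by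
  obtain ⟨a, b, c⟩ := p
  simp only [E1, bar]
  cases b <;> cases c <;> rfl

theorem comm_left {n : ℕ} {x y t : Word} {S : List End} {p q : End}
    (h : GW n (t ++ S.map some ++ x ++ [some p, some q] ++ y)) (hp : bar p ∈ S)
    (hq : bar q ∈ S) :
    GE n (t ++ S.map some ++ x ++ [some p, some q] ++ y)
      (t ++ S.map some ++ x ++ [some q, some p] ++ y) := by
  have hne : bar p ≠ bar q := by
    have h' : GW n ((t ++ S.map some ++ x) ++ [some p, some q] ++ y) := h
    exact h'.ne
  rcases split_two hp hq hne with ⟨a, b, c, rfl⟩ | ⟨a, b, c, rfl⟩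
  · have e : t ++ (a ++ [bar p] ++ b ++ [bar q] ++ c).map some ++ x ++ [some p, some q] ++ y =
        (t ++ a.map some) ++ [E1 p.1 (!p.2.1) (p.2.2 == !p.2.1)] ++ b.map some ++
        [E1 q.1 (!q.2.1) (q.2.2 == !q.2.1)] ++ (c.map some ++ x) ++
        [E2 p.1 (!p.2.1) (p.2.2 == !p.2.1), E2 q.1 (!q.2.1) (q.2.2 == !q.2.1)] ++ y := by
      rw [← some_eq', ← some_eq', ← some_bar', ← some_bar']; simp [List.append_assoc]
    have e' : t ++ (a ++ [bar p] ++ b ++ [bar q] ++ c).map some ++ x ++ [some q, some p] ++ y =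
        (t ++ a.map some) ++ [E1 p.1 (!p.2.1) (p.2.2 == !p.2.1)] ++ b.map some ++
        [E1 q.1 (!q.2.1) (q.2.2 == !q.2.1)] ++ (c.map some ++ x) ++
        [E2 q.1 (!q.2.1) (q.2.2 == !q.2.1), E2 p.1 (!p.2.1) (p.2.2 == !p.2.1)] ++ y := by
      rw [← some_eq', ← some_eq', ← some_bar', ← some_bar']; simp [List.append_assoc]
    rw [e, e']
    exact T1b _ _ _ _ _ _ _ _ _ _ (none_notMem_map b) (e ▸ h)
  · have e : t ++ (a ++ [bar q] ++ b ++ [bar p] ++ c).map some ++ x ++ [some p, some q] ++ y =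
        (t ++ a.map some) ++ [E1 q.1 (!q.2.1) (q.2.2 == !q.2.1)] ++ b.map some ++
        [E1 p.1 (!p.2.1) (p.2.2 == !p.2.1)] ++ (c.map some ++ x) ++
        [E2 p.1 (!p.2.1) (p.2.2 == !p.2.1), E2 q.1 (!q.2.1) (q.2.2 == !q.2.1)] ++ y := by
      rw [← some_eq', ← some_eq', ← some_bar', ← some_bar']; simp [List.append_assoc]
    have e' : t ++ (a ++ [bar q] ++ b ++ [bar p] ++ c).map some ++ x ++ [some q, some p] ++ y =
        (t ++ a.map some) ++ [E1 q.1 (!q.2.1) (q.2.2 == !q.2.1)] ++ b.map some ++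
        [E1 p.1 (!p.2.1) (p.2.2 == !p.2.1)] ++ (c.map some ++ x) ++
        [E2 q.1 (!q.2.1) (q.2.2 == !q.2.1), E2 p.1 (!p.2.1) (p.2.2 == !p.2.1)] ++ y := by
      rw [← some_eq', ← some_eq', ← some_bar', ← some_bar']; simp [List.append_assoc]
    have h' : GW n (t ++ (a ++ [bar q] ++ b ++ [bar p] ++ c).map some ++ x ++ [some q, some p] ++
        y) := by
      refine h.perm ?_
      rw [List.perm_iff_count]; intro c
      simp only [List.count_append, List.count_cons, List.count_nil]; ring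
    rw [e, e']
    exact (T1b _ _ _ _ _ _ _ _ _ _ (none_notMem_map b) (e' ▸ h')).symm

end Pool.Agent.H763.SV3
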