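import Mathlib
import Pool.Agent.H763.Moves

/-! Diagrams on three strands. -/

set_option autoImplicit false

namespace Pool.Agent.H763.SV3

open Pool.Agent.H85.Gauss

theorem self_del {n : ℕ} {x y z : Word} {e : End} (hy : none ∉ y)
    (h : GW n (x ++ [some e] ++ y ++ [some (bar e)] ++ z)) :
    GE n (x ++ [some e] ++ y ++ [some (bar e)] ++ z) (x ++ y ++ z) := by
  obtain ⟨a, o, s⟩ := e
  have h1 : GW n ((x ++ y ++ z) ++ [some (a, o, s), some (a, !o, s)]) := by
    refine h.perm ?_
    rw [List.perm_iff_count]; intro c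
    simp only [List.count_append, List.count_cons, List.count_nil, bar]; ring
  refine (GE.of_move h1.del.1 h ?_).symm
  have := MoveSV.sv x y (z ++ [none]) a o s hy
  simpa [List.append_assoc, bar] using this

/-- Three strands. -/
abbrev Tr := List End × List End × List End

def T (D : Tr) : Word := D.1.map some ++ [none] ++ D.2.1.map some ++ [none] ++ D.2.2.map some

def TW (D : Tr) : Prop := GW 3 (T D)

def TE (D D' : Tr) : Prop := GE 3 (T D) (T D')

theorem TE.refl {D : Tr} (h : TW D) : TE D D := GE.refl h
theorem TE.symm {D D' : Tr} (h : TE D D') : TE D' D := GE.symm h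
theorem TE.trans {D D' D'' : Tr} (h : TE D D') (k : TE D' D'') : TE D D'' := GE.trans h k
theorem TE.left {D D' : Tr} (h : TE D D') : TW D := h.1
theorem TE.right {D D' : Tr} (h : TE D D') : TW D' := h.2.1

theorem TW_iff {a b c : List End} : TW (a, b, c) ↔ ((a ++ b ++ c).map key).Nodup ∧
    ∀ e ∈ a ++ b ++ c, bar e ∈ a ++ b ++ c := by
  have h1 : ends (T (a, b, c)) = a ++ b ++ c := by simp [T]
  have hc : ∀ l : List End, (l.map some).count (none : Option End) = 0 := by
    intro l; rw [List.count_eq_zero]; simp
  constructor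
  · rintro ⟨-, h2, h3⟩
    rw [h1] at h2 h3
    exact ⟨h2, h3⟩
  · rintro ⟨h2, h3⟩
    refine ⟨?_, by rw [h1]; exact h2, by rw [h1]; exact h3⟩
    simp only [T, List.count_append, hc]; simp

theorem TW.perm {a b c a' b' c' : List End} (h : TW (a, b, c))
    (p : (a ++ b ++ c).Perm (a' ++ b' ++ c')) : TW (a', b', c') := by
  rw [TW_iff] at h ⊢
  refine ⟨(p.map key).nodup_iff.1 h.1, fun e he => ?_⟩
  exact p.mem_iff.1 (h.2 e (p.mem_iff.2 he))

theorem TW.perm1 {a b c a' : List End} (h : TW (a, b, c)) (p : a.Perm a') : TW (a', b, c) :=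
  h.perm ((p.append_right b).append_right c)

theorem TW.perm2 {a b c b' : List End} (h : TW (a, b, c)) (p : b.Perm b') : TW (a, b', c) :=
  h.perm ((p.append_left a).append_right c)

theorem TW.perm3 {a b c c' : List End} (h : TW (a, b, c)) (p : c.Perm c') : TW (a, b, c') :=
  h.perm (p.append_left _)

theorem c12 {u v b c : List End} {p q : End} (h : TW (u ++ [p, q] ++ v, b, c)) (hp : bar p ∈ b)
    (hq : bar q ∈ b) : TE (u ++ [p, q] ++ v, b, c) (u ++ [q, p] ++ v, b, c) := by
  have := comm_right (n := 3) (x := u.map some) (y := v.map some ++ [none]) (S := b)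
    (t := [none] ++ c.map some) (p := p) (q := q)
    (by simpa [TW, T, List.append_assoc] using h) hp hq
  simpa [TE, T, List.append_assoc] using this

theorem c13 {u v b c : List End} {p q : End} (h : TW (u ++ [p, q] ++ v, b, c)) (hp : bar p ∈ c)
    (hq : bar q ∈ c) : TE (u ++ [p, q] ++ v, b, c) (u ++ [q, p] ++ v, b, c) := by
  have := comm_right (n := 3) (x := u.map some) (y := v.map some ++ [none] ++ b.map some ++ [none])
    (S := c) (t := []) (p := p) (q := q)
    (by simpa [TW, T, List.append_assoc] using h) hp hq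
  simpa [TE, T, List.append_assoc] using this

theorem c21 {a u v c : List End} {p q : End} (h : TW (a, u ++ [p, q] ++ v, c)) (hp : bar p ∈ a)
    (hq : bar q ∈ a) : TE (a, u ++ [p, q] ++ v, c) (a, u ++ [q, p] ++ v, c) := by
  have := comm_left (n := 3) (t := []) (S := a) (x := [none] ++ u.map some)
    (y := v.map some ++ [none] ++ c.map some) (p := p) (q := q)
    (by simpa [TW, T, List.append_assoc] using h) hp hq
  simpa [TE, T, List.append_assoc] using this

theorem c31 {a b u v : List End} {p q : End} (h : TW (a, b, u ++ [p, q] ++ v)) (hp : bar p ∈ a)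
    (hq : bar q ∈ a) : TE (a, b, u ++ [p, q] ++ v) (a, b, u ++ [q, p] ++ v) := by
  have := comm_left (n := 3) (t := []) (S := a) (x := [none] ++ b.map some ++ [none] ++ u.map some)
    (y := v.map some) (p := p) (q := q)
    (by simpa [TW, T, List.append_assoc] using h) hp hq
  simpa [TE, T, List.append_assoc] using this

theorem c32 {a b u v : List End} {p q : End} (h : TW (a, b, u ++ [p, q] ++ v)) (hp : bar p ∈ b)
    (hq : bar q ∈ b) : TE (a, b, u ++ [p, q] ++ v) (a, b, u ++ [q, p] ++ v) := by
  have := comm_left (n := 3) (t := a.map some ++ [none]) (S := b) (x := [none] ++ u.map some)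
    (y := v.map some) (p := p) (q := q)
    (by simpa [TW, T, List.append_assoc] using h) hp hq
  simpa [TE, T, List.append_assoc] using this

/-- Reordering by swaps of adjacent elements which satisfy `P`. -/
inductive CP (P : End → Prop) : List End → List End → Prop
  | refl (l : List End) : CP P l l
  | step (u v : List End) (p q : End) : P p → P q → CP P (u ++ [p, q] ++ v) (u ++ [q, p] ++ v)
  | trans (l l' l'' : List End) : CP P l l' → CP P l' l'' → CP P l l''

theorem CP.append {P : End → Prop} {l l' : List End} (h : CP P l l') (x y : List End) :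
    CP P (x ++ l ++ y) (x ++ l' ++ y) := by
  induction h with
  | refl l => exact CP.refl _
  | step u v p q hp hq =>
    have := CP.step (P := P) (x ++ u) (v ++ y) p q hp hq
    simpa [List.append_assoc] using this
  | trans l l' l'' _ _ ih1 ih2 => exact CP.trans _ _ _ ih1 ih2

theorem CP.of_perm {P : End → Prop} {l l' : List End} (h : l.Perm l') (hP : ∀ e ∈ l, P e) :
    CP P l l' := by
  induction h with
  | nil => exact CP.refl _
  | cons x _ ih =>
    have := (ih fun e he => hP e (List.mem_cons_of_mem _ he)).append [x] []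
    simpa using this
  | swap x y l => exact CP.step [] l y x (hP y (by simp)) (hP x (by simp))
  | trans h1 _ ih1 ih2 =>
    exact CP.trans _ _ _ (ih1 hP) (ih2 fun e he => hP e (h1.mem_iff.2 he))

theorem CP.mono {P Q : End → Prop} {l l' : List End} (h : CP P l l') (hPQ : ∀ e, P e → Q e) :
    CP Q l l' := by
  induction h with
  | refl l => exact CP.refl _
  | step u v p q hp hq => exact CP.step u v p q (hPQ _ hp) (hPQ _ hq)
  | trans l l' l'' _ _ ih1 ih2 => exact CP.trans _ _ _ ih1 ih2

theorem CP.te21 {P : End → Prop} {a b b' c : List End} (h : CP P b b') (hw : TW (a, b, c))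
    (hP : ∀ e, P e → bar e ∈ a) : TE (a, b, c) (a, b', c) := by
  induction h with
  | refl l => exact TE.refl hw
  | step u v p q hp hq => exact c21 hw (hP _ hp) (hP _ hq)
  | trans l l' l'' _ _ ih1 ih2 =>
    have h1 := ih1 hw
    exact h1.trans (ih2 h1.right)

theorem CP.te31 {P : End → Prop} {a b c c' : List End} (h : CP P c c') (hw : TW (a, b, c))
    (hP : ∀ e, P e → bar e ∈ a) : TE (a, b, c) (a, b, c') := by
  induction h with
  | refl l => exact TE.refl hw
  | step u v p q hp hq => exact c31 hw (hP _ hp) (hP _ hq)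
  | trans l l' l'' _ _ ih1 ih2 =>
    have h1 := ih1 hw
    exact h1.trans (ih2 h1.right)

theorem E1_eq (i : ℕ) (l f : Bool) : E1 i l f = some (i, l, f == l) := rfl
theorem E2_eq (i : ℕ) (l f : Bool) : E2 i l f = some (i, !l, f == l) := rfl

theorem del12 {u u' v v' c : List End} {i j : ℕ} {l f : Bool}
    (h : TW (u ++ [(i, l, f == l), (j, l, (!f) == l)] ++ u',
      v ++ [(i, !l, f == l), (j, !l, (!f) == l)] ++ v', c)) :
    TE (u ++ [(i, l, f == l), (j, l, (!f) == l)] ++ u',
      v ++ [(i, !l, f == l), (j, !l, (!f) == l)] ++ v', c) (u ++ u', v ++ v', c) := by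
  have h1 : GW 3 ((T (u ++ u', v ++ v', c) ++ [some (i, l, f == l), some (i, !l, f == l)]) ++
      [some (j, l, (!f) == l), some (j, !l, (!f) == l)]) := by
    refine GW.perm h ?_
    rw [List.perm_iff_count]; intro c
    simp only [T, List.map_append, List.map_cons, List.map_nil, List.count_append, List.count_cons,
      List.count_nil]; ring
  have h2 := h1.del.1.del.1
  refine (GE.of_move h2 h ?_).symm
  have := GR2 (u.map some) (u'.map some ++ [none] ++ v.map some)
    (v'.map some ++ [none] ++ c.map some ++ [none]) i j l f true true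
  simpa [T, ord, List.append_assoc, E1_eq, E2_eq] using this

theorem del13 {u u' v v' b : List End} {i j : ℕ} {l f : Bool}
    (h : TW (u ++ [(i, l, f == l), (j, l, (!f) == l)] ++ u', b,
      v ++ [(i, !l, f == l), (j, !l, (!f) == l)] ++ v')) :
    TE (u ++ [(i, l, f == l), (j, l, (!f) == l)] ++ u', b,
      v ++ [(i, !l, f == l), (j, !l, (!f) == l)] ++ v') (u ++ u', b, v ++ v') := by
  have h1 : GW 3 ((T (u ++ u', b, v ++ v') ++ [some (i, l, f == l), some (i, !l, f == l)]) ++
      [some (j, l, (!f) == l), some (j, !l, (!f) == l)]) := by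
    refine GW.perm h ?_
    rw [List.perm_iff_count]; intro c
    simp only [T, List.map_append, List.map_cons, List.map_nil, List.count_append, List.count_cons,
      List.count_nil]; ring
  have h2 := h1.del.1.del.1
  refine (GE.of_move h2 h ?_).symm
  have := GR2 (u.map some) (u'.map some ++ [none] ++ b.map some ++ [none] ++ v.map some)
    (v'.map some ++ [none]) i j l f true true
  simpa [T, ord, List.append_assoc, E1_eq, E2_eq] using this

theorem del23 {u u' v v' a : List End} {i j : ℕ} {l f : Bool}
    (h : TW (a, u ++ [(i, l, f == l), (j, l, (!f) == l)] ++ u',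
      v ++ [(i, !l, f == l), (j, !l, (!f) == l)] ++ v')) :
    TE (a, u ++ [(i, l, f == l), (j, l, (!f) == l)] ++ u',
      v ++ [(i, !l, f == l), (j, !l, (!f) == l)] ++ v') (a, u ++ u', v ++ v') := by
  have h1 : GW 3 ((T (a, u ++ u', v ++ v') ++ [some (i, l, f == l), some (i, !l, f == l)]) ++
      [some (j, l, (!f) == l), some (j, !l, (!f) == l)]) := by
    refine GW.perm h ?_
    rw [List.perm_iff_count]; intro c
    simp only [T, List.map_append, List.map_cons, List.map_nil, List.count_append, List.count_cons,
      List.count_nil]; ring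
  have h2 := h1.del.1.del.1
  refine (GE.of_move h2 h ?_).symm
  have := GR2 (a.map some ++ [none] ++ u.map some) (u'.map some ++ [none] ++ v.map some)
    (v'.map some ++ [none]) i j l f true true
  simpa [T, ord, List.append_assoc, E1_eq, E2_eq] using this

/-- `ord` for passages. -/
def od (d : Bool) (p q : End) : List End := if d then [p, q] else [q, p]

theorem od_map (d : Bool) (p q : End) : (od d p q).map some = ord d (some p) (some q) := by
  cases d <;> rfl

theorem od_count (d : Bool) (p q c : End) :
    (od d p q).count c = [p].count c + [q].count c := by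
  cases d <;> simp [od, List.count_cons, add_comm]

/-- R3 with one segment on each of the three strands. -/
theorem r3 {u u' v v' w w' : List End} {i j k : ℕ} {lx ly lz fx fy fz α β γ : Bool}
    (hA : (α != β) = (fy != fz)) (hB : (β != γ) = (fx != fy)) (hC : lx = ly ∨ lz = ly)
    (h : TW (u ++ od α (i, lx, fx == lx) (j, ly, fy == ly) ++ u',
      v ++ od β (i, !lx, fx == lx) (k, lz, fz == lz) ++ v',
      w ++ od γ (j, !ly, fy == ly) (k, !lz, fz == lz) ++ w')) :
    TE (u ++ od α (i, lx, fx == lx) (j, ly, fy == ly) ++ u',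
      v ++ od β (i, !lx, fx == lx) (k, lz, fz == lz) ++ v',
      w ++ od γ (j, !ly, fy == ly) (k, !lz, fz == lz) ++ w')
    (u ++ od α (j, ly, fy == ly) (i, lx, fx == lx) ++ u',
      v ++ od β (k, lz, fz == lz) (i, !lx, fx == lx) ++ v',
      w ++ od γ (k, !lz, fz == lz) (j, !ly, fy == ly) ++ w') := by
  have h1 : TW (u ++ od α (j, ly, fy == ly) (i, lx, fx == lx) ++ u',
      v ++ od β (k, lz, fz == lz) (i, !lx, fx == lx) ++ v',
      w ++ od γ (k, !lz, fz == lz) (j, !ly, fy == ly) ++ w') := by
    refine h.perm ?_
    rw [List.perm_iff_count]; intro c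
    simp only [List.count_append, od_count]; ring
  refine GE.of_move h h1 ?_
  have := GR3 (u.map some) (u'.map some ++ [none] ++ v.map some)
    (v'.map some ++ [none] ++ w.map some) (w'.map some ++ [none]) i j k lx ly lz fx fy fz α β γ
    hA hB hC
  simpa [T, List.append_assoc, E1_eq, E2_eq, od_map] using this

end Pool.Agent.H763.SV3
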