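import Mathlib
import Pool.Agent.H763.Triples
import Pool.Agent.H763.Stack

/-! Diagrams given by a word `B` of crossings of the second and the third strand, met in the same
order along both strands, and a word `w` of crossings along the first strand. -/

set_option autoImplicit false

namespace Pool.Agent.H763.SV3

open Pool.Agent.H85.Gauss

/-- Generators: `true` for a crossing with the second strand and `false` for a crossing with the
third one; the lift (`true`: the first strand is over); the level. -/
abbrev Gn := Bool × Bool × ℕ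

/-- Letters: a generator and a flat sign. -/
abbrev Lt := Gn × Bool

/-- Crossings of the second and the third strand: lift (`true`: the second strand is over) and flat
sign. -/
abbrev Kt := Bool × Bool

def e1 (p : ℕ × Lt) : End := (p.1, p.2.1.2.1, p.2.2 == p.2.1.2.1)
def e2 (p : ℕ × Lt) : End := (p.1, !p.2.1.2.1, p.2.2 == p.2.1.2.1)
def k2 (c : ℕ × Kt) : End := (c.1, c.2.1, c.2.2 == c.2.1)
def k3 (c : ℕ × Kt) : End := (c.1, !c.2.1, c.2.2 == c.2.1)

@[simp] theorem bar_e1 (p : ℕ × Lt) : bar (e1 p) = e2 p := rfl
@[simp] theorem bar_e2 (p : ℕ × Lt) : bar (e2 p) = e1 p := by simp [bar, e1, e2]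
@[simp] theorem bar_k2 (c : ℕ × Kt) : bar (k2 c) = k3 c := rfl
@[simp] theorem bar_k3 (c : ℕ × Kt) : bar (k3 c) = k2 c := by simp [bar, k2, k3]

/-- Lower the levels by one and forget the letters of level zero. -/
def lo1 : ℕ × Lt → Option (ℕ × Lt)
  | (_, (_, _, 0), _) => none
  | (i, (s, l, k + 1), f) => some (i, (s, l, k), f)

def low (w : List (ℕ × Lt)) : List (ℕ × Lt) := w.filterMap lo1

/-- Raise the level by `k`. -/
def shp (k : ℕ) (p : ℕ × Lt) : ℕ × Lt := (p.1, (p.2.1.1, p.2.1.2.1, p.2.1.2.2 + k), p.2.2)

def shd (k : ℕ) (w : List (ℕ × Lt)) : List (ℕ × Lt) := w.map (shp k)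

def row (s : Bool) (g : ℕ × Kt → End) : List (ℕ × Kt) → List (ℕ × Lt) → List End
  | [], w => (w.filter fun p => p.2.1.1 == s).map e2
  | c :: B, w => (w.filter fun p => p.2.1.1 == s && p.2.1.2.2 == 0).map e2 ++
      g c :: row s g B (low w)

def real (B : List (ℕ × Kt)) (w : List (ℕ × Lt)) : Tr :=
  (w.map e1, row true k2 B w, row false k3 B w)

theorem low_append (u v : List (ℕ × Lt)) : low (u ++ v) = low u ++ low v := by simp [low]

theorem low_shd (k : ℕ) (w : List (ℕ × Lt)) : low (shd (k + 1) w) = shd k w := by
  induction w with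
  | nil => rfl
  | cons p w ih =>
    obtain ⟨i, ⟨s, l, m⟩, f⟩ := p
    simp only [low, shd, List.map_cons, shp] at ih ⊢
    rw [List.filterMap_cons, ← ih]
    rfl

theorem low_zero {w : List (ℕ × Lt)} (h : ∀ p ∈ w, p.2.1.2.2 = 0) : low w = [] := by
  induction w with
  | nil => rfl
  | cons p w ih =>
    obtain ⟨i, ⟨s, l, m⟩, f⟩ := p
    have h0 : m = 0 := h (i, (s, l, m), f) (by simp)
    subst h0
    have := ih fun q hq => h q (by simp [hq])
    simp only [low] at this ⊢
    rw [List.filterMap_cons]
    simpa [lo1] using this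

theorem low_le {k : ℕ} {w : List (ℕ × Lt)} (h : ∀ p ∈ w, p.2.1.2.2 ≤ k + 1) :
    ∀ p ∈ low w, p.2.1.2.2 ≤ k := by
  intro p hp
  simp only [low, List.mem_filterMap] at hp
  obtain ⟨⟨i, ⟨s, l, m⟩, f⟩, hq, h2⟩ := hp
  have := h _ hq
  cases m with
  | zero => simp [lo1] at h2
  | succ m =>
    simp only [lo1, Option.some.injEq] at h2
    subst h2
    simp only at this ⊢
    omega

theorem shd_zero (w : List (ℕ × Lt)) : shd 0 w = w := by
  have : shp 0 = id := by funext p; simp [shp]
  rw [shd, this, List.map_id]

theorem filter_shd (s : Bool) (k : ℕ) (w : List (ℕ × Lt)) :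
    (shd (k + 1) w).filter (fun p => p.2.1.1 == s && p.2.1.2.2 == 0) = [] := by
  rw [List.filter_eq_nil_iff]
  intro p hp
  simp only [shd, List.mem_map] at hp
  obtain ⟨q, -, rfl⟩ := hp
  simp [shp]

/-- The word of a strand in a stack. -/
theorem row_append (s : Bool) (g : ℕ × Kt → End) (B1 B2 : List (ℕ × Kt)) (u v : List (ℕ × Lt))
    (h : ∀ p ∈ u, p.2.1.2.2 ≤ B1.length) :
    row s g (B1 ++ B2) (u ++ shd B1.length v) = row s g B1 u ++ row s g B2 v := by
  induction B1 generalizing u with
  | nil =>
    have h0 : ∀ p ∈ u, p.2.1.2.2 = 0 := fun p hp => Nat.le_zero.1 (h p hp)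
    simp only [List.nil_append, List.length_nil, shd_zero]
    cases B2 with
    | nil => simp [row]
    | cons c B2 =>
      have h1 : u.filter (fun p => p.2.1.1 == s && p.2.1.2.2 == 0) =
          u.filter (fun p => p.2.1.1 == s) := by
        refine List.filter_congr fun p hp => ?_
        simp [h0 p hp]
      simp only [row, List.filter_append, low_append, low_zero h0, List.nil_append,
        List.map_append, h1, List.append_assoc]
  | cons c B1 ih =>
    have h1 := ih (low u) (low_le h)
    simp only [List.cons_append, List.length_cons, row, List.filter_append, low_append,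
      low_shd, filter_shd, List.append_nil, h1, List.append_assoc]

theorem row_perm (s : Bool) (g : ℕ × Kt → End) (B : List (ℕ × Kt)) (w : List (ℕ × Lt)) :
    (row s g B w).Perm ((w.filter fun p => p.2.1.1 == s).map e2 ++ B.map g) := by
  induction B generalizing w with
  | nil => simp [row]
  | cons c B ih =>
    have key : ((w.filter fun p => p.2.1.1 == s && p.2.1.2.2 == 0).map e2 ++
        ((low w).filter fun p => p.2.1.1 == s).map e2).Perm
        ((w.filter fun p => p.2.1.1 == s).map e2) := by
      induction w with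
      | nil => simp [low]
      | cons p w ihw =>
        obtain ⟨i, ⟨t, l, m⟩, f⟩ := p
        by_cases hs : t = s
        · subst hs
          cases m with
          | zero =>
            have e : low ((i, (t, l, 0), f) :: w) = low w := rfl
            rw [e]
            simpa using ihw
          | succ m =>
            have e : low ((i, (t, l, m + 1), f) :: w) = (i, (t, l, m), f) :: low w := rfl
            rw [e]
            rw [List.perm_iff_count] at ihw ⊢
            intro a
            have := ihw a
            simp only [List.count_append] at this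
            simp [List.count_append, List.count_cons, e2]
            rw [← this]; ring
        · cases m with
          | zero =>
            have e : low ((i, (t, l, 0), f) :: w) = low w := rfl
            rw [e]
            simpa [List.filter_cons, hs] using ihw
          | succ m =>
            have e : low ((i, (t, l, m + 1), f) :: w) = (i, (t, l, m), f) :: low w := rfl
            rw [e]
            simpa [List.filter_cons, hs] using ihw
    have h1 := ih (low w)
    simp only [row]
    rw [List.perm_iff_count] at h1 key ⊢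
    intro a
    have h2 := h1 a
    have h3 := key a
    simp only [List.count_append, List.count_cons, List.map_cons] at h2 h3 ⊢
    rw [← h3, h2]; ring

theorem row_cp (s : Bool) (g : ℕ × Kt → End) (B : List (ℕ × Kt)) {w w' : List (ℕ × Lt)}
    (h : w.Perm w') : CP (fun e => e ∈ w.map e2) (row s g B w) (row s g B w') := by
  induction B generalizing w w' with
  | nil =>
    have h1 := (h.filter fun p => p.2.1.1 == s).map e2
    have h2 : CP (fun e => e ∈ w.map e2) ((w.filter fun p => p.2.1.1 == s).map e2)
        ((w'.filter fun p => p.2.1.1 == s).map e2) := by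
      refine CP.of_perm h1 fun e he => ?_
      obtain ⟨p, hp, rfl⟩ := List.mem_map.1 he
      exact List.mem_map_of_mem (List.mem_filter.1 hp).1
    exact h2
  | cons c B ih =>
    have h1 := (h.filter fun p => p.2.1.1 == s && p.2.1.2.2 == 0).map e2
    have h2 : CP (fun e => e ∈ w.map e2)
        ((w.filter fun p => p.2.1.1 == s && p.2.1.2.2 == 0).map e2)
        ((w'.filter fun p => p.2.1.1 == s && p.2.1.2.2 == 0).map e2) := by
      refine CP.of_perm h1 fun e he => ?_
      obtain ⟨p, hp, rfl⟩ := List.mem_map.1 he
      exact List.mem_map_of_mem (List.mem_filter.1 hp).1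
    have h3 : CP (fun e => e ∈ w.map e2) (row s g B (low w)) (row s g B (low w')) := by
      refine (ih (h.filterMap lo1)).mono fun e he => ?_
      obtain ⟨p, hp, rfl⟩ := List.mem_map.1 he
      rw [List.mem_filterMap] at hp
      obtain ⟨⟨i, ⟨t, l, m⟩, f⟩, hq, h2⟩ := hp
      cases m with
      | zero => simp [lo1] at h2
      | succ m =>
        simp only [lo1, Option.some.injEq] at h2
        subst h2
        exact List.mem_map.2 ⟨_, hq, rfl⟩
    have h4 := h2.append [] (g c :: row s g B (low w))
    have h5 := h3.append ((w'.filter fun p => p.2.1.1 == s && p.2.1.2.2 == 0).map e2 ++ [g c]) []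
    simp only [List.nil_append, List.append_nil] at h4 h5
    simp only [row]
    refine CP.trans _ _ _ h4 ?_
    simpa [List.append_assoc] using h5

/-- The names are distinct. -/
def Valid (B : List (ℕ × Kt)) (w : List (ℕ × Lt)) : Prop :=
  (B.map Prod.fst ++ w.map Prod.fst).Nodup

theorem pairs_nodup {L : List End} (h : (L.map Prod.fst).Nodup) :
    ((L ++ L.map bar).map key).Nodup ∧ ∀ e ∈ L ++ L.map bar, bar e ∈ L ++ L.map bar := by
  constructor
  · rw [List.map_append, List.nodup_append]
    refine ⟨?_, ?_, ?_⟩
    · refine List.Nodup.of_map Prod.fst ?_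
      simpa [key, Function.comp_def] using h
    · refine List.Nodup.of_map Prod.fst ?_
      simpa [key, bar, Function.comp_def] using h
    · intro x hx y hy hxy
      obtain ⟨e, he, rfl⟩ := List.mem_map.1 hx
      obtain ⟨e', he', rfl⟩ := List.mem_map.1 hy
      obtain ⟨e'', he'', rfl⟩ := List.mem_map.1 he'
      have h0 : (key e).1 = (key (bar e'')).1 := congrArg Prod.fst hxy
      have h1 : e.1 = e''.1 := h0
      have h2 : e = e'' := List.inj_on_of_nodup_map h he he'' h1
      subst h2
      have := congrArg Prod.snd hxy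
      simp [key, bar] at this
  · intro e he
    rw [List.mem_append] at he ⊢
    rcases he with he | he
    · exact Or.inr (List.mem_map_of_mem he)
    · obtain ⟨e', he', rfl⟩ := List.mem_map.1 he
      left; simpa using he'

theorem real_perm (B : List (ℕ × Kt)) (w : List (ℕ × Lt)) :
    ((w.map e1 ++ B.map k2) ++ (w.map e1 ++ B.map k2).map bar).Perm
      ((real B w).1 ++ (real B w).2.1 ++ (real B w).2.2) := by
  have h1 := row_perm true k2 B w
  have h2 := row_perm false k3 B w
  have h3 := (List.filter_append_perm (fun p : ℕ × Lt => p.2.1.1 == true) w).map e2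
  have h4 : (w.filter fun p => !(p.2.1.1 == true)) = w.filter fun p => p.2.1.1 == false := by
    refine List.filter_congr fun p _ => ?_
    cases p.2.1.1 <;> rfl
  rw [h4] at h3
  simp only [real]
  rw [List.perm_iff_count] at h1 h2 h3 ⊢
  intro a
  have a1 := h1 a
  have a2 := h2 a
  have a3 := h3 a
  have b1 : (w.map e1).map bar = w.map e2 := by simp
  have b2 : (B.map k2).map bar = B.map k3 := by simp
  rw [List.map_append, b1, b2]
  simp only [List.map_append, List.count_append] at a1 a2 a3 ⊢
  rw [a1, a2, ← a3]; ring

theorem real_tw {B : List (ℕ × Kt)} {w : List (ℕ × Lt)} (h : Valid B w) : TW (real B w) := by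
  have h1 : ((w.map e1 ++ B.map k2).map Prod.fst).Nodup := by
    have : (w.map e1 ++ B.map k2).map Prod.fst = w.map Prod.fst ++ B.map Prod.fst := by
      simp [e1, k2, Function.comp_def]
    rw [this]
    exact (List.perm_append_comm.nodup_iff).1 h
  obtain ⟨h2, h3⟩ := pairs_nodup h1
  have p := real_perm B w
  refine TW_iff.2 ⟨(p.map key).nodup_iff.1 h2, fun e he => ?_⟩
  exact p.mem_iff.1 (h3 e (p.mem_iff.2 he))

/-- Renaming of letters. -/
def rn {α : Type} (σ : ℕ → ℕ) (l : List (ℕ × α)) : List (ℕ × α) := l.map fun p => (σ p.1, p.2)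

theorem low_rn (σ : ℕ → ℕ) (w : List (ℕ × Lt)) : low (rn σ w) = rn σ (low w) := by
  induction w with
  | nil => rfl
  | cons p w ih =>
    obtain ⟨i, ⟨t, l, m⟩, f⟩ := p
    cases m with
    | zero => exact ih
    | succ m =>
      have e : low ((i, (t, l, m + 1), f) :: w) = (i, (t, l, m), f) :: low w := rfl
      have e' : low (rn σ ((i, (t, l, m + 1), f) :: w)) = (σ i, (t, l, m), f) :: low (rn σ w) := rfl
      rw [e, e', ih]; rfl

theorem row_rn (s : Bool) (g : ℕ × Kt → End) (hg : ∀ (σ : ℕ → ℕ) (c : ℕ × Kt), g (σ c.1, c.2) = (σ (g c).1, (g c).2))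
    (σ : ℕ → ℕ) (B : List (ℕ × Kt)) (w : List (ℕ × Lt)) :
    row s g (rn σ B) (rn σ w) = rl σ (row s g B w) := by
  induction B generalizing w with
  | nil =>
    simp only [row, rn, rl, List.filter_map, List.map_map, List.map_nil]
    rfl
  | cons c B ih =>
    have h1 := ih (low w)
    have h2 : rn σ (c :: B) = (σ c.1, c.2) :: rn σ B := rfl
    rw [h2]
    simp only [row]
    rw [low_rn, h1, hg]
    simp only [rn, rl, List.filter_map, List.map_map, List.map_append, List.map_cons]
    rfl

theorem real_rn (σ : ℕ → ℕ) (B : List (ℕ × Kt)) (w : List (ℕ × Lt)) :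
    real (rn σ B) (rn σ w) = (rl σ (real B w).1, rl σ (real B w).2.1, rl σ (real B w).2.2) := by
  simp only [real]
  rw [row_rn _ _ (fun _ _ => rfl), row_rn _ _ (fun _ _ => rfl)]
  simp only [rn, rl, List.map_map]
  rfl

theorem te_ren {D : Tr} {σ : ℕ → ℕ} (hσ : Function.Injective σ) (h : TW D)
    (h' : TW (rl σ D.1, rl σ D.2.1, rl σ D.2.2)) :
    TE D (rl σ D.1, rl σ D.2.1, rl σ D.2.2) := by
  refine GE.of_move h h' ?_
  have := MoveSV.move _ _ (Move.rename (oc := false) (sc := false) σ hσ (T D ++ [none]))
  have e : (T D ++ [none]).map (Option.map fun e : End => (σ e.1, e.2)) =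
      T (rl σ D.1, rl σ D.2.1, rl σ D.2.2) ++ [none] := by
    simp [T, rl]
  rw [e] at this
  exact this

theorem Valid.rn {B : List (ℕ × Kt)} {w : List (ℕ × Lt)} (h : Valid B w) {σ : ℕ → ℕ}
    (hσ : Function.Injective σ) : Valid (rn σ B) (rn σ w) := by
  have : (SV3.rn σ B).map Prod.fst ++ (SV3.rn σ w).map Prod.fst =
      (B.map Prod.fst ++ w.map Prod.fst).map σ := by
    simp [SV3.rn, Function.comp_def]
  unfold Valid
  rw [this]
  exact List.Nodup.map hσ h

end Pool.Agent.H763.SV3
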