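import Mathlib
import Pool.Agent.H763.Real

/-! Classes of diagrams on three strands, their products, and the classes `phi B w`. -/

set_option autoImplicit false

namespace Pool.Agent.H763.SV3

open Pool.Agent.H85.Gauss

/-- Well-formed diagrams on three strands. -/
def WD : Type := {D : Tr // TW D}

instance wdSetoid : Setoid WD where
  r D D' := TE D.1 D'.1
  iseqv := ⟨fun D => TE.refl D.2, fun h => TE.symm h, fun h k => TE.trans h k⟩

def Q : Type := Quotient wdSetoid

def cls (D : Tr) (h : TW D) : Q := Quotient.mk wdSetoid ⟨D, h⟩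

theorem cls_eq {D D' : Tr} {h : TW D} {h' : TW D'} : cls D h = cls D' h' ↔ TE D D' := by
  unfold cls
  exact Quotient.eq (r := wdSetoid)

theorem cls_congr {D D' : Tr} (e : D = D') (h : TW D) : cls D h = cls D' (e ▸ h) := by
  subst e; rfl

def toD (D : Tr) : Diagram := [D.1, D.2.1, D.2.2]

theorem flat_toD (D : Tr) : flat (toD D) = T D ++ [none] := by
  simp [toD, flat, T]

theorem wf_toD {D : Tr} : WF 3 (toD D) ↔ TW D := wf_iff (flat_toD D)

theorem te_of {D D' : Tr} (h : TW D) (h' : TW D') (k : EqvSV 3 (toD D) (toD D')) : TE D D' := by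
  refine ⟨h, h', fun E E' h1 h2 => ?_⟩
  have e1 : E = toD D := flat_inj (h1.trans (flat_toD D).symm)
  have e2 : E' = toD D' := flat_inj (h2.trans (flat_toD D').symm)
  rw [e1, e2]; exact k

theorem of_te {D D' : Tr} (h : TE D D') : EqvSV 3 (toD D) (toD D') :=
  h.2.2 _ _ (flat_toD D) (flat_toD D')

/-- Stacking. -/
def st (D E : Tr) : Tr :=
  (rl r0 D.1 ++ rl r1 E.1, rl r0 D.2.1 ++ rl r1 E.2.1, rl r0 D.2.2 ++ rl r1 E.2.2)

theorem toD_st (D E : Tr) : toD (st D E) = stack (toD D) (toD E) := by
  rw [stack_eq]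
  rfl

theorem tw_st {D E : Tr} (hD : TW D) (hE : TW E) : TW (st D E) := by
  rw [← wf_toD, toD_st]
  exact wf_stack (wf_toD.2 hD) (wf_toD.2 hE)

theorem te_st {D D' E E' : Tr} (h : TE D D') (k : TE E E') : TE (st D E) (st D' E') := by
  refine te_of (tw_st h.left k.left) (tw_st h.right k.right) ?_
  rw [toD_st, toD_st]
  exact Relation.EqvGen.trans _ _ _ (stack_left (wf_toD.2 k.left) (of_te h))
    (stack_right (by norm_num) (wf_toD.2 h.right) (of_te k))

def mul : Q → Q → Q :=
  Quotient.map₂ (fun D E => ⟨st D.1 E.1, tw_st D.2 E.2⟩) (fun _ _ h _ _ k => te_st h k)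

theorem mul_cls {D E : Tr} (h : TW D) (k : TW E) :
    mul (cls D h) (cls E k) = cls (st D E) (tw_st h k) := rfl

/-- Numbering of a list. -/
def dec {α : Type} (k : ℕ) (l : List α) : List (ℕ × α) := (l.zipIdx k).map Prod.swap

theorem dec_fst {α : Type} (k : ℕ) (l : List α) : (dec k l).map Prod.fst = List.range' k l.length := by
  simp only [dec, List.zipIdx_eq_zip_range', List.map_map]
  have : (Prod.fst ∘ Prod.swap : α × ℕ → ℕ) = Prod.snd := rfl
  rw [this]
  exact List.map_snd_zip (by simp)

theorem dec_snd {α : Type} (k : ℕ) (l : List α) : (dec k l).map Prod.snd = l := by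
  simp [dec, Function.comp_def]

theorem dec_length {α : Type} (k : ℕ) (l : List α) : (dec k l).length = l.length := by
  simp [dec]

theorem valid_dec (B : List Kt) (w : List Lt) : Valid (dec 0 B) (dec B.length w) := by
  unfold Valid
  rw [dec_fst, dec_fst]
  have := List.range'_append (s := 0) (m := B.length) (n := w.length) (step := 1)
  simp only [zero_add, one_mul] at this
  rw [this]
  exact List.nodup_range'

def phi (B : List Kt) (w : List Lt) : Q :=
  cls (real (dec 0 B) (dec B.length w)) (real_tw (valid_dec B w))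

/-- Canonical renaming. -/
def cr (L : List ℕ) (x : ℕ) : ℕ := if x ∈ L then L.idxOf x else x + L.length

theorem cr_inj (L : List ℕ) : Function.Injective (cr L) := by
  intro a b h
  unfold cr at h
  split_ifs at h with h1 h2 h2
  · exact (List.idxOf_inj h1).1 h
  · have := List.idxOf_lt_length_of_mem h1; omega
  · have := List.idxOf_lt_length_of_mem h2; omega
  · omega

theorem cr_get {L : List ℕ} (hL : L.Nodup) (i : ℕ) (h : i < L.length) : cr L L[i] = i := by
  unfold cr
  rw [if_pos (List.getElem_mem h)]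
  exact hL.idxOf_getElem i h

theorem rn_canon {α : Type} {L : List ℕ} (hL : L.Nodup) {k : ℕ} {B : List (ℕ × α)}
    (h : ∀ i (hi : i < B.length), ∃ h' : k + i < L.length, L[k + i] = (B[i]).1) :
    rn (cr L) B = dec k (B.map Prod.snd) := by
  refine List.ext_getElem (by simp [rn, dec]) fun i hi _ => ?_
  have hi' : i < B.length := by simpa [rn] using hi
  obtain ⟨h1, h2⟩ := h i hi'
  simp only [rn, dec, List.getElem_map, List.getElem_zipIdx, Prod.swap_prod_mk]
  rw [← h2, cr_get hL]

theorem phi_eq {B : List (ℕ × Kt)} {w : List (ℕ × Lt)} (h : Valid B w) :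
    cls (real B w) (real_tw h) = phi (B.map Prod.snd) (w.map Prod.snd) := by
  have hL : (B.map Prod.fst ++ w.map Prod.fst).Nodup := h
  set L := B.map Prod.fst ++ w.map Prod.fst with hLdef
  have e1 : rn (cr L) B = dec 0 (B.map Prod.snd) := by
    refine rn_canon hL fun i hi => ?_
    have h1 : 0 + i < L.length := by simp [hLdef]; omega
    refine ⟨h1, ?_⟩
    simp only [hLdef, zero_add]
    rw [List.getElem_append_left (by simpa using hi)]
    simp
  have e2 : rn (cr L) w = dec (B.map Prod.snd).length (w.map Prod.snd) := by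
    refine rn_canon hL fun i hi => ?_
    have h1 : (B.map Prod.snd).length + i < L.length := by simp [hLdef]; omega
    refine ⟨h1, ?_⟩
    simp only [hLdef]
    rw [List.getElem_append_right (by simp)]
    simp
  unfold phi
  rw [cls_eq]
  have h2 := te_ren (cr_inj L) (real_tw h) (by
    rw [← real_rn]; exact real_tw (h.rn (cr_inj L)))
  rw [← real_rn, e1, e2] at h2
  exact h2

theorem phi_eq' {B : List (ℕ × Kt)} {w : List (ℕ × Lt)} {B' : List Kt} {w' : List Lt}
    (h : Valid B w) (hB : B.map Prod.snd = B') (hw : w.map Prod.snd = w') :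
    cls (real B w) (real_tw h) = phi B' w' := by
  subst hB hw; exact phi_eq h

theorem phi_rel {B C : List (ℕ × Kt)} {w x : List (ℕ × Lt)} (h : Valid B w) (h' : Valid C x)
    (k : TE (real B w) (real C x)) :
    phi (B.map Prod.snd) (w.map Prod.snd) = phi (C.map Prod.snd) (x.map Prod.snd) := by
  rw [← phi_eq h, ← phi_eq h', cls_eq]; exact k

theorem Valid.perm {B C : List (ℕ × Kt)} {w x : List (ℕ × Lt)} (h : Valid B w)
    (p : (B.map Prod.fst ++ w.map Prod.fst).Perm (C.map Prod.fst ++ x.map Prod.fst)) :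
    Valid C x := p.nodup_iff.1 h

theorem te_rows {a : List End} {B : List (ℕ × Kt)} {w w' : List (ℕ × Lt)} (h : w.Perm w')
    (hw : TW (a, row true k2 B w, row false k3 B w)) (ha : ∀ p ∈ w, e1 p ∈ a) :
    TE (a, row true k2 B w, row false k3 B w) (a, row true k2 B w', row false k3 B w') := by
  have hP : ∀ e, e ∈ w.map e2 → bar e ∈ a := by
    intro e he
    obtain ⟨p, hp, rfl⟩ := List.mem_map.1 he
    simpa using ha p hp
  have h1 := (row_cp true k2 B h).te21 hw hP
  exact h1.trans ((row_cp false k3 B h).te31 h1.right hP)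

theorem mem_row {s : Bool} {g : ℕ × Kt → End} {B : List (ℕ × Kt)} {w : List (ℕ × Lt)}
    {p : ℕ × Lt} (hp : p ∈ w) (hs : p.2.1.1 = s) : e2 p ∈ row s g B w := by
  rw [(row_perm s g B w).mem_iff, List.mem_append]
  left
  exact List.mem_map_of_mem (List.mem_filter.2 ⟨hp, by simp [hs]⟩)

theorem phi_swap (B : List Kt) (u v : List Lt) (p q : Lt) (h : p.1.1 = q.1.1) :
    phi B (u ++ [p, q] ++ v) = phi B (u ++ [q, p] ++ v) := by
  obtain ⟨w12, v', e1', h3, rfl⟩ := List.map_eq_append_iff.1
    (dec_snd B.length (u ++ [p, q] ++ v))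
  obtain ⟨u', pq', e2', rfl, h5⟩ := List.map_eq_append_iff.1 h3
  obtain ⟨p', q', rfl, rfl, rfl⟩ : ∃ p' q', pq' = [p', q'] ∧ p'.2 = p ∧ q'.2 = q := by
    match pq', h5 with
    | [p', q'], h5 => exact ⟨p', q', rfl, by simpa using h5⟩
  have hv : Valid (dec 0 B) (u' ++ [p', q'] ++ v') := by
    have := valid_dec B (List.map Prod.snd u' ++ [p'.2, q'.2] ++ List.map Prod.snd v')
    rw [e1', e2'] at this
    exact this
  have hp : (u' ++ [p', q'] ++ v').Perm (u' ++ [q', p'] ++ v') :=
    ((List.Perm.swap q' p' []).append_left u').append_right v'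
  have hv' : Valid (dec 0 B) (u' ++ [q', p'] ++ v') :=
    hv.perm ((hp.map Prod.fst).append_left _)
  have h1 : TE (real (dec 0 B) (u' ++ [p', q'] ++ v'))
      ((u' ++ [q', p'] ++ v').map e1, row true k2 (dec 0 B) (u' ++ [p', q'] ++ v'),
        row false k3 (dec 0 B) (u' ++ [p', q'] ++ v')) := by
    have h0 := real_tw hv
    simp only [real, List.map_append, List.map_cons, List.map_nil] at h0 ⊢
    cases hs : p'.2.1.1 with
    | true =>
      refine c12 h0 ?_ ?_
      · rw [bar_e1]; exact mem_row (by simp) hs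
      · rw [bar_e1]; exact mem_row (by simp) (h ▸ hs)
    | false =>
      refine c13 h0 ?_ ?_
      · rw [bar_e1]; exact mem_row (by simp) hs
      · rw [bar_e1]; exact mem_row (by simp) (h ▸ hs)
  have h2 := h1.trans (te_rows hp h1.right (by
    intro x hx
    exact List.mem_map_of_mem (hp.mem_iff.1 hx)))
  have h4 := phi_rel hv hv' h2
  simpa [dec_snd] using h4

theorem exists_dec2 (B : List Kt) (u v : List Lt) (p q : Lt) :
    ∃ (B' : List (ℕ × Kt)) (u' v' : List (ℕ × Lt)) (p' q' : ℕ × Lt),
      Valid B' (u' ++ [p', q'] ++ v') ∧ B'.map Prod.snd = B ∧ u'.map Prod.snd = u ∧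
      v'.map Prod.snd = v ∧ p'.2 = p ∧ q'.2 = q := by
  obtain ⟨w12, v', e1', h3, h4⟩ := List.map_eq_append_iff.1
    (dec_snd B.length (u ++ [p, q] ++ v))
  obtain ⟨u', pq', e2', h6, h5⟩ := List.map_eq_append_iff.1 h3
  obtain ⟨p', q', h7, h8, h9⟩ : ∃ p' q', pq' = [p', q'] ∧ p'.2 = p ∧ q'.2 = q := by
    match pq', h5 with
    | [p', q'], h5 => exact ⟨p', q', rfl, by simpa using h5⟩
  refine ⟨dec 0 B, u', v', p', q', ?_, dec_snd _ _, h6, h4, h8, h9⟩
  have := valid_dec B (u ++ [p, q] ++ v)
  rw [e1', e2', h7] at this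
  exact this

theorem row_other {s : Bool} {g : ℕ × Kt → End} {p : ℕ × Lt} (h : p.2.1.1 ≠ s)
    (B : List (ℕ × Kt)) (u v : List (ℕ × Lt)) :
    row s g B (u ++ [p] ++ v) = row s g B (u ++ v) := by
  induction B generalizing p u v with
  | nil => simp [row, h]
  | cons c B ih =>
    obtain ⟨i, ⟨t, l, m⟩, f⟩ := p
    have h' : t ≠ s := h
    cases m with
    | zero =>
      have e0 : low [(i, (t, l, 0), f)] = [] := rfl
      have e : low (u ++ [(i, (t, l, 0), f)] ++ v) = low (u ++ v) := by
        rw [low_append, low_append, low_append, e0, List.append_nil]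
      simp only [row, e]
      simp [h']
    | succ m =>
      have e : low (u ++ [(i, (t, l, m + 1), f)] ++ v) = low u ++ [(i, (t, l, m), f)] ++ low v := by
        simp only [low_append]; rfl
      simp only [row, e]
      rw [ih h', low_append]
      simp

theorem row_two {s : Bool} {g : ℕ × Kt → End} {p q : ℕ × Lt} (h : p.2.1.1 = s)
    (hpq : p.2.1 = q.2.1) (B : List (ℕ × Kt)) (u v : List (ℕ × Lt)) :
    ∃ X Y, row s g B (u ++ [p, q] ++ v) = X ++ [e2 p, e2 q] ++ Y ∧
      row s g B (u ++ v) = X ++ Y := by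
  induction B generalizing p q u v with
  | nil =>
    have h' : q.2.1.1 = s := by rw [← hpq]; exact h
    refine ⟨(u.filter fun p => p.2.1.1 == s).map e2, (v.filter fun p => p.2.1.1 == s).map e2,
      ?_, ?_⟩
    · simp [row, h, h']
    · simp [row]
  | cons c B ih =>
    obtain ⟨i, ⟨t, l, m⟩, f⟩ := p
    obtain ⟨j, t', f'⟩ := q
    simp only at hpq h
    subst hpq
    subst h
    cases m with
    | zero =>
      have e0 : low [(i, (t, l, 0), f), (j, (t, l, 0), f')] = [] := rfl
      have e : low (u ++ [(i, (t, l, 0), f), (j, (t, l, 0), f')] ++ v) = low (u ++ v) := by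
        rw [low_append, low_append, low_append, e0, List.append_nil]
      refine ⟨(u.filter fun p => p.2.1.1 == t && p.2.1.2.2 == 0).map e2,
        (v.filter fun p => p.2.1.1 == t && p.2.1.2.2 == 0).map e2 ++ g c ::
          row t g B (low (u ++ v)), ?_, ?_⟩
      · simp only [row, e]
        simp
      · simp [row]
    | succ m =>
      have e : low (u ++ [(i, (t, l, m + 1), f), (j, (t, l, m + 1), f')] ++ v) =
          low u ++ [(i, (t, l, m), f), (j, (t, l, m), f')] ++ low v := by
        simp only [low_append]; rfl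
      obtain ⟨X, Y, h1, h2⟩ := ih (p := (i, (t, l, m), f)) (q := (j, (t, l, m), f')) rfl rfl
        (low u) (low v)
      refine ⟨((u ++ v).filter fun p => p.2.1.1 == t && p.2.1.2.2 == 0).map e2 ++ g c :: X, Y,
        ?_, ?_⟩
      · simp only [row, e]
        rw [h1]
        simp [e2]
      · simp only [row, low_append]
        rw [h2]
        simp

theorem phi_cancel (B : List Kt) (u v : List Lt) (g : Gn) (f : Bool) :
    phi B (u ++ [(g, f), (g, !f)] ++ v) = phi B (u ++ v) := by
  obtain ⟨B', u', v', p', q', hv, rfl, rfl, rfl, hp, hq⟩ := exists_dec2 B u v (g, f) (g, !f)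
  obtain ⟨i, p''⟩ := p'
  obtain ⟨j, q''⟩ := q'
  simp only at hp hq
  subst hp hq
  have hs : (u' ++ v').Sublist (u' ++ [(i, (g, f)), (j, (g, !f))] ++ v') := by
    rw [List.append_assoc]
    exact (List.sublist_append_right _ _).append_left u'
  have hv' : Valid B' (u' ++ v') := by
    refine List.Sublist.nodup ?_ hv
    exact (hs.map Prod.fst).append_left _
  have k : TE (real B' (u' ++ [(i, (g, f)), (j, (g, !f))] ++ v')) (real B' (u' ++ v')) := by
    have h0 := real_tw hv
    obtain ⟨s, l, m⟩ := g
    simp only [real, List.map_append, List.map_cons, List.map_nil] at h0 ⊢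
    cases s with
    | true =>
      obtain ⟨X, Y, h1, h2⟩ := row_two (s := true) (g := k2) (p := (i, (true, l, m), f))
        (q := (j, (true, l, m), !f)) rfl rfl B' u' v'
      have h3 : row false k3 B' (u' ++ [(i, (true, l, m), f), (j, (true, l, m), !f)] ++ v') =
          row false k3 B' (u' ++ v') := by
        have a := row_other (s := false) (g := k3) (p := (i, (true, l, m), f)) (by simp) B' u'
          ([(j, (true, l, m), !f)] ++ v')
        have b := row_other (s := false) (g := k3) (p := (j, (true, l, m), !f)) (by simp) B' u' v'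
        simp only [List.append_assoc, List.cons_append, List.nil_append] at a b ⊢
        rw [a, b]
      rw [h1, h3] at h0
      rw [h1, h2, h3]
      exact del12 h0
    | false =>
      obtain ⟨X, Y, h1, h2⟩ := row_two (s := false) (g := k3) (p := (i, (false, l, m), f))
        (q := (j, (false, l, m), !f)) rfl rfl B' u' v'
      have h3 : row true k2 B' (u' ++ [(i, (false, l, m), f), (j, (false, l, m), !f)] ++ v') =
          row true k2 B' (u' ++ v') := by
        have a := row_other (s := true) (g := k2) (p := (i, (false, l, m), f)) (by simp) B' u'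
          ([(j, (false, l, m), !f)] ++ v')
        have b := row_other (s := true) (g := k2) (p := (j, (false, l, m), !f)) (by simp) B' u' v'
        simp only [List.append_assoc, List.cons_append, List.nil_append] at a b ⊢
        rw [a, b]
      rw [h1, h3] at h0
      rw [h1, h2, h3]
      exact del13 h0
  have := phi_rel hv hv' k
  simpa using this

theorem row_nil (s : Bool) (g : ℕ × Kt → End) (B : List (ℕ × Kt)) : row s g B [] = B.map g := by
  induction B with
  | nil => rfl
  | cons c B ih => simp [row, low, ← ih]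

theorem row_head0 {s : Bool} {g : ℕ × Kt → End} {p : ℕ × Lt} (h : p.2.1.1 = s)
    (h0 : p.2.1.2.2 = 0) (B : List (ℕ × Kt)) (w : List (ℕ × Lt)) :
    row s g B (p :: w) = e2 p :: row s g B w := by
  obtain ⟨i, ⟨t, l, m⟩, f⟩ := p
  simp only at h h0
  subst h h0
  cases B with
  | nil => simp [row]
  | cons c B =>
    have e : low ((i, (t, l, 0), f) :: w) = low w := rfl
    simp only [row, e]
    simp

/-- Shift of the levels of letters. -/
def shw (k : ℕ) (w : List Lt) : List Lt := w.map fun p => ((p.1.1, p.1.2.1, p.1.2.2 + k), p.2)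

theorem shd_snd (k : ℕ) (w : List (ℕ × Lt)) :
    (shd k w).map Prod.snd = shw k (w.map Prod.snd) := by
  simp [shd, shw, shp, Function.comp_def]

theorem shd_rn (k : ℕ) (σ : ℕ → ℕ) (w : List (ℕ × Lt)) : shd k (rn σ w) = rn σ (shd k w) := by
  simp [shd, rn, shp]

theorem rn_append {α : Type} (σ : ℕ → ℕ) (u v : List (ℕ × α)) :
    rn σ (u ++ v) = rn σ u ++ rn σ v := by simp [rn]

theorem rn_length {α : Type} (σ : ℕ → ℕ) (u : List (ℕ × α)) : (rn σ u).length = u.length := by
  simp [rn]

theorem rn_snd {α : Type} (σ : ℕ → ℕ) (u : List (ℕ × α)) :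
    (rn σ u).map Prod.snd = u.map Prod.snd := by
  simp [rn, Function.comp_def]

theorem rn_fst {α : Type} (σ : ℕ → ℕ) (u : List (ℕ × α)) :
    (rn σ u).map Prod.fst = (u.map Prod.fst).map σ := by
  simp [rn, Function.comp_def]

theorem phi_stack (B1 B2 : List Kt) (u v : List Lt) (h : ∀ p ∈ u, p.1.2.2 ≤ B1.length) :
    mul (phi B1 u) (phi B2 v) = phi (B1 ++ B2) (u ++ shw B1.length v) := by
  have v1 := valid_dec B1 u
  have v2 := valid_dec B2 v
  set b1 := dec 0 B1
  set b2 := dec 0 B2
  set u' := dec B1.length u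
  set v' := dec B2.length v
  have l1 : b1.length = B1.length := dec_length _ _
  have hu : ∀ p ∈ rn r0 u', p.2.1.2.2 ≤ (rn r0 b1).length := by
    intro p hp
    have : p.2 ∈ (rn r0 u').map Prod.snd := List.mem_map_of_mem hp
    rw [rn_snd, dec_snd] at this
    rw [rn_length, l1]
    exact h _ this
  have e : st (real b1 u') (real b2 v') =
      real (rn r0 b1 ++ rn r1 b2) (rn r0 u' ++ shd (rn r0 b1).length (rn r1 v')) := by
    have a1 := real_rn r0 b1 u'
    have a2 := real_rn r1 b2 v'
    simp only [real, Prod.mk.injEq] at a1 a2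
    obtain ⟨x1, x2, x3⟩ := a1
    obtain ⟨y1, y2, y3⟩ := a2
    simp only [st, real]
    rw [row_append _ _ _ _ _ _ hu, row_append _ _ _ _ _ _ hu, ← x1, ← x2, ← x3, ← y1, ← y2, ← y3,
      List.map_append]
    congr 2
    simp [shd, shp, e1, Function.comp_def]
  have hv : Valid (rn r0 b1 ++ rn r1 b2) (rn r0 u' ++ shd (rn r0 b1).length (rn r1 v')) := by
    have p : ((b1.map Prod.fst ++ u'.map Prod.fst).map r0 ++
        (b2.map Prod.fst ++ v'.map Prod.fst).map r1).Perm
        ((rn r0 b1 ++ rn r1 b2).map Prod.fst ++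
          (rn r0 u' ++ shd (rn r0 b1).length (rn r1 v')).map Prod.fst) := by
      have z : (shd (rn r0 b1).length (rn r1 v')).map Prod.fst = (v'.map Prod.fst).map r1 := by
        rw [← rn_fst]; simp [shd, shp, Function.comp_def]
      rw [List.perm_iff_count]
      intro a
      simp only [List.map_append, z, rn_fst, List.count_append]; ring
    refine p.nodup_iff.1 ?_
    rw [List.nodup_append]
    refine ⟨v1.map r0_inj, v2.map r1_inj, ?_⟩
    intro x hx y hy hxy
    obtain ⟨x', -, rfl⟩ := List.mem_map.1 hx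
    obtain ⟨y', -, rfl⟩ := List.mem_map.1 hy
    simp only [r0, r1] at hxy; omega
  have h3 := cls_congr e (tw_st (real_tw v1) (real_tw v2))
  have h5 : mul (phi B1 u) (phi B2 v) =
      cls (st (real b1 u') (real b2 v')) (tw_st (real_tw v1) (real_tw v2)) := rfl
  rw [h5, h3]
  refine phi_eq' hv ?_ ?_
  · simp only [List.map_append, rn_snd, b1, b2, dec_snd]
  · simp only [List.map_append, rn_snd, shd_snd, rn_length, l1, u', v', dec_snd]

theorem shw_nil (k : ℕ) : shw k [] = [] := rfl

theorem shw_zero (w : List Lt) : shw 0 w = w := by simp [shw]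

theorem shw_append (k : ℕ) (u v : List Lt) : shw k (u ++ v) = shw k u ++ shw k v := by simp [shw]

theorem shw_shw (j k : ℕ) (w : List Lt) : shw j (shw k w) = shw (k + j) w := by
  simp [shw, Function.comp_def, add_assoc]

/-- The order of two letters. -/
def ol (d : Bool) (p q : Lt) : List Lt := if d then [p, q] else [q, p]

/-- R3 across the crossing `c` of the second and the third strand. -/
theorem phi_step (B1 B2 : List Kt) (c : Kt) (u v : List Lt) (lx ly : Bool)
    (hl : lx = ly ∨ c.1 = ly) :
    phi (B1 ++ c :: B2) (u ++ ol c.2 ((true, lx, B1.length), true)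
      ((false, ly, B1.length), true) ++ v) =
    phi (B1 ++ c :: B2) (u ++ ol c.2 ((false, ly, B1.length + 1), true)
      ((true, lx, B1.length + 1), true) ++ v) := by
  obtain ⟨lz, fz⟩ := c
  simp only at hl ⊢
  obtain ⟨B', u', v', p', q', hv, hB, rfl, rfl, hp, hq⟩ := exists_dec2 (B1 ++ (lz, fz) :: B2) u v
    ((true, lx, B1.length), true) ((false, ly, B1.length), true)
  obtain ⟨b1, cb2, rfl, rfl, h2⟩ := List.map_eq_append_iff.1 hB
  obtain ⟨c', b2, rfl, hc, rfl⟩ : ∃ c' b2, cb2 = c' :: b2 ∧ c'.2 = (lz, fz) ∧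
      b2.map Prod.snd = B2 := by
    match cb2, h2 with
    | c' :: b2, h2 => exact ⟨c', b2, rfl, by simpa using h2⟩
  obtain ⟨k, c''⟩ := c'
  obtain ⟨i, p''⟩ := p'
  obtain ⟨j, q''⟩ := q'
  simp only at hp hq hc
  subst hp hq hc
  rw [List.length_map] at *
  set m := b1.length with hm
  -- the letters of low and of high level
  let lw := (u' ++ v').filter fun p => decide (p.2.1.2.2 ≤ m)
  let hg := ((u' ++ v').filter fun p => !decide (p.2.1.2.2 ≤ m)).map
    fun p => ((p.1, (p.2.1.1, p.2.1.2.1, p.2.1.2.2 - (m + 1)), p.2.2) : ℕ × Lt)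
  have hlw : ∀ p ∈ lw, p.2.1.2.2 ≤ m := by
    intro p hp
    simpa using (List.mem_filter.1 hp).2
  have hhg : shd m (shd 1 hg) = (u' ++ v').filter fun p => !decide (p.2.1.2.2 ≤ m) := by
    simp only [shd, hg, List.map_map]
    conv_rhs => rw [← List.map_id ((u' ++ v').filter fun p => !decide (p.2.1.2.2 ≤ m))]
    refine List.map_congr_left fun p hp => ?_
    have : ¬ p.2.1.2.2 ≤ m := by simpa using (List.mem_filter.1 hp).2
    obtain ⟨a, ⟨t, l, n⟩, f⟩ := p
    simp only [Function.comp, shp, id] at this ⊢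
    have e : n - (m + 1) + 1 + m = n := by omega
    rw [e]
  have hsplit : (u' ++ v').Perm (lw ++ shd m (shd 1 hg)) := by
    rw [hhg]
    exact (List.filter_append_perm _ _).symm
  let x0 : ℕ × Lt := (i, (true, lx, 0), true)
  let y0 : ℕ × Lt := (j, (false, ly, 0), true)
  let x1 : ℕ × Lt := (i, (true, lx, m), true)
  let y1 : ℕ × Lt := (j, (false, ly, m), true)
  let x2 : ℕ × Lt := (i, (true, lx, m + 1), true)
  let y2 : ℕ × Lt := (j, (false, ly, m + 1), true)
  let od' : Bool → ℕ × Lt → ℕ × Lt → List (ℕ × Lt) := fun d p q => if d then [p, q] else [q, p]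
  have hodp : ∀ d p q, (od' d p q).Perm [p, q] := by
    intro d p q
    cases d
    · exact List.Perm.swap _ _ _
    · exact List.Perm.refl _
  let w1 := u' ++ od' fz x1 y1 ++ v'
  let w2 := u' ++ od' fz y2 x2 ++ v'
  let C := b1 ++ (k, (lz, fz)) :: b2
  have pw1 : w1.Perm ((lw ++ [x1, y1]) ++ shd m (shd 1 hg)) := by
    have h3 := hodp fz x1 y1
    rw [List.perm_iff_count] at h3 hsplit ⊢
    intro a
    have h4 := h3 a
    have h5 := hsplit a
    simp only [w1, List.count_append] at h5 ⊢
    omega
  have pw2 : w2.Perm (lw ++ shd m (shd 1 ([x0, y0] ++ hg))) := by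
    have e : shd m (shd 1 ([x0, y0] ++ hg)) = [x2, y2] ++ shd m (shd 1 hg) := by
      simp [shd, shp, x0, y0, x2, y2, add_comm]
    rw [e]
    have h3 := hodp fz y2 x2
    have h3' := List.Perm.swap x2 y2 []
    rw [List.perm_iff_count] at h3 h3' hsplit ⊢
    intro a
    have h4 := h3 a
    have h4' := h3' a
    have h5 := hsplit a
    simp only [w2, List.count_append] at h5 ⊢
    omega
  have hv1 : Valid C w1 := by
    refine hv.perm (List.Perm.append_left _ ?_)
    have h3 := ((hodp fz x1 y1).map Prod.fst).symm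
    simp only [w1, List.map_append]
    exact (h3.append_left _).append_right _
  have hv2 : Valid C w2 := by
    refine hv.perm (List.Perm.append_left _ ?_)
    have h3 := ((hodp fz y2 x2).map Prod.fst).symm
    have h4 : [y2, x2].map Prod.fst = [j, i] := rfl
    rw [h4] at h3
    have h5 := (List.Perm.swap j i []).trans h3
    simp only [w2, List.map_append]
    exact (h5.append_left _).append_right _
  have hlen : ∀ p ∈ lw ++ [x1, y1], p.2.1.2.2 ≤ b1.length := by
    intro p hp
    rw [List.mem_append] at hp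
    rcases hp with hp | hp
    · exact hlw p hp
    · simp only [List.mem_cons, List.not_mem_nil, or_false] at hp
      rcases hp with rfl | rfl <;> exact le_refl _
  have rowsplit : ∀ (s : Bool) (g : ℕ × Kt → End),
      row s g C ((lw ++ [x1, y1]) ++ shd m (shd 1 hg)) =
        row s g b1 (lw ++ [x1, y1]) ++ g (k, (lz, fz)) :: row s g b2 hg := by
    intro s g
    simp only [C, hm]
    rw [row_append s g b1 ((k, (lz, fz)) :: b2) (lw ++ [x1, y1]) (shd 1 hg) hlen]
    congr 1
    simp only [row]
    rw [filter_shd s 0 hg, low_shd 0 hg, shd_zero]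
    rfl
  have rowsplit2 : ∀ (s : Bool) (g : ℕ × Kt → End),
      row s g C (lw ++ shd m (shd 1 ([x0, y0] ++ hg))) =
        row s g b1 lw ++ g (k, (lz, fz)) :: row s g b2 ([x0, y0] ++ hg) := by
    intro s g
    simp only [C, hm]
    rw [row_append s g b1 ((k, (lz, fz)) :: b2) lw (shd 1 ([x0, y0] ++ hg)) hlw]
    congr 1
    simp only [row]
    rw [filter_shd s 0 ([x0, y0] ++ hg), low_shd 0 ([x0, y0] ++ hg), shd_zero]
    rfl
  have tail1 : ∀ (s : Bool) (g : ℕ × Kt → End) (z0 : ℕ × Lt), z0.2.1.1 = s → z0.2.1.2.2 = 0 →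
      row s g b1 (lw ++ shd m [z0]) = row s g b1 lw ++ [e2 z0] := by
    intro s g z0 hs h0
    have h3 := row_append s g b1 [] lw [z0] hlw
    rw [List.append_nil] at h3
    rw [hm, h3, row_head0 hs h0]
    rfl
  have ra : row true k2 b1 (lw ++ [x1, y1]) = row true k2 b1 lw ++ [e2 x1] := by
    have h3 := row_other (s := true) (g := k2) (p := y1) (by simp [y1]) b1 (lw ++ [x1]) []
    have h4 := tail1 true k2 x0 rfl rfl
    have h5 : shd m [x0] = [x1] := by simp [shd, shp, x0, x1]
    rw [h5] at h4
    simp only [List.append_nil, List.append_assoc, List.cons_append, List.nil_append] at h3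
    rw [h3, h4]; rfl
  have rb : row false k3 b1 (lw ++ [x1, y1]) = row false k3 b1 lw ++ [e2 y1] := by
    have h3 := row_other (s := false) (g := k3) (p := x1) (by simp [x1]) b1 lw [y1]
    have h4 := tail1 false k3 y0 rfl rfl
    have h5 : shd m [y0] = [y1] := by simp [shd, shp, y0, y1]
    rw [h5] at h4
    simp only [List.append_assoc, List.cons_append, List.nil_append] at h3
    rw [h3, h4]; rfl
  have rc : row true k2 b2 ([x0, y0] ++ hg) = e2 x2 :: row true k2 b2 hg := by
    have h3 := row_other (s := true) (g := k2) (p := y0) (by simp [y0]) b2 [x0] hg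
    have h4 := row_head0 (s := true) (g := k2) (p := x0) rfl rfl b2 hg
    simp only [List.cons_append, List.nil_append] at h3 h4 ⊢
    rw [h3, h4]; rfl
  have rd : row false k3 b2 ([x0, y0] ++ hg) = e2 y2 :: row false k3 b2 hg := by
    have h3 := row_other (s := false) (g := k3) (p := x0) (by simp [x0]) b2 [] (y0 :: hg)
    have h4 := row_head0 (s := false) (g := k3) (p := y0) rfl rfl b2 hg
    simp only [List.cons_append, List.nil_append] at h3 h4 ⊢
    rw [h3, h4]; rfl
  have t1 : TE (real C w1) (w1.map e1, row true k2 C ((lw ++ [x1, y1]) ++ shd m (shd 1 hg)),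
      row false k3 C ((lw ++ [x1, y1]) ++ shd m (shd 1 hg))) :=
    te_rows pw1 (real_tw hv1) (fun p hp => List.mem_map_of_mem hp)
  have t2 : TE (real C w2) (w2.map e1, row true k2 C (lw ++ shd m (shd 1 ([x0, y0] ++ hg))),
      row false k3 C (lw ++ shd m (shd 1 ([x0, y0] ++ hg)))) :=
    te_rows pw2 (real_tw hv2) (fun p hp => List.mem_map_of_mem hp)
  rw [rowsplit, rowsplit, ra, rb] at t1
  rw [rowsplit2, rowsplit2, rc, rd] at t2
  have m1 : w1.map e1 = u'.map e1 ++ od fz (e1 x1) (e1 y1) ++ v'.map e1 := by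
    simp only [w1, od']
    cases fz <;> simp [od]
  have m2 : w2.map e1 = u'.map e1 ++ od fz (e1 y1) (e1 x1) ++ v'.map e1 := by
    simp only [w2, od']
    cases fz <;> simp [od] <;> exact ⟨rfl, rfl⟩
  have t3 := r3 (u := u'.map e1) (u' := v'.map e1) (v := row true k2 b1 lw)
    (v' := row true k2 b2 hg) (w := row false k3 b1 lw) (w' := row false k3 b2 hg)
    (i := i) (j := j) (k := k) (lx := lx) (ly := ly) (lz := lz) (fx := true) (fy := true)
    (fz := fz) (α := fz) (β := true) (γ := true) (by cases fz <;> rfl) rfl hl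
    (by
      have h3 := t1.right
      rw [m1] at h3
      simpa [od, List.append_assoc, e1, e2, k2, k3, x1, y1] using h3)
  have t4 : TE (real C w1) (real C w2) := by
    refine t1.trans (TE.trans ?_ t2.symm)
    rw [m1, m2]
    simpa [od, List.append_assoc, e1, e2, k2, k3, x1, y1, x2, y2] using t3
  have h6 := phi_rel hv1 hv2 t4
  have g1 : w1.map Prod.snd = u'.map Prod.snd ++ ol fz ((true, lx, m), true)
      ((false, ly, m), true) ++ v'.map Prod.snd := by
    simp only [w1, od', ol]
    cases fz <;> simp [x1, y1]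
  have g2 : w2.map Prod.snd = u'.map Prod.snd ++ ol fz ((false, ly, m + 1), true)
      ((true, lx, m + 1), true) ++ v'.map Prod.snd := by
    simp only [w2, od', ol]
    cases fz <;> simp [x2, y2]
  rw [g1, g2] at h6
  simpa [C] using h6

theorem pair_of_map {α : Type} {cc : List (ℕ × α)} {p q : α} (h : cc.map Prod.snd = [p, q]) :
    ∃ i j, cc = [(i, p), (j, q)] := by
  match cc, h with
  | [a, b], h =>
    have h8 : a.2 = p ∧ b.2 = q := by simpa using h
    exact ⟨a.1, b.1, by rw [← h8.1, ← h8.2]⟩

theorem phi_bb (B1 B2 : List Kt) (l f : Bool) :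
    phi (B1 ++ [(l, f), (l, !f)] ++ B2) [] = phi (B1 ++ B2) [] := by
  obtain ⟨w12, b2, e1', h3, h4⟩ := List.map_eq_append_iff.1
    (dec_snd 0 (B1 ++ [(l, f), (l, !f)] ++ B2))
  obtain ⟨b1, cc, e2', h6, h5⟩ := List.map_eq_append_iff.1 h3
  obtain ⟨i, j, h7⟩ := pair_of_map h5
  subst h7 h4 h6
  have hv : Valid (b1 ++ [(i, (l, f)), (j, (l, !f))] ++ b2) [] := by
    have := valid_dec (B := List.map Prod.snd b1 ++ [(l, f), (l, !f)] ++
      List.map Prod.snd b2) []
    rw [e1', e2'] at this
    exact this
  have hv' : Valid (b1 ++ b2) [] := by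
    refine List.Sublist.nodup ?_ hv
    refine List.Sublist.append (List.Sublist.map _ ?_) (List.Sublist.refl _)
    rw [List.append_assoc]
    exact (List.sublist_append_right _ _).append_left b1
  have h0 := real_tw hv
  have k : TE (real (b1 ++ [(i, (l, f)), (j, (l, !f))] ++ b2) []) (real (b1 ++ b2) []) := by
    simp only [real, row_nil, List.map_append, List.map_cons, List.map_nil] at h0 ⊢
    exact del23 h0
  have := phi_rel hv hv' k
  simpa using this

/-- The class has a monotone representative. -/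
def Mon (q : Q) : Prop := ∃ D h, q = cls D h ∧ Mono (toD D)

theorem mon_mul {q r : Q} (hq : Mon q) (hr : Mon r) : Mon (mul q r) := by
  obtain ⟨D, h, rfl, hD⟩ := hq
  obtain ⟨E, k, rfl, hE⟩ := hr
  exact ⟨st D E, tw_st h k, rfl, by rw [toD_st]; exact mono_stack hD hE⟩

theorem dec_pairwise {α : Type} (k : ℕ) (l : List α) :
    (dec k l).Pairwise fun p q => p.1 < q.1 := by
  have h : ((dec k l).map Prod.fst).Pairwise (· < ·) := by
    rw [dec_fst]; exact List.pairwise_lt_range'
  exact List.pairwise_map.1 h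

theorem mon_nil (w : List Lt) : Mon (phi [] w) := by
  refine ⟨_, real_tw (valid_dec [] w), rfl, id, ?_⟩
  have h := dec_pairwise ([] : List Kt).length w
  intro c hc
  simp only [toD, real, row, dec, List.zipIdx_nil, List.map_nil, List.mem_cons, List.not_mem_nil,
    or_false] at hc
  rcases hc with rfl | rfl | rfl
  · exact List.pairwise_map.2 h
  · exact List.pairwise_map.2 (h.sublist List.filter_sublist)
  · exact List.pairwise_map.2 (h.sublist List.filter_sublist)

theorem mon_B (B : List Kt) : Mon (phi B []) := by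
  refine ⟨_, real_tw (valid_dec B []), rfl, id, ?_⟩
  have h := dec_pairwise 0 B
  intro c hc
  simp only [toD, real, List.mem_cons, List.not_mem_nil, or_false] at hc
  have hd : dec B.length ([] : List Lt) = [] := rfl
  rw [hd, row_nil, row_nil] at hc
  rcases hc with rfl | rfl | rfl
  · exact List.Pairwise.nil
  · exact List.pairwise_map.2 h
  · exact List.pairwise_map.2 h

end Pool.Agent.H763.SV3
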