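import Mathlib
import Pool.Agent.H763.Phi

/-! The group of letters acting on the classes `phi B w`, and the proof that all these classes have
monotone representatives. -/

set_option autoImplicit false

namespace Pool.Agent.H763.SV3

open Pool.Agent.H85.Gauss

abbrev F := FreeGroup Gn

def Phi (B : List Kt) : F → Q :=
  Quot.lift (phi B) (by
    rintro _ _ ⟨⟩
    rename_i u v g f
    have := phi_cancel B u v g f
    simpa [List.append_assoc] using this)

theorem Phi_mk (B : List Kt) (w : List Lt) : Phi B (FreeGroup.mk w) = phi B w := rfl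

/-- The syntactic congruence. -/
def con (B : List Kt) : Con F where
  r g h := ∀ a b, Phi B (a * g * b) = Phi B (a * h * b)
  iseqv := ⟨fun _ _ _ => rfl, fun h a b => (h a b).symm, fun h k a b => (h a b).trans (k a b)⟩
  mul' := by
    intro w x y z h k a b
    have h1 := h a (y * b)
    have h2 := k (a * x) b
    have e1 : a * (w * y) * b = a * w * (y * b) := by group
    have e2 : a * (x * z) * b = a * x * z * b := by group
    have e3 : a * x * (y * b) = a * x * y * b := by group
    rw [e1, e2, h1, e3, h2]

abbrev G (B : List Kt) : Type := (con B).Quotient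

def toG (B : List Kt) : F →* G B := (con B).mk'

def PhiG (B : List Kt) : G B → Q := fun x => Con.liftOn x (Phi B) (by
  intro g h k
  have := k 1 1
  simpa using this)

theorem PhiG_toG (B : List Kt) (g : F) : PhiG B (toG B g) = Phi B g := rfl

theorem toG_surj (B : List Kt) : Function.Surjective (toG B) := Con.mk'_surjective

theorem toG_eq {B : List Kt} {w w' : List Lt}
    (h : ∀ u v, phi B (u ++ w ++ v) = phi B (u ++ w' ++ v)) :
    toG B (FreeGroup.mk w) = toG B (FreeGroup.mk w') := by
  refine (Con.eq (con B)).2 fun a b => ?_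
  rw [← FreeGroup.mk_toWord (x := a), ← FreeGroup.mk_toWord (x := b), FreeGroup.mul_mk,
    FreeGroup.mul_mk, FreeGroup.mul_mk, FreeGroup.mul_mk]
  exact h _ _

/-- Generators of the group. -/
def gm (B : List Kt) (g : Gn) : G B := toG B (FreeGroup.of g)

theorem gm_comm (B : List Kt) {g h : Gn} (e : g.1 = h.1) : Commute (gm B g) (gm B h) := by
  have := toG_eq (B := B) (w := [(g, true), (h, true)]) (w' := [(h, true), (g, true)])
    fun u v => phi_swap B u v (g, true) (h, true) e
  have e1 : (FreeGroup.mk [(g, true), (h, true)] : F) = FreeGroup.of g * FreeGroup.of h := rfl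
  have e2 : (FreeGroup.mk [(h, true), (g, true)] : F) = FreeGroup.of h * FreeGroup.of g := rfl
  rw [e1, e2, map_mul, map_mul] at this
  exact this

theorem gcom (B : List Kt) (s l l' : Bool) (i j : ℕ) :
    Commute (gm B (s, l, i)) (gm B (s, l', j)) := gm_comm B rfl

theorem center_of (B : List Kt) {z : G B} (h : ∀ g, Commute z (gm B g)) :
    z ∈ Subgroup.center (G B) := by
  rw [Subgroup.mem_center_iff]
  intro x
  obtain ⟨g, rfl⟩ := toG_surj B x
  have : Commute z (toG B g) := by
    induction g using FreeGroup.induction_on with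
    | C1 => rw [map_one]; exact Commute.one_right z
    | of g => exact h g
    | inv_of g hg => rw [map_inv]; exact hg.inv_right
    | mul a b ha hb => rw [map_mul]; exact ha.mul_right hb
  exact this.eq.symm

/-- The relation across a crossing of the second and the third strand. -/
def Rl (B : List Kt) (i : ℕ) (c : Kt) (i' : ℕ) : Prop :=
  ∀ lx ly : Bool, (lx = ly ∨ c.1 = ly) →
    if c.2 then gm B (true, lx, i) * gm B (false, ly, i) =
      gm B (false, ly, i') * gm B (true, lx, i')
    else gm B (false, ly, i) * gm B (true, lx, i) = gm B (true, lx, i') * gm B (false, ly, i')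

theorem rl_app (B1 B2 : List Kt) (c : Kt) : Rl (B1 ++ c :: B2) B1.length c (B1.length + 1) := by
  intro lx ly hl
  have := toG_eq (B := B1 ++ c :: B2) fun u v => phi_step B1 B2 c u v lx ly hl
  obtain ⟨lz, fz⟩ := c
  cases fz with
  | true =>
    have e1 : (FreeGroup.mk (ol true ((true, lx, B1.length), true)
      ((false, ly, B1.length), true)) : F) = FreeGroup.of (true, lx, B1.length) *
        FreeGroup.of (false, ly, B1.length) := rfl
    have e2 : (FreeGroup.mk (ol true ((false, ly, B1.length + 1), true)
      ((true, lx, B1.length + 1), true)) : F) = FreeGroup.of (false, ly, B1.length + 1) *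
        FreeGroup.of (true, lx, B1.length + 1) := rfl
    simp only at this ⊢
    rw [e1, e2, map_mul, map_mul] at this
    simp only [if_true]
    exact this
  | false =>
    have e1 : (FreeGroup.mk (ol false ((true, lx, B1.length), true)
      ((false, ly, B1.length), true)) : F) = FreeGroup.of (false, ly, B1.length) *
        FreeGroup.of (true, lx, B1.length) := rfl
    have e2 : (FreeGroup.mk (ol false ((false, ly, B1.length + 1), true)
      ((true, lx, B1.length + 1), true)) : F) = FreeGroup.of (true, lx, B1.length + 1) *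
        FreeGroup.of (false, ly, B1.length + 1) := rfl
    simp only at this ⊢
    rw [e1, e2, map_mul, map_mul] at this
    simp only [Bool.false_eq_true, if_false]
    exact this

theorem rl_get (B : List Kt) (i : ℕ) (h : i < B.length) : Rl B i B[i] (i + 1) := by
  have e : B = B.take i ++ B[i] :: B.drop (i + 1) := by
    rw [← List.drop_eq_getElem_cons h, List.take_append_drop]
  have h1 := rl_app (B.take i) (B.drop (i + 1)) B[i]
  have h2 : (B.take i).length = i := by rw [List.length_take]; omega
  rw [h2] at h1
  rw [← e] at h1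
  exact h1

/-- The inverse crossing. -/
def iv (c : Kt) : Kt := (c.1, !c.2)

theorem rl_inv {B : List Kt} {i i' : ℕ} {c : Kt} (h : Rl B i (iv c) i') : Rl B i' c i := by
  intro lx ly hl
  have h1 := h lx ly hl
  obtain ⟨lz, fz⟩ := c
  cases fz with
  | true =>
    have h2 : gm B (false, ly, i) * gm B (true, lx, i) =
        gm B (true, lx, i') * gm B (false, ly, i') := by simpa [iv] using h1
    simpa using h2.symm
  | false =>
    have h2 : gm B (true, lx, i) * gm B (false, ly, i) =
        gm B (false, ly, i') * gm B (true, lx, i') := by simpa [iv] using h1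
    simpa using h2.symm

/-- The letters of the levels `i` and `j` differ by a central element. -/
def Link (B : List Kt) (i j : ℕ) : Prop :=
  ∃ ζ ∈ Subgroup.center (G B), ∀ l : Bool, gm B (true, l, i) = gm B (true, l, j) * ζ ∧
    gm B (false, l, i) = gm B (false, l, j) * ζ⁻¹

theorem Link.refl (B : List Kt) (i : ℕ) : Link B i i :=
  ⟨1, one_mem _, fun l => by simp⟩

theorem Link.trans {B : List Kt} {i j k : ℕ} (h : Link B i j) (h' : Link B j k) : Link B i k := by
  obtain ⟨ζ, h1, h2⟩ := h
  obtain ⟨ξ, k1, k2⟩ := h'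
  refine ⟨ξ * ζ, mul_mem k1 h1, fun l => ⟨?_, ?_⟩⟩
  · rw [(h2 l).1, (k2 l).1, mul_assoc]
  · rw [(h2 l).2, (k2 l).2, mul_inv_rev, mul_assoc]
    congr 1
    exact ((Subgroup.mem_center_iff.1 (inv_mem h1)) ξ⁻¹)

theorem core1 {B : List Kt} {i j : ℕ} (lz : Bool)
    (h : ∀ lx ly : Bool, (lx = ly ∨ lz = ly) → gm B (true, lx, i) * gm B (false, ly, i) =
      gm B (true, lx, j) * gm B (false, ly, j)) : Link B i j := by
  have hab : ∀ lx ly : Bool, (lx = ly ∨ lz = ly) → (gm B (true, lx, j))⁻¹ * gm B (true, lx, i) =
      gm B (false, ly, j) * (gm B (false, ly, i))⁻¹ := by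
    intro lx ly hl
    rw [inv_mul_eq_iff_eq_mul, ← mul_assoc, eq_mul_inv_iff_mul_eq]
    exact h lx ly hl
  have ha : ∀ lx, (gm B (true, lx, j))⁻¹ * gm B (true, lx, i) =
      gm B (false, lz, j) * (gm B (false, lz, i))⁻¹ := fun lx => hab lx lz (Or.inr rfl)
  have hb : ∀ ly, gm B (false, ly, j) * (gm B (false, ly, i))⁻¹ =
      gm B (false, lz, j) * (gm B (false, lz, i))⁻¹ := fun ly => by
    rw [← hab ly ly (Or.inl rfl)]; exact ha ly
  have hc : gm B (false, lz, j) * (gm B (false, lz, i))⁻¹ ∈ Subgroup.center (G B) := by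
    refine center_of B fun g => ?_
    obtain ⟨s, l, k⟩ := g
    cases s with
    | true =>
      rw [← ha true]
      exact (gcom B _ _ _ _ _).inv_left.mul_left (gcom B _ _ _ _ _)
    | false => exact (gcom B _ _ _ _ _).mul_left (gcom B _ _ _ _ _).inv_left
  refine ⟨_, hc, fun l => ⟨?_, ?_⟩⟩
  · rw [← ha l]; group
  · have h1 := (Subgroup.mem_center_iff.1 (inv_mem hc)) (gm B (false, l, j))
    rw [h1, ← hb l]; group

theorem core2 {B : List Kt} {i j : ℕ} (lz : Bool)
    (h : ∀ lx ly : Bool, (lx = ly ∨ lz = ly) → gm B (false, ly, i) * gm B (true, lx, i) =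
      gm B (false, ly, j) * gm B (true, lx, j)) : Link B i j := by
  have hab : ∀ lx ly : Bool, (lx = ly ∨ lz = ly) → gm B (true, lx, j) * (gm B (true, lx, i))⁻¹ =
      (gm B (false, ly, j))⁻¹ * gm B (false, ly, i) := by
    intro lx ly hl
    rw [eq_inv_mul_iff_mul_eq, ← mul_assoc, mul_inv_eq_iff_eq_mul]
    exact (h lx ly hl).symm
  have ha : ∀ lx, gm B (true, lx, j) * (gm B (true, lx, i))⁻¹ =
      (gm B (false, lz, j))⁻¹ * gm B (false, lz, i) := fun lx => hab lx lz (Or.inr rfl)
  have hb : ∀ ly, (gm B (false, ly, j))⁻¹ * gm B (false, ly, i) =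
      (gm B (false, lz, j))⁻¹ * gm B (false, lz, i) := fun ly => by
    rw [← hab ly ly (Or.inl rfl)]; exact ha ly
  have hc : (gm B (false, lz, j))⁻¹ * gm B (false, lz, i) ∈ Subgroup.center (G B) := by
    refine center_of B fun g => ?_
    obtain ⟨s, l, k⟩ := g
    cases s with
    | true =>
      rw [← ha true]
      exact (gcom B _ _ _ _ _).mul_left (gcom B _ _ _ _ _).inv_left
    | false => exact (gcom B _ _ _ _ _).inv_left.mul_left (gcom B _ _ _ _ _)
  refine ⟨((gm B (false, lz, j))⁻¹ * gm B (false, lz, i))⁻¹, inv_mem hc, fun l => ⟨?_, ?_⟩⟩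
  · have h1 := (Subgroup.mem_center_iff.1 (inv_mem hc)) (gm B (true, l, j))
    rw [h1, ← ha l]; group
  · rw [inv_inv, ← hb l]; group

theorem Link.mul1 {B : List Kt} {i j : ℕ} (h : Link B i j) (lx ly : Bool) :
    gm B (true, lx, i) * gm B (false, ly, i) = gm B (true, lx, j) * gm B (false, ly, j) := by
  obtain ⟨ζ, h1, h2⟩ := h
  rw [(h2 lx).1, (h2 ly).2]
  have := (Subgroup.mem_center_iff.1 h1) (gm B (false, ly, j))
  calc gm B (true, lx, j) * ζ * (gm B (false, ly, j) * ζ⁻¹) =
      gm B (true, lx, j) * (ζ * gm B (false, ly, j)) * ζ⁻¹ := by group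
    _ = _ := by rw [← this]; group

theorem Link.mul2 {B : List Kt} {i j : ℕ} (h : Link B i j) (lx ly : Bool) :
    gm B (false, ly, i) * gm B (true, lx, i) = gm B (false, ly, j) * gm B (true, lx, j) := by
  obtain ⟨ζ, h1, h2⟩ := h
  rw [(h2 lx).1, (h2 ly).2]
  have := (Subgroup.mem_center_iff.1 (inv_mem h1)) (gm B (true, lx, j))
  calc gm B (false, ly, j) * ζ⁻¹ * (gm B (true, lx, j) * ζ) =
      gm B (false, ly, j) * (ζ⁻¹ * gm B (true, lx, j)) * ζ := by group
    _ = _ := by rw [← this]; group

theorem Link.up {B : List Kt} {i j i' j' : ℕ} {c : Kt} (h1 : Rl B i c i') (h2 : Rl B j c j')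
    (h : Link B i j) : Link B i' j' := by
  obtain ⟨lz, fz⟩ := c
  cases fz with
  | true =>
    refine core2 lz fun lx ly hl => ?_
    have a1 := h1 lx ly hl
    have a2 := h2 lx ly hl
    simp only [if_true] at a1 a2
    rw [← a1, ← a2]; exact h.mul1 lx ly
  | false =>
    refine core1 lz fun lx ly hl => ?_
    have a1 := h1 lx ly hl
    have a2 := h2 lx ly hl
    simp only [Bool.false_eq_true, if_false] at a1 a2
    rw [← a1, ← a2]; exact h.mul2 lx ly

theorem Link.down {B : List Kt} {i j i' j' : ℕ} {c : Kt} (h1 : Rl B i c i') (h2 : Rl B j c j')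
    (h : Link B i' j') : Link B i j := by
  obtain ⟨lz, fz⟩ := c
  cases fz with
  | true =>
    refine core1 lz fun lx ly hl => ?_
    have a1 := h1 lx ly hl
    have a2 := h2 lx ly hl
    simp only [if_true] at a1 a2
    rw [a1, a2]; exact h.mul2 lx ly
  | false =>
    refine core2 lz fun lx ly hl => ?_
    have a1 := h1 lx ly hl
    have a2 := h2 lx ly hl
    simp only [Bool.false_eq_true, if_false] at a1 a2
    rw [a1, a2]; exact h.mul1 lx ly

/-- The inverse of a word of crossings. -/
def Bi (B : List Kt) : List Kt := (B.map iv).reverse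

/-- Zigzag. -/
def CC (B : List Kt) : List Kt := (B ++ Bi B) ++ B

theorem cc_rl1 (B : List Kt) (i : ℕ) (h : i < B.length) : Rl (CC B) i B[i] (i + 1) := by
  have h1 : i < (CC B).length := by simp [CC, Bi]; omega
  have h2 := rl_get (CC B) i h1
  have h3 : (CC B)[i] = B[i] := by
    simp only [CC]
    rw [List.getElem_append_left (by simp [Bi]; omega), List.getElem_append_left h]
  rw [h3] at h2
  exact h2

theorem cc_rl3 (B : List Kt) (i : ℕ) (h : i < B.length) :
    Rl (CC B) (2 * B.length + i) B[i] (2 * B.length + (i + 1)) := by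
  have h1 : 2 * B.length + i < (CC B).length := by simp [CC, Bi]; omega
  have h2 := rl_get (CC B) _ h1
  have h3 : (CC B)[2 * B.length + i] = B[i] := by
    simp only [CC]
    rw [List.getElem_append_right (by simp [Bi]; omega)]
    congr 1
    simp [Bi]; omega
  rw [h3] at h2
  exact h2

theorem cc_rl2 (B : List Kt) (i : ℕ) (h : i < B.length) :
    Rl (CC B) (2 * B.length - i) B[i] (2 * B.length - (i + 1)) := by
  have h1 : 2 * B.length - (i + 1) < (CC B).length := by simp [CC, Bi]; omega
  have h2 := rl_get (CC B) _ h1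
  have h3 : (CC B)[2 * B.length - (i + 1)] = iv B[i] := by
    simp only [CC]
    rw [List.getElem_append_left (by simp [Bi]; omega),
      List.getElem_append_right (by omega)]
    simp only [Bi, List.getElem_reverse, List.getElem_map]
    congr 1
    have : (List.map iv B).length - 1 - (2 * B.length - (i + 1) - B.length) = i := by
      simp; omega
    simp only [this]
  rw [h3] at h2
  have h4 := rl_inv h2
  have h5 : 2 * B.length - (i + 1) + 1 = 2 * B.length - i := by omega
  rw [h5] at h4
  exact h4

theorem cc_link12 (B : List Kt) (t : ℕ) (h : t ≤ B.length) :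
    Link (CC B) (B.length - t) (2 * B.length - (B.length - t)) := by
  induction t with
  | zero =>
    have : 2 * B.length - (B.length - 0) = B.length - 0 := by omega
    rw [this]; exact Link.refl _ _
  | succ t ih =>
    have h1 := ih (by omega)
    have hi : B.length - (t + 1) < B.length := by omega
    have e : B.length - (t + 1) + 1 = B.length - t := by omega
    have a1 := cc_rl1 B _ hi
    have a2 := cc_rl2 B _ hi
    rw [e] at a1 a2
    exact h1.down a1 a2

theorem cc_link23 (B : List Kt) (i : ℕ) (h : i ≤ B.length) :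
    Link (CC B) (2 * B.length - i) (2 * B.length + i) := by
  induction i with
  | zero => exact Link.refl _ _
  | succ i ih => exact (ih (by omega)).up (cc_rl2 B i (by omega)) (cc_rl3 B i (by omega))

theorem cc_link (B : List Kt) (i : ℕ) (h : i ≤ B.length) :
    Link (CC B) i (2 * B.length + i) := by
  have h1 := cc_link12 B (B.length - i) (by omega)
  have e : B.length - (B.length - i) = i := by omega
  rw [e] at h1
  exact h1.trans (cc_link23 B i h)

end Pool.Agent.H763.SV3
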