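import Pool.Agent.H979.DE.Stm

set_option autoImplicit false

open MeasureTheory Finset Filter Pool.Agent.H41.Derrw Pool.Agent.H979.DE

namespace Pool.Agent.H763

theorem de_rec : S_REC := by
  intro d w h
  rw [not_frequently, eventually_atTop] at h
  obtain ⟨N, hN⟩ := h
  obtain ⟨M, hM⟩ : ∃ M : ℤ, ∀ k ≤ N, ∀ i, |w k i| ≤ M := by
    refine ⟨∑ k ∈ range (N + 1), ∑ i, |w k i|, fun k hk i => ?_⟩
    have h1 : |w k i| ≤ ∑ i, |w k i| :=
      Finset.single_le_sum (f := fun i => |w k i|) (fun j _ => abs_nonneg _) (Finset.mem_univ i)
    have h2 : ∑ i, |w k i| ≤ ∑ k ∈ range (N + 1), ∑ i, |w k i| :=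
      Finset.single_le_sum (f := fun k => ∑ i, |w k i|)
        (fun j _ => Finset.sum_nonneg fun i _ => abs_nonneg _) (Finset.mem_range.2 (by omega))
    exact h1.trans h2
  have key : ∀ n, ∀ i, |w n i| ≤ M := by
    intro n
    induction n using Nat.strong_induction_on with
    | _ n ih =>
      intro i
      rcases le_total n N with h1 | h1
      · exact hM n h1 i
      · have h2 := hN n h1
        unfold Rec at h2
        push Not at h2
        obtain ⟨⟨k, hk, hk1⟩, ⟨l, hl, hl1⟩⟩ := h2 i
        have h3 := abs_le.1 (ih k hk i)
        have h4 := abs_le.1 (ih l hl i)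
        exact abs_le.2 ⟨by omega, by omega⟩
  refine ⟨(Set.finite_Icc (fun _ => -M : Fin d → ℤ) (fun _ => M)).toFinset, fun n => ?_⟩
  rw [Set.Finite.mem_toFinset]
  exact ⟨fun i => (abs_le.1 (key n i)).1, fun i => (abs_le.1 (key n i)).2⟩

theorem de_adj {d : ℕ} (x : Fin d → ℤ) (i : Fin d) (c : ℤ) (hc : |c| = 1) :
    (Zd d).Adj x (Function.update x i (x i + c)) := by
  show ∑ j, |x j - Function.update x i (x i + c) j| = 1
  rw [Finset.sum_eq_single i]
  · rw [Function.update_self, sub_add_cancel_left, abs_neg, hc]
  · intro j _ hj
    rw [Function.update_of_ne hj, sub_self, abs_zero]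
  · intro h
    exact absurd (Finset.mem_univ i) h

theorem de_zdeg : S_ZDEG := by
  intro d hd x
  obtain ⟨i, j, hij⟩ : ∃ i j : Fin d, i ≠ j :=
    ⟨⟨0, by omega⟩, ⟨1, by omega⟩, by simp [Fin.ext_iff]⟩
  constructor
  · have h1 := de_adj x i 1 (by norm_num)
    have h2 := de_adj x i (-1) (by norm_num)
    have h3 := de_adj x j 1 (by norm_num)
    have n1 : Function.update x i (x i + 1) ≠ Function.update x i (x i + -1) := by
      intro h
      have := congrFun h i
      rw [Function.update_self, Function.update_self] at this
      omega
    have n2 : Function.update x i (x i + 1) ≠ Function.update x j (x j + 1) := by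
      intro h
      have := congrFun h i
      rw [Function.update_self, Function.update_of_ne hij] at this
      omega
    have n3 : Function.update x i (x i + -1) ≠ Function.update x j (x j + 1) := by
      intro h
      have := congrFun h i
      rw [Function.update_self, Function.update_of_ne hij] at this
      omega
    have hsub : ({Function.update x i (x i + 1), Function.update x i (x i + -1),
        Function.update x j (x j + 1)} : Finset (Fin d → ℤ)) ⊆ (Zd d).neighborFinset x := by
      intro y hy
      rw [SimpleGraph.mem_neighborFinset]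
      rw [Finset.mem_insert, Finset.mem_insert, Finset.mem_singleton] at hy
      rcases hy with rfl | rfl | rfl
      · exact h1
      · exact h2
      · exact h3
    have hcard := Finset.card_le_card hsub
    rw [Finset.card_insert_of_notMem (by
      rw [Finset.mem_insert, Finset.mem_singleton, not_or]
      exact ⟨n1, n2⟩), Finset.card_insert_of_notMem (by
      rw [Finset.mem_singleton]
      exact n3), Finset.card_singleton, SimpleGraph.card_neighborFinset_eq_degree] at hcard
    exact hcard
  · have hsub : (Zd d).neighborFinset x ⊆
        Fintype.piFinset (fun i => Finset.Icc (x i - 1) (x i + 1)) := by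
      intro y hy
      rw [SimpleGraph.mem_neighborFinset] at hy
      rw [Fintype.mem_piFinset]
      intro i
      have := abs_le.1 (Zd_near hy i)
      rw [Finset.mem_Icc]
      omega
    have hcard := Finset.card_le_card hsub
    rw [SimpleGraph.card_neighborFinset_eq_degree, Fintype.card_piFinset] at hcard
    refine hcard.trans_eq ?_
    have e : ∀ i, (Finset.Icc (x i - 1) (x i + 1)).card = 3 := by
      intro i
      rw [Int.card_Icc]
      omega
    rw [Finset.prod_congr rfl fun i _ => e i, Finset.prod_const, Finset.card_univ, Fintype.card_fin]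

end Pool.Agent.H763
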