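import Mathlib
import Pool.Agent.H763.Alg

/-! All classes `phi B w` have monotone representatives. -/

set_option autoImplicit false

namespace Pool.Agent.H763.SV3

open Pool.Agent.H85.Gauss

/-- Levels are cut at `m`. -/
def cg (m : ℕ) (g : Gn) : Gn := (g.1, g.2.1, min g.2.2 m)
def cap (m : ℕ) : F →* F := FreeGroup.map (cg m)
def cw (m : ℕ) (w : List Lt) : List Lt := w.map fun p => (cg m p.1, p.2)

/-- Levels are raised by `k`. -/
def sg (k : ℕ) (g : Gn) : Gn := (g.1, g.2.1, g.2.2 + k)
def sh (k : ℕ) : F →* F := FreeGroup.map (sg k)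

theorem sh_mk (k : ℕ) (w : List Lt) : sh k (FreeGroup.mk w) = FreeGroup.mk (shw k w) := rfl

theorem cap_mk (m : ℕ) (w : List Lt) : cap m (FreeGroup.mk w) = FreeGroup.mk (cw m w) := rfl

def cd (m : ℕ) (p : ℕ × Lt) : ℕ × Lt := (p.1, cg m p.2.1, p.2.2)

theorem low_cd (m : ℕ) (w : List (ℕ × Lt)) : low (w.map (cd (m + 1))) = (low w).map (cd m) := by
  induction w with
  | nil => rfl
  | cons p w ih =>
    obtain ⟨i, ⟨t, l, n⟩, f⟩ := p
    cases n with
    | zero =>
      have e : low ((i, (t, l, 0), f) :: w) = low w := rfl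
      have e' : low (((i, (t, l, 0), f) :: w).map (cd (m + 1))) = low (w.map (cd (m + 1))) := by
        have : cd (m + 1) (i, (t, l, 0), f) = (i, (t, l, 0), f) := by simp [cd, cg]
        rw [List.map_cons, this]; rfl
      rw [e, e', ih]
    | succ n =>
      have e : low ((i, (t, l, n + 1), f) :: w) = (i, (t, l, n), f) :: low w := rfl
      have e' : low (((i, (t, l, n + 1), f) :: w).map (cd (m + 1))) =
          (i, (t, l, min n m), f) :: low (w.map (cd (m + 1))) := by
        have : cd (m + 1) (i, (t, l, n + 1), f) = (i, (t, l, min n m + 1), f) := by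
          simp [cd, cg]
        rw [List.map_cons, this]; rfl
      rw [e, e', ih]
      rfl

theorem row_cd (s : Bool) (g : ℕ × Kt → End) (B : List (ℕ × Kt)) (w : List (ℕ × Lt)) :
    row s g B (w.map (cd B.length)) = row s g B w := by
  induction B generalizing w with
  | nil =>
    simp only [row, List.filter_map, List.map_map]
    rfl
  | cons c B ih =>
    simp only [row, List.length_cons, low_cd, ih, List.filter_map, List.map_map]
    congr 1
    have : (w.filter ((fun p : ℕ × Lt => p.2.1.1 == s && p.2.1.2.2 == 0) ∘ cd (B.length + 1))) =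
        w.filter fun p => p.2.1.1 == s && p.2.1.2.2 == 0 := by
      refine List.filter_congr fun p _ => ?_
      simp only [Function.comp, cd, cg]
      congr 1
      by_cases h : p.2.1.2.2 = 0
      · simp [h]
      · have h2 : min p.2.1.2.2 (B.length + 1) ≠ 0 := by
          rw [Nat.min_def]; split_ifs <;> omega
        rw [beq_eq_false_iff_ne.2 h, beq_eq_false_iff_ne.2 h2]
    rw [this]
    rfl

theorem phi_cap (B : List Kt) (w : List Lt) : phi B (cw B.length w) = phi B w := by
  have e : dec B.length (cw B.length w) = (dec B.length w).map (cd B.length) := by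
    simp only [dec, cw, List.zipIdx_map, List.map_map]
    rfl
  have h : real (dec 0 B) (dec B.length (cw B.length w)) = real (dec 0 B) (dec B.length w) := by
    simp only [real, e]
    have h1 := row_cd true k2 (dec 0 B) (dec B.length w)
    have h2 := row_cd false k3 (dec 0 B) (dec B.length w)
    rw [dec_length] at h1 h2
    rw [h1, h2]
    simp only [List.map_map]
    rfl
  unfold phi
  exact cls_congr h _

theorem Phi_cap (B : List Kt) (g : F) : Phi B (cap B.length g) = Phi B g := by
  rw [← FreeGroup.mk_toWord (x := g), cap_mk, Phi_mk, Phi_mk, phi_cap]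

theorem cap_cap (m : ℕ) (g : F) : cap m (cap m g) = cap m g := by
  have h : cg m ∘ cg m = cg m := by funext x; simp [cg]
  simp only [cap, FreeGroup.map.comp, h]

theorem cw_le (m : ℕ) (w : List Lt) : ∀ p ∈ cw m w, p.1.2.2 ≤ m := by
  intro p hp
  simp only [cw, List.mem_map] at hp
  obtain ⟨q, -, rfl⟩ := hp
  exact min_le_right _ _

/-- Stacking in terms of elements of the free group. -/
theorem mul_Phi (B1 B2 : List Kt) (m : ℕ) (hm : m ≤ B1.length) (g h : F) :
    mul (Phi B1 (cap m g)) (Phi B2 h) = Phi (B1 ++ B2) (cap m g * sh B1.length h) := by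
  rw [← FreeGroup.mk_toWord (x := g), ← FreeGroup.mk_toWord (x := h), cap_mk, sh_mk,
    FreeGroup.mul_mk, Phi_mk, Phi_mk, Phi_mk]
  exact phi_stack B1 B2 _ _ fun p hp => (cw_le m _ p hp).trans hm

theorem phi_BBi (B : List Kt) (B1 B2 : List Kt) : phi (B1 ++ (B ++ Bi B) ++ B2) [] =
    phi (B1 ++ B2) [] := by
  induction B generalizing B1 B2 with
  | nil => simp [Bi]
  | cons c B ih =>
    have e : B1 ++ ((c :: B) ++ Bi (c :: B)) ++ B2 =
        (B1 ++ [c]) ++ (B ++ Bi B) ++ (iv c :: B2) := by
      simp [Bi]
    rw [e, ih]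
    have := phi_bb B1 B2 c.1 c.2
    simpa [iv] using this

theorem phi_BBi' (B : List Kt) : phi (B ++ Bi B) [] = phi [] [] := by
  have := phi_BBi B [] []
  simpa using this

/-- A zigzag below all letters except letters of level zero can be removed. -/
theorem Phi_CC (B : List Kt) (n : ℤ) (h : F) :
    Phi (CC B) (FreeGroup.of (true, true, 0) ^ n * sh (2 * B.length) h) =
      Phi B (FreeGroup.of (true, true, 0) ^ n * h) := by
  have hc : cap 0 ((FreeGroup.of (true, true, 0) : F) ^ n) = FreeGroup.of (true, true, 0) ^ n := by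
    rw [map_zpow]; rfl
  have h0 : ∀ (C : List Kt) (k : F), mul (Phi [] (FreeGroup.of (true, true, 0) ^ n)) (Phi C k) =
      Phi C (FreeGroup.of (true, true, 0) ^ n * k) := by
    intro C k
    have := mul_Phi [] C 0 (le_refl _) (FreeGroup.of (true, true, 0) ^ n) k
    rw [hc] at this
    rw [this]
    have e : sh ([] : List Kt).length k = k := by
      rw [← FreeGroup.mk_toWord (x := k), sh_mk]
      simp [shw]
    rw [e]; rfl
  have h1 : Phi (CC B) (sh (2 * B.length) h) = Phi B h := by
    have a1 := mul_Phi (B ++ Bi B) B 0 (Nat.zero_le _) 1 h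
    rw [map_one, one_mul] at a1
    have e : (B ++ Bi B).length = 2 * B.length := by simp [Bi]; omega
    rw [e] at a1
    have a2 := mul_Phi [] B 0 (Nat.zero_le _) 1 h
    rw [map_one, one_mul] at a2
    have e2 : sh ([] : List Kt).length h = h := by
      rw [← FreeGroup.mk_toWord (x := h), sh_mk]
      simp [shw]
    rw [e2] at a2
    have a3 : Phi (B ++ Bi B) 1 = Phi [] 1 := phi_BBi' B
    rw [a3] at a1
    have a4 : Phi (CC B) (sh (2 * B.length) h) = mul (Phi [] 1) (Phi B h) := a1.symm
    rw [a4, a2]; rfl
  rw [← h0, ← h0, h1]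

/-- The value of a generator in a commutative group. -/
def ev {A : Type} [CommGroup A] (m : ℕ) (z : ℕ → A) (g : Gn) : A :=
  if g.1 then z (min g.2.2 m) else (z (min g.2.2 m))⁻¹

/-- All letters cancel in commutative groups, up to `n` letters of level zero. -/
def Bal (m : ℕ) (n : ℤ) (g : F) : Prop :=
  ∀ (A : Type) [CommGroup A] (z : ℕ → A), FreeGroup.lift (ev m z) g = z 0 ^ n

theorem Bal.mul {m : ℕ} {n n' : ℤ} {g g' : F} (h : Bal m n g) (h' : Bal m n' g') :
    Bal m (n + n') (g * g') := by
  intro A _ z
  rw [map_mul, h A z, h' A z, zpow_add]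

abbrev Zc (B : List Kt) : Type := Subgroup.center (G B)

instance zcComm (B : List Kt) : CommGroup (Zc B) :=
  { (inferInstance : Group (Subgroup.center (G B))) with
    mul_comm := fun a b => Subtype.ext ((Subgroup.mem_center_iff.1 b.2 a.1)) }

/-- Comparison of the first and the third pass of a zigzag. -/
theorem cc_compare (B : List Kt) : ∃ ζ : ℕ → Zc (CC B),
    (∀ l, gm (CC B) (true, l, 0) = gm (CC B) (true, l, 2 * B.length) * (ζ 0 : G (CC B))) ∧
    ∀ g : F, toG (CC B) (cap B.length g) = toG (CC B) (sh (2 * B.length) (cap B.length g)) *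
      (FreeGroup.lift (ev B.length ζ) g : Zc (CC B)).1 := by
  have h := fun i : ℕ => cc_link B (min i B.length) (min_le_right _ _)
  choose ξ h1 h2 using h
  refine ⟨fun i => ⟨ξ i, h1 i⟩, ?_, ?_⟩
  · intro l
    have := (h2 0 l).1
    simpa using this
  · intro g
    let ζ : ℕ → Zc (CC B) := fun i => ⟨ξ i, h1 i⟩
    let f1 : F →* G (CC B) := (toG (CC B)).comp (cap B.length)
    let f3 : F →* G (CC B) := ((toG (CC B)).comp (sh (2 * B.length))).comp (cap B.length)
    let f2 : F →* Zc (CC B) := FreeGroup.lift (ev B.length ζ)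
    let f : F →* G (CC B) :=
      { toFun := fun g => f3 g * (f2 g).1
        map_one' := by simp
        map_mul' := by
          intro a b
          have hc : f3 b * (f2 a).1 = (f2 a).1 * f3 b :=
            Subgroup.mem_center_iff.1 (f2 a).2 (f3 b)
          have e : (f2 (a * b)).1 = (f2 a).1 * (f2 b).1 := by rw [map_mul]; rfl
          rw [map_mul, e]
          calc f3 a * f3 b * ((f2 a).1 * (f2 b).1) = f3 a * (f3 b * (f2 a).1) * (f2 b).1 := by group
            _ = _ := by rw [hc]; group }
    have : f1 = f := by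
      refine FreeGroup.ext_hom _ _ fun x => ?_
      obtain ⟨s, l, i⟩ := x
      have a1 : f1 (FreeGroup.of (s, l, i)) = gm (CC B) (s, l, min i B.length) := rfl
      have a3 : f3 (FreeGroup.of (s, l, i)) = gm (CC B) (s, l, min i B.length + 2 * B.length) := rfl
      have a2 : f2 (FreeGroup.of (s, l, i)) = ev B.length ζ (s, l, i) := FreeGroup.lift_apply_of
      have a4 : f (FreeGroup.of (s, l, i)) = f3 (FreeGroup.of (s, l, i)) *
        (f2 (FreeGroup.of (s, l, i))).1 := rfl
      rw [a1, a4, a3, a2]
      have h3 := h2 (min i B.length) l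
      have e : min (min i B.length) B.length = min i B.length := by simp
      rw [e, add_comm (2 * B.length)] at h3
      cases s with
      | true => exact h3.1
      | false => exact h3.2
    exact congrFun (congrArg DFunLike.coe this) g

/-- The product rule. -/
theorem prod_rule {B : List Kt} {g h : F} {n : ℤ} (hb : Bal B.length n g) (hg : Mon (Phi B g))
    (hh : Mon (Phi B h)) : Mon (Phi B (g * h)) := by
  obtain ⟨ζ, z1, z2⟩ := cc_compare B
  have m1 : Mon (Phi (CC B) (cap B.length g * sh (2 * B.length) h)) := by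
    have a1 := mul_Phi B (Bi B) B.length (le_refl _) g 1
    rw [map_one, mul_one] at a1
    have a2 := mul_Phi (B ++ Bi B) B B.length (by simp) g h
    rw [← a1] at a2
    have e : (B ++ Bi B).length = 2 * B.length := by simp [Bi]; omega
    rw [e] at a2
    have a3 : Phi (CC B) (cap B.length g * sh (2 * B.length) h) =
      mul (mul (Phi B (cap B.length g)) (Phi (Bi B) 1)) (Phi B h) := a2.symm
    rw [a3, Phi_cap]
    exact mon_mul (mon_mul hg (mon_B (Bi B))) hh
  have m2 : Phi (CC B) (cap B.length g * sh (2 * B.length) h) = Phi B (g * h) := by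
    set x0 : F := FreeGroup.of (true, true, 0) with hx0
    set x2 : F := FreeGroup.of (true, true, 2 * B.length) with hx2
    have e0 : sh (2 * B.length) x0 = x2 := by
      have : sh (2 * B.length) x0 = FreeGroup.of (true, true, 0 + 2 * B.length) := rfl
      rw [this, zero_add]
    have e1 : (FreeGroup.lift (ev B.length ζ) g : Zc (CC B)) = ζ 0 ^ n := hb _ ζ
    have e2 : ((ζ 0 ^ n : Zc (CC B)) : G (CC B)) = toG (CC B) (x0 ^ n * x2 ^ (-n)) := by
      have h1 := z1 true
      have h2 : ((ζ 0 : Zc (CC B)) : G (CC B)) =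
          (gm (CC B) (true, true, 2 * B.length))⁻¹ * gm (CC B) (true, true, 0) := by
        rw [h1]; group
      have h3 : Commute (gm (CC B) (true, true, 2 * B.length))⁻¹ (gm (CC B) (true, true, 0)) :=
        (gcom _ _ _ _ _ _).inv_left
      have h4 : ((ζ 0 ^ n : Zc (CC B)) : G (CC B)) = ((ζ 0 : Zc (CC B)) : G (CC B)) ^ n := by
        simp
      rw [h4, h2, h3.mul_zpow, map_mul, map_zpow, map_zpow]
      have h5 := (h3.zpow_zpow n n).eq
      rw [h5]
      simp [gm, x0, x2]
    have e3 : toG (CC B) (cap B.length g * sh (2 * B.length) h) =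
        toG (CC B) (x0 ^ n * sh (2 * B.length) (x0 ^ (-n) * cap B.length g * h)) := by
      have hc := Subgroup.mem_center_iff.1 (ζ 0 ^ n : Zc (CC B)).2
        (toG (CC B) (sh (2 * B.length) (cap B.length g)))
      rw [map_mul, z2 g, e1, hc, e2]
      simp only [map_mul, map_zpow, e0]
      group
    have e4 : Phi (CC B) (cap B.length g * sh (2 * B.length) h) =
        Phi (CC B) (x0 ^ n * sh (2 * B.length) (x0 ^ (-n) * cap B.length g * h)) := by
      rw [← PhiG_toG, e3, PhiG_toG]
    rw [e4, Phi_CC]
    have e5 : x0 ^ n * (x0 ^ (-n) * cap B.length g * h) = cap B.length g * h := by group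
    rw [e5, ← Phi_cap, ← Phi_cap B (g * h), map_mul, map_mul, cap_cap]
  rw [← m2]; exact m1

/-- Elements which may be split off. -/
def SS (B : List Kt) (g : F) : Prop := (∃ n, Bal B.length n g) ∧ Mon (Phi B g)

theorem SS.mul {B : List Kt} {g h : F} (hg : SS B g) (hh : SS B h) : SS B (g * h) := by
  obtain ⟨⟨n, h1⟩, h2⟩ := hg
  obtain ⟨⟨k, h3⟩, h4⟩ := hh
  exact ⟨⟨n + k, h1.mul h3⟩, prod_rule h1 h2 h4⟩

theorem SS.one (B : List Kt) : SS B 1 := by
  refine ⟨⟨0, fun A _ z => by simp⟩, mon_B B⟩

theorem mon_shift (c : Kt) (B : List Kt) (h : ∀ g, Mon (Phi B g)) (g : F) :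
    Mon (Phi (c :: B) (sh 1 g)) := by
  have := mul_Phi [c] B 0 (Nat.zero_le _) 1 g
  rw [map_one, one_mul] at this
  have e : Phi (c :: B) (sh 1 g) = mul (Phi [c] 1) (Phi B g) := this.symm
  rw [e]
  exact mon_mul (mon_B [c]) (h g)

/-- Letters of level zero. -/
theorem ss_zero (B : List Kt) (l b : Bool) : SS B (FreeGroup.mk [((true, l, 0), b)]) := by
  constructor
  · cases b with
    | true =>
      refine ⟨1, fun A _ z => ?_⟩
      have : (FreeGroup.mk [((true, l, 0), true)] : F) = FreeGroup.of (true, l, 0) := rfl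
      rw [this]
      simp [ev]
    | false =>
      refine ⟨-1, fun A _ z => ?_⟩
      have : (FreeGroup.mk [((true, l, 0), false)] : F) = (FreeGroup.of (true, l, 0))⁻¹ := rfl
      rw [this]
      simp [ev]
  · have h1 := phi_stack [] B [((true, l, 0), b)] [] (by simp)
    have e : Phi B (FreeGroup.mk [((true, l, 0), b)]) =
        mul (phi [] [((true, l, 0), b)]) (phi B []) := by
      rw [h1]; rfl
    rw [e]
    exact mon_mul (mon_nil _) (mon_B B)

/-- Products of letters of one kind and of lift `true`. -/
def AA : Subgroup F := Subgroup.closure (Set.range fun i : ℕ => FreeGroup.of (true, true, i))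

theorem aa_comm (B : List Kt) {x : F} (hx : x ∈ AA) (l : Bool) (i : ℕ) :
    Commute (toG B (sh 1 x)) (gm B (true, l, i)) := by
  induction hx using Subgroup.closure_induction with
  | mem x hx =>
    obtain ⟨j, rfl⟩ := hx
    exact gcom B true true l (j + 1) i
  | one => rw [map_one, map_one]; exact Commute.one_left _
  | mul a b _ _ ha hb => rw [map_mul, map_mul]; exact ha.mul_left hb
  | inv a _ ha => rw [map_inv, map_inv]; exact ha.inv_left

theorem ss_shift {c : Kt} {B : List Kt} (h : ∀ g, Mon (Phi B g)) {g : F}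
    (hb : ∀ (A : Type) [CommGroup A] (z : Gn → A), (∀ l l' i, z (true, l, i) = z (true, l', i)) →
      (∀ l l' i, z (false, l, i) = (z (true, l', i))⁻¹) → FreeGroup.lift z g = 1) :
    SS (c :: B) (sh 1 g) := by
  refine ⟨⟨0, fun A _ z => ?_⟩, mon_shift c B h g⟩
  have e : FreeGroup.lift (ev (c :: B).length z) (sh 1 g) =
      FreeGroup.lift (fun x => ev (c :: B).length z (sg 1 x)) g := by
    have : (FreeGroup.lift (ev (c :: B).length z)).comp (sh 1) =
        FreeGroup.lift (fun x => ev (c :: B).length z (sg 1 x)) := by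
      refine FreeGroup.ext_hom _ _ fun x => ?_
      have : sh 1 (FreeGroup.of x) = FreeGroup.of (sg 1 x) := rfl
      simp [this]
    exact congrFun (congrArg DFunLike.coe this) g
  rw [e, zpow_zero]
  exact hb A _ (fun _ _ _ => rfl) (fun _ _ _ => rfl)

theorem mem_AA (i : ℕ) : (FreeGroup.of (true, true, i) : F) ∈ AA :=
  Subgroup.subset_closure ⟨i, rfl⟩

theorem split_letter {c : Kt} {B : List Kt} (h : ∀ g, Mon (Phi B g)) {x : F} (hx : x ∈ AA)
    (p : Lt) : ∃ s y, SS (c :: B) s ∧ y ∈ AA ∧
      toG (c :: B) (sh 1 x) * toG (c :: B) (FreeGroup.mk [p]) =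
        toG (c :: B) s * toG (c :: B) (sh 1 y) := by
  obtain ⟨⟨s, l, i⟩, b⟩ := p
  have hof : ∀ (s l : Bool) (i : ℕ), sh 1 (FreeGroup.of (s, l, i) : F) =
    FreeGroup.of (s, l, i + 1) := fun _ _ _ => rfl
  have mt : ∀ g : Gn, (FreeGroup.mk [(g, true)] : F) = FreeGroup.of g := fun _ => rfl
  have mf : ∀ g : Gn, (FreeGroup.mk [(g, false)] : F) = (FreeGroup.of g)⁻¹ := fun _ => rfl
  cases s with
  | true =>
    cases i with
    | zero =>
      refine ⟨_, x, ss_zero (c :: B) l b, hx, ?_⟩
      have hc := aa_comm (c :: B) hx l 0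
      cases b with
      | true => rw [mt]; exact hc.eq
      | false => rw [mf, map_inv]; exact hc.inv_right.eq
    | succ i =>
      have hc := aa_comm (c :: B) hx l (i + 1)
      have hc2 := aa_comm (c :: B) hx true (i + 1)
      cases b with
      | true =>
        refine ⟨sh 1 (FreeGroup.of (true, l, i) * (FreeGroup.of (true, true, i))⁻¹),
          x * FreeGroup.of (true, true, i), ss_shift h ?_, mul_mem hx (mem_AA i), ?_⟩
        · intro A _ z h1 h2
          simp [h1 l true i]
        · rw [mt]
          simp only [map_mul, map_inv, hof]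
          change toG (c :: B) (sh 1 x) * gm (c :: B) (true, l, i + 1) =
            gm (c :: B) (true, l, i + 1) * (gm (c :: B) (true, true, i + 1))⁻¹ *
            (toG (c :: B) (sh 1 x) * gm (c :: B) (true, true, i + 1))
          rw [hc.eq]
          have := hc2.inv_right.eq
          calc _ = gm (c :: B) (true, l, i + 1) * (toG (c :: B) (sh 1 x) *
                (gm (c :: B) (true, true, i + 1))⁻¹) * gm (c :: B) (true, true, i + 1) := by group
            _ = _ := by rw [this]; group
      | false =>
        refine ⟨sh 1 ((FreeGroup.of (true, l, i))⁻¹ * FreeGroup.of (true, true, i)),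
          x * (FreeGroup.of (true, true, i))⁻¹, ss_shift h ?_, mul_mem hx (inv_mem (mem_AA i)), ?_⟩
        · intro A _ z h1 h2
          simp [h1 l true i]
        · rw [mf]
          simp only [map_mul, map_inv, hof]
          change toG (c :: B) (sh 1 x) * (gm (c :: B) (true, l, i + 1))⁻¹ =
            (gm (c :: B) (true, l, i + 1))⁻¹ * gm (c :: B) (true, true, i + 1) *
            (toG (c :: B) (sh 1 x) * (gm (c :: B) (true, true, i + 1))⁻¹)
          rw [hc.inv_right.eq]
          have := hc2.eq
          calc _ = (gm (c :: B) (true, l, i + 1))⁻¹ * (toG (c :: B) (sh 1 x) *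
                gm (c :: B) (true, true, i + 1)) * (gm (c :: B) (true, true, i + 1))⁻¹ := by group
            _ = _ := by rw [this]; group
  | false =>
    have hB1 : ∀ j, SS (c :: B) (sh 1 (x * FreeGroup.of (false, l, j) *
        FreeGroup.of (true, true, j) * x⁻¹)) := by
      intro j
      refine ss_shift h ?_
      intro A _ z h1 h2
      simp [h2 l true j]
    cases i with
    | succ i =>
      cases b with
      | true =>
        refine ⟨_, x * (FreeGroup.of (true, true, i))⁻¹, hB1 i, mul_mem hx (inv_mem (mem_AA i)), ?_⟩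
        rw [mt]
        simp only [map_mul, map_inv, hof]
        group
      | false =>
        refine ⟨sh 1 (x * (FreeGroup.of (false, l, i))⁻¹ * (FreeGroup.of (true, true, i))⁻¹ * x⁻¹),
          x * FreeGroup.of (true, true, i), ss_shift h ?_, mul_mem hx (mem_AA i), ?_⟩
        · intro A _ z h1 h2
          simp [h2 l true i]
        · rw [mf]
          simp only [map_mul, map_inv, hof]
          group
    | zero =>
      have hc := aa_comm (c :: B) hx l 0
      have hr := rl_get (c :: B) 0 (by simp) l l (Or.inl rfl)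
      simp only [List.getElem_cons_zero, zero_add] at hr
      have s1 : SS (c :: B) (sh 1 (x * FreeGroup.of (false, l, 0) * FreeGroup.of (true, l, 0) *
          x⁻¹)) := by
        refine ss_shift h ?_
        intro A _ z h1 h2
        simp [h2 l l 0]
      have s2 : SS (c :: B) (sh 1 (x * (FreeGroup.of (true, l, 0))⁻¹ *
          (FreeGroup.of (false, l, 0))⁻¹ * x⁻¹)) := by
        refine ss_shift h ?_
        intro A _ z h1 h2
        simp [h2 l l 0]
      have s3 : SS (c :: B) (sh 1 (x * FreeGroup.of (true, l, 0) * FreeGroup.of (false, l, 0) *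
          x⁻¹)) := by
        refine ss_shift h ?_
        intro A _ z h1 h2
        simp [h2 l l 0]
      have s4 : SS (c :: B) (sh 1 (x * (FreeGroup.of (false, l, 0))⁻¹ *
          (FreeGroup.of (true, l, 0))⁻¹ * x⁻¹)) := by
        refine ss_shift h ?_
        intro A _ z h1 h2
        simp [h2 l l 0]
      have z1 := ss_zero (c :: B) l true
      have z2 := ss_zero (c :: B) l false
      rw [mt] at z1
      rw [mf] at z2
      by_cases hc2 : c.2 = true
      · rw [if_pos hc2] at hr
        -- Y₀ = X₀⁻¹ Y₁ X₁
        have hy : gm (c :: B) (false, l, 0) = (gm (c :: B) (true, l, 0))⁻¹ *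
            (gm (c :: B) (false, l, 1) * gm (c :: B) (true, l, 1)) := by
          rw [← hr]; group
        cases b with
        | true =>
          refine ⟨_, x, z2.mul s1, hx, ?_⟩
          rw [mt]
          change toG (c :: B) (sh 1 x) * gm (c :: B) (false, l, 0) = _
          rw [hy]
          simp only [map_mul, map_inv, hof, zero_add]
          change _ = (gm (c :: B) (true, l, 0))⁻¹ * (toG (c :: B) (sh 1 x) *
            gm (c :: B) (false, l, 1) * gm (c :: B) (true, l, 1) * (toG (c :: B) (sh 1 x))⁻¹) *
            toG (c :: B) (sh 1 x)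
          have := hc.inv_right.eq
          rw [← mul_assoc, this]; group
        | false =>
          refine ⟨_, x, s2.mul z1, hx, ?_⟩
          rw [mf, map_inv]
          change toG (c :: B) (sh 1 x) * (gm (c :: B) (false, l, 0))⁻¹ = _
          rw [hy]
          simp only [map_mul, map_inv, hof, zero_add]
          change _ = (toG (c :: B) (sh 1 x) *
            (gm (c :: B) (true, l, 1))⁻¹ * (gm (c :: B) (false, l, 1))⁻¹ *
            (toG (c :: B) (sh 1 x))⁻¹) * gm (c :: B) (true, l, 0) * toG (c :: B) (sh 1 x)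
          have := hc.eq
          rw [mul_assoc _ (gm (c :: B) (true, l, 0)), ← this]; group
      · rw [if_neg hc2] at hr
        -- Y₀ = X₁ Y₁ X₀⁻¹
        have hy : gm (c :: B) (false, l, 0) = (gm (c :: B) (true, l, 1) *
            gm (c :: B) (false, l, 1)) * (gm (c :: B) (true, l, 0))⁻¹ := by
          rw [← hr]; group
        cases b with
        | true =>
          refine ⟨_, x, s3.mul z2, hx, ?_⟩
          rw [mt]
          change toG (c :: B) (sh 1 x) * gm (c :: B) (false, l, 0) = _
          rw [hy]
          simp only [map_mul, map_inv, hof, zero_add]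
          change _ = (toG (c :: B) (sh 1 x) *
            gm (c :: B) (true, l, 1) * gm (c :: B) (false, l, 1) * (toG (c :: B) (sh 1 x))⁻¹) *
            (gm (c :: B) (true, l, 0))⁻¹ * toG (c :: B) (sh 1 x)
          have := hc.inv_right.eq
          rw [mul_assoc _ (gm (c :: B) (true, l, 0))⁻¹, ← this]; group
        | false =>
          refine ⟨_, x, z1.mul s4, hx, ?_⟩
          rw [mf, map_inv]
          change toG (c :: B) (sh 1 x) * (gm (c :: B) (false, l, 0))⁻¹ = _
          rw [hy]
          simp only [map_mul, map_inv, hof, zero_add]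
          change _ = gm (c :: B) (true, l, 0) * (toG (c :: B) (sh 1 x) *
            (gm (c :: B) (false, l, 1))⁻¹ * (gm (c :: B) (true, l, 1))⁻¹ *
            (toG (c :: B) (sh 1 x))⁻¹) * toG (c :: B) (sh 1 x)
          have := hc.eq
          calc toG (c :: B) (sh 1 x) * (gm (c :: B) (true, l, 1) * gm (c :: B) (false, l, 1) *
                (gm (c :: B) (true, l, 0))⁻¹)⁻¹ =
              (toG (c :: B) (sh 1 x) * gm (c :: B) (true, l, 0)) *
                (gm (c :: B) (false, l, 1))⁻¹ * (gm (c :: B) (true, l, 1))⁻¹ := by group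
            _ = _ := by rw [this]; group

theorem split_word {c : Kt} {B : List Kt} (h : ∀ g, Mon (Phi B g)) (w : List Lt) :
    ∃ s y, SS (c :: B) s ∧ y ∈ AA ∧
      toG (c :: B) (FreeGroup.mk w) = toG (c :: B) s * toG (c :: B) (sh 1 y) := by
  induction w using List.reverseRecOn with
  | nil =>
    refine ⟨1, 1, SS.one _, one_mem _, ?_⟩
    have : (FreeGroup.mk [] : F) = 1 := rfl
    rw [this]; simp
  | append_singleton w p ih =>
    obtain ⟨s, y, h1, h2, h3⟩ := ih
    obtain ⟨s', y', h4, h5, h6⟩ := split_letter h h2 p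
    refine ⟨s * s', y', h1.mul h4, h5, ?_⟩
    rw [← FreeGroup.mul_mk, map_mul, h3, mul_assoc, h6, map_mul, mul_assoc]

theorem mon_all (B : List Kt) : ∀ g : F, Mon (Phi B g) := by
  induction B with
  | nil =>
    intro g
    rw [← FreeGroup.mk_toWord (x := g)]
    exact mon_nil _
  | cons c B ih =>
    intro g
    obtain ⟨s, y, h1, h2, h3⟩ := split_word (c := c) ih g.toWord
    rw [FreeGroup.mk_toWord, ← map_mul] at h3
    obtain ⟨⟨n, h4⟩, h5⟩ := h1
    rw [← PhiG_toG, h3, PhiG_toG]
    exact prod_rule h4 h5 (mon_shift c B ih y)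

end Pool.Agent.H763.SV3
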