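import Mathlib
import Pool.Agent.H763.Mainn

/-! Every diagram on three strands is equivalent to some `real B w`. -/

set_option autoImplicit false

namespace Pool.Agent.H763.SV3

open Pool.Agent.H85.Gauss

/-- Every passage has its partner on another strand. -/
def PS (D : Tr) : Prop :=
  (∀ e ∈ D.1, bar e ∈ D.2.1 ∨ bar e ∈ D.2.2) ∧ (∀ e ∈ D.2.1, bar e ∈ D.1 ∨ bar e ∈ D.2.2) ∧
    ∀ e ∈ D.2.2, bar e ∈ D.1 ∨ bar e ∈ D.2.1

/-- Insertion of two crossings of the first two strands. -/
theorem ins12 {u1 v1 u2 v2 c : List End} (h : TW (u1 ++ v1, u2 ++ v2, c)) (l f : Bool) :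
    ∃ i i' : ℕ, ∀ d e : Bool, TE (u1 ++ v1, u2 ++ v2, c)
      (u1 ++ od d (i, l, f == l) (i', l, (!f) == l) ++ v1,
        u2 ++ od e (i, !l, f == l) (i', !l, (!f) == l) ++ v2, c) := by
  obtain ⟨i, hi⟩ := exists_fresh (T (u1 ++ v1, u2 ++ v2, c))
  have g1 := GW.add h hi l (f == l)
  obtain ⟨i', hi'⟩ := exists_fresh (T (u1 ++ v1, u2 ++ v2, c) ++
    [some (i, l, f == l), some (i, !l, f == l)])
  have g2 := g1.add hi' l ((!f) == l)
  refine ⟨i, i', fun d e => ?_⟩
  have g3 : TW (u1 ++ od d (i, l, f == l) (i', l, (!f) == l) ++ v1,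
        u2 ++ od e (i, !l, f == l) (i', !l, (!f) == l) ++ v2, c) := by
    refine GW.perm g2 ?_
    rw [List.perm_iff_count]; intro x
    simp only [T, List.map_append, List.count_append, List.count_cons, List.count_nil, od_map,
      ord_count]
    ring
  refine GE.of_move h g3 ?_
  have := GR2 (u1.map some) (v1.map some ++ [none] ++ u2.map some)
    (v2.map some ++ [none] ++ c.map some ++ [none]) i i' l f d e
  simpa [T, List.append_assoc, E1_eq, E2_eq, od_map] using this

theorem exch_core {a1 a2 b1 b2 u v : List End} {j k : ℕ} {ly lz fy fz γ : Bool}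
    (h : TW (a1 ++ [(j, ly, fy == ly)] ++ a2, b1 ++ [(k, lz, fz == lz)] ++ b2,
      u ++ od γ (j, !ly, fy == ly) (k, !lz, fz == lz) ++ v)) :
    ∃ p p' q q' : End, (bar p = q ∨ bar p = q') ∧ (bar p' = q ∨ bar p' = q') ∧
      (bar q = p ∨ bar q = p') ∧ (bar q' = p ∨ bar q' = p') ∧
      TE (a1 ++ [(j, ly, fy == ly)] ++ a2, b1 ++ [(k, lz, fz == lz)] ++ b2,
        u ++ od γ (j, !ly, fy == ly) (k, !lz, fz == lz) ++ v)
      (a1 ++ [p, (j, ly, fy == ly), p'] ++ a2, b1 ++ [q, (k, lz, fz == lz), q'] ++ b2,
        u ++ od γ (k, !lz, fz == lz) (j, !ly, fy == ly) ++ v) := by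
  have hbar : ∀ (i : ℕ) (l s : Bool), bar (i, l, s) = (i, !l, s) := fun _ _ _ => rfl
  have hbar' : ∀ (i : ℕ) (l s : Bool), bar (i, !l, s) = (i, l, s) := fun _ _ _ => by simp [bar]
  have hc : ly = ly ∨ lz = ly := Or.inl rfl
  cases hα : (γ != (fy != fz)) with
  | true =>
    cases γ with
    | true =>
      have h' : TW (a1 ++ ([(j, ly, fy == ly)] ++ a2), b1 ++ ([(k, lz, fz == lz)] ++ b2),
          u ++ od true (j, !ly, fy == ly) (k, !lz, fz == lz) ++ v) := by
        simpa [List.append_assoc] using h
      obtain ⟨i, i', hi⟩ := ins12 h' ly fy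
      have t1 := hi false false
      have t2 := r3 (u := a1 ++ [(i', ly, (!fy) == ly)]) (u' := a2)
        (v := b1 ++ [(i', !ly, (!fy) == ly)]) (v' := b2) (w := u) (w' := v)
        (i := i) (j := j) (k := k) (lx := ly) (ly := ly) (lz := lz) (fx := fy) (fy := fy)
        (fz := fz) (α := true) (β := true) (γ := true)
        (by revert hα; cases fy <;> cases fz <;> simp) (by simp) hc
        (by have := t1.right; simpa [od, List.append_assoc] using this)
      refine ⟨(i', ly, (!fy) == ly), (i, ly, fy == ly), (i', !ly, (!fy) == ly),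
        (i, !ly, fy == ly), Or.inl rfl, Or.inr rfl, Or.inl (hbar' _ _ _), Or.inr (hbar' _ _ _), ?_⟩
      have t3 := TE.trans (by simpa [od, List.append_assoc] using t1)
        (by simpa [od, List.append_assoc] using t2)
      simpa [od, List.append_assoc] using t3
    | false =>
      have h' : TW (a1 ++ ([(j, ly, fy == ly)] ++ a2), (b1 ++ [(k, lz, fz == lz)]) ++ b2,
          u ++ od false (j, !ly, fy == ly) (k, !lz, fz == lz) ++ v) := by
        simpa [List.append_assoc] using h
      obtain ⟨i, i', hi⟩ := ins12 h' ly fy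
      have t1 := hi false true
      have t2 := r3 (u := a1 ++ [(i', ly, (!fy) == ly)]) (u' := a2)
        (v := b1) (v' := [(i', !ly, (!fy) == ly)] ++ b2) (w := u) (w' := v)
        (i := i) (j := j) (k := k) (lx := ly) (ly := ly) (lz := lz) (fx := fy) (fy := fy)
        (fz := fz) (α := true) (β := false) (γ := false)
        (by revert hα; cases fy <;> cases fz <;> simp) (by simp) hc
        (by have := t1.right; simpa [od, List.append_assoc] using this)
      refine ⟨(i', ly, (!fy) == ly), (i, ly, fy == ly), (i, !ly, fy == ly),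
        (i', !ly, (!fy) == ly), Or.inr rfl, Or.inl rfl, Or.inr (hbar' _ _ _), Or.inl (hbar' _ _ _),
        ?_⟩
      have t3 := TE.trans (by simpa [od, List.append_assoc] using t1)
        (by simpa [od, List.append_assoc] using t2)
      simpa [od, List.append_assoc] using t3
  | false =>
    cases γ with
    | true =>
      have h' : TW ((a1 ++ [(j, ly, fy == ly)]) ++ a2, b1 ++ ([(k, lz, fz == lz)] ++ b2),
          u ++ od true (j, !ly, fy == ly) (k, !lz, fz == lz) ++ v) := by
        simpa [List.append_assoc] using h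
      obtain ⟨i, i', hi⟩ := ins12 h' ly fy
      have t1 := hi true false
      have t2 := r3 (u := a1) (u' := [(i', ly, (!fy) == ly)] ++ a2)
        (v := b1 ++ [(i', !ly, (!fy) == ly)]) (v' := b2) (w := u) (w' := v)
        (i := i) (j := j) (k := k) (lx := ly) (ly := ly) (lz := lz) (fx := fy) (fy := fy)
        (fz := fz) (α := false) (β := true) (γ := true)
        (by revert hα; cases fy <;> cases fz <;> simp) (by simp) hc
        (by have := t1.right; simpa [od, List.append_assoc] using this)
      refine ⟨(i, ly, fy == ly), (i', ly, (!fy) == ly), (i', !ly, (!fy) == ly),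
        (i, !ly, fy == ly), Or.inr rfl, Or.inl rfl, Or.inr (hbar' _ _ _), Or.inl (hbar' _ _ _), ?_⟩
      have t3 := TE.trans (by simpa [od, List.append_assoc] using t1)
        (by simpa [od, List.append_assoc] using t2)
      simpa [od, List.append_assoc] using t3
    | false =>
      have h' : TW ((a1 ++ [(j, ly, fy == ly)]) ++ a2, (b1 ++ [(k, lz, fz == lz)]) ++ b2,
          u ++ od false (j, !ly, fy == ly) (k, !lz, fz == lz) ++ v) := by
        simpa [List.append_assoc] using h
      obtain ⟨i, i', hi⟩ := ins12 h' ly fy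
      have t1 := hi true true
      have t2 := r3 (u := a1) (u' := [(i', ly, (!fy) == ly)] ++ a2)
        (v := b1) (v' := [(i', !ly, (!fy) == ly)] ++ b2) (w := u) (w' := v)
        (i := i) (j := j) (k := k) (lx := ly) (ly := ly) (lz := lz) (fx := fy) (fy := fy)
        (fz := fz) (α := false) (β := false) (γ := false)
        (by revert hα; cases fy <;> cases fz <;> simp) (by simp) hc
        (by have := t1.right; simpa [od, List.append_assoc] using this)
      refine ⟨(i, ly, fy == ly), (i', ly, (!fy) == ly), (i, !ly, fy == ly),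
        (i', !ly, (!fy) == ly), Or.inl rfl, Or.inr rfl, Or.inl (hbar' _ _ _), Or.inr (hbar' _ _ _),
        ?_⟩
      have t3 := TE.trans (by simpa [od, List.append_assoc] using t1)
        (by simpa [od, List.append_assoc] using t2)
      simpa [od, List.append_assoc] using t3

theorem end_eq (e : End) : e = (e.1, e.2.1, (e.2.2 == e.2.1) == e.2.1) := by
  obtain ⟨a, b, c⟩ := e
  cases b <;> cases c <;> rfl

theorem bar_eq (e : End) : bar e = (e.1, !e.2.1, (e.2.2 == e.2.1) == e.2.1) := by
  obtain ⟨a, b, c⟩ := e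
  cases b <;> cases c <;> rfl

theorem TW.nodup {a b c : List End} (h : TW (a, b, c)) : (a ++ b ++ c).Nodup :=
  List.Nodup.of_map key (TW_iff.1 h).1

theorem mem_ins (a1 a2 : List End) (r r' Y e : End) :
    e ∈ a1 ++ [r, Y, r'] ++ a2 ↔ e ∈ a1 ++ [Y] ++ a2 ∨ e = r ∨ e = r' := by
  simp only [List.mem_append, List.mem_cons, List.not_mem_nil]
  constructor
  · rintro ((h | h | h | h | h) | h)
    · exact Or.inl (Or.inl (Or.inl h))
    · exact Or.inr (Or.inl h)
    · exact Or.inl (Or.inl (Or.inr (Or.inl h)))
    · exact Or.inr (Or.inr h)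
    · exact absurd h id
    · exact Or.inl (Or.inr h)
  · rintro (((h | h | h) | h) | h | h)
    · exact Or.inl (Or.inl h)
    · exact Or.inl (Or.inr (Or.inr (Or.inl h)))
    · exact absurd h id
    · exact Or.inr h
    · exact Or.inl (Or.inr (Or.inl h))
    · exact Or.inl (Or.inr (Or.inr (Or.inr (Or.inl h))))

theorem mem_swap2 (u v : List End) (p q e : End) :
    e ∈ u ++ [p, q] ++ v ↔ e ∈ u ++ [q, p] ++ v :=
  (((List.Perm.swap q p []).append_left u).append_right v).mem_iff

/-- Two adjacent passages of the third strand are exchanged. -/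
theorem exch {a b u v : List End} {p q : End} (h : TW (a, b, u ++ [p, q] ++ v))
    (hP : PS (a, b, u ++ [p, q] ++ v)) (S : List End) (hS : ∀ e ∈ S, e ∈ u ++ [p, q] ++ v) :
    ∃ a' b', TE (a, b, u ++ [p, q] ++ v) (a', b', u ++ [q, p] ++ v) ∧
      PS (a', b', u ++ [q, p] ++ v) ∧
      b'.filter (fun e => decide (bar e ∈ S)) = b.filter (fun e => decide (bar e ∈ S)) := by
  have hmem : ∀ e, e ∈ u ++ [p, q] ++ v ↔ e ∈ u ++ [q, p] ++ v := mem_swap2 u v p q
  have hkeep : PS (a, b, u ++ [q, p] ++ v) := by
    obtain ⟨h1, h2, h3⟩ := hP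
    refine ⟨fun e he => ?_, fun e he => ?_, fun e he => h3 e ((hmem e).2 he)⟩
    · rcases h1 e he with h | h
      · exact Or.inl h
      · exact Or.inr ((hmem _).1 h)
    · rcases h2 e he with h | h
      · exact Or.inl h
      · exact Or.inr ((hmem _).1 h)
  -- the general step
  have step : ∀ (Y Z : End) (γ : Bool), bar Y ∈ a → bar Z ∈ b →
      od γ Y Z = [p, q] → ∃ a' b', TE (a, b, u ++ [p, q] ++ v) (a', b', u ++ [q, p] ++ v) ∧
      PS (a', b', u ++ [q, p] ++ v) ∧
      b'.filter (fun e => decide (bar e ∈ S)) = b.filter (fun e => decide (bar e ∈ S)) := by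
    intro Y Z γ hY hZ ho
    obtain ⟨a1, a2, ha⟩ := List.append_of_mem hY
    obtain ⟨b1, b2, hb⟩ := List.append_of_mem hZ
    set Y1 := bar Y with hY1
    set Z2 := bar Z with hZ2
    have eY : Y = (Y1.1, !Y1.2.1, (Y1.2.2 == Y1.2.1) == Y1.2.1) := by
      rw [← bar_eq, hY1, bar_bar]
    have eZ : Z = (Z2.1, !Z2.2.1, (Z2.2.2 == Z2.2.1) == Z2.2.1) := by
      rw [← bar_eq, hZ2, bar_bar]
    have ho' : od γ Z Y = [q, p] := by
      cases γ
      · simp only [od, Bool.false_eq_true, if_false, List.cons.injEq, and_true] at ho ⊢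
        exact ⟨ho.2, ho.1⟩
      · simp only [od, if_true, List.cons.injEq, and_true] at ho ⊢
        exact ⟨ho.2, ho.1⟩
    have h1 : TW (a1 ++ [(Y1.1, Y1.2.1, (Y1.2.2 == Y1.2.1) == Y1.2.1)] ++ a2,
        b1 ++ [(Z2.1, Z2.2.1, (Z2.2.2 == Z2.2.1) == Z2.2.1)] ++ b2,
        u ++ od γ (Y1.1, !Y1.2.1, (Y1.2.2 == Y1.2.1) == Y1.2.1)
          (Z2.1, !Z2.2.1, (Z2.2.2 == Z2.2.1) == Z2.2.1) ++ v) := by
      rw [← end_eq, ← end_eq, ← eY, ← eZ, ho]
      simpa [ha, hb] using h
    obtain ⟨r, r', t, t', x1, x2, x3, x4, x5⟩ := exch_core h1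
    rw [← end_eq, ← end_eq, ← eY, ← eZ, ho, ho'] at x5
    have ea : a = a1 ++ [Y1] ++ a2 := by rw [ha]; simp
    have eb : b = b1 ++ [Z2] ++ b2 := by rw [hb]; simp
    rw [← ea, ← eb] at x5
    have hw := x5.right
    have hnd := hw.nodup
    have hma : ∀ e, e ∈ a1 ++ [r, Y1, r'] ++ a2 ↔ e ∈ a ∨ e = r ∨ e = r' := by
      intro e; rw [ea]; exact mem_ins a1 a2 r r' Y1 e
    have hmb : ∀ e, e ∈ b1 ++ [t, Z2, t'] ++ b2 ↔ e ∈ b ∨ e = t ∨ e = t' := by
      intro e; rw [eb]; exact mem_ins b1 b2 t t' Z2 e
    refine ⟨_, _, x5, ⟨?_, ?_, ?_⟩, ?_⟩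
    · intro e he
      change e ∈ a1 ++ [r, Y1, r'] ++ a2 at he
      change bar e ∈ b1 ++ [t, Z2, t'] ++ b2 ∨ bar e ∈ u ++ [q, p] ++ v
      rw [hmb]
      rcases (hma e).1 he with he | he | he
      · rcases hkeep.1 e he with h | h
        · exact Or.inl (Or.inl h)
        · exact Or.inr h
      · left; right; rw [he]; exact x1
      · left; right; rw [he]; exact x2
    · intro e he
      change e ∈ b1 ++ [t, Z2, t'] ++ b2 at he
      change bar e ∈ a1 ++ [r, Y1, r'] ++ a2 ∨ bar e ∈ u ++ [q, p] ++ v
      rw [hma]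
      rcases (hmb e).1 he with he | he | he
      · rcases hkeep.2.1 e he with h | h
        · exact Or.inl (Or.inl h)
        · exact Or.inr h
      · left; right; rw [he]; exact x3
      · left; right; rw [he]; exact x4
    · intro e he
      change e ∈ u ++ [q, p] ++ v at he
      change bar e ∈ a1 ++ [r, Y1, r'] ++ a2 ∨ bar e ∈ b1 ++ [t, Z2, t'] ++ b2
      rw [hma, hmb]
      rcases hkeep.2.2 e he with h | h
      · exact Or.inl (Or.inl h)
      · exact Or.inr (Or.inl h)
    · have hdis : ∀ e ∈ a1 ++ [r, Y1, r'] ++ a2, e ∉ S := by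
        intro e he hs
        have h2 : e ∈ u ++ [q, p] ++ v := (hmem e).1 (hS e hs)
        rw [List.append_assoc, List.nodup_append] at hnd
        exact hnd.2.2 e he e (List.mem_append_right _ h2) rfl
      have n1 : bar t ∉ S := hdis _ ((hma _).2 (Or.inr x3))
      have n2 : bar t' ∉ S := hdis _ ((hma _).2 (Or.inr x4))
      rw [eb]
      simp [List.filter_append, List.filter_cons, n1, n2]
  have hp := hP.2.2 p (by simp)
  have hq := hP.2.2 q (by simp)
  rcases hp with hp | hp <;> rcases hq with hq | hq
  · exact ⟨a, b, c31 h hp hq, hkeep, rfl⟩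
  · exact step p q true hp hq rfl
  · exact step q p false hq hp rfl
  · exact ⟨a, b, c32 h hp hq, hkeep, rfl⟩

/-- The third strand can be permuted. -/
theorem perm3 {c c' : List End} (hc : c.Perm c') : ∀ (u a b S : List End), TW (a, b, u ++ c) →
    PS (a, b, u ++ c) → (∀ e ∈ S, e ∈ u ++ c) →
    ∃ a' b', TE (a, b, u ++ c) (a', b', u ++ c') ∧ PS (a', b', u ++ c') ∧
      b'.filter (fun e => decide (bar e ∈ S)) = b.filter (fun e => decide (bar e ∈ S)) := by
  induction hc with
  | nil => exact fun u a b S h hP _ => ⟨a, b, TE.refl h, hP, rfl⟩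
  | cons x _ ih =>
    intro u a b S h hP hS
    have := ih (u ++ [x]) a b S (by simpa using h) (by simpa using hP) (by simpa using hS)
    simpa using this
  | swap x y l =>
    intro u a b S h hP hS
    have := exch (a := a) (b := b) (u := u) (v := l) (p := y) (q := x) (by simpa using h)
      (by simpa using hP) S (by simpa using hS)
    simpa using this
  | trans h1 _ ih1 ih2 =>
    intro u a b S h hP hS
    obtain ⟨a', b', t1, p1, f1⟩ := ih1 u a b S h hP hS
    have hS' : ∀ e ∈ S, e ∈ u ++ _ := fun e he =>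
      ((h1.append_left u).mem_iff).1 (hS e he)
    obtain ⟨a'', b'', t2, p2, f2⟩ := ih2 u a' b' S t1.right p1 hS'
    exact ⟨a'', b'', t1.trans t2, p2, f2.trans f1⟩

theorem lift_perm {α β : Type} {f : α → β} {l' : List β} {m : List β} (h : m.Perm l') :
    ∀ l : List α, l.map f = m → ∃ w, l.Perm w ∧ w.map f = l' := by
  induction h with
  | nil => intro l hl; exact ⟨l, List.Perm.refl _, hl⟩
  | cons x _ ih =>
    intro l hl
    cases l with
    | nil => simp at hl
    | cons a l =>
      simp only [List.map_cons, List.cons.injEq] at hl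
      obtain ⟨w, h1, h2⟩ := ih l hl.2
      exact ⟨a :: w, h1.cons a, by simp [hl.1, h2]⟩
  | swap x y l =>
    intro m hm
    match m, hm with
    | a :: b :: m, hm =>
      simp only [List.map_cons, List.cons.injEq] at hm
      exact ⟨b :: a :: m, List.Perm.swap _ _ _, by simp [hm.1, hm.2.1, hm.2.2]⟩
  | trans _ _ ih1 ih2 =>
    intro l hl
    obtain ⟨w, h1, h2⟩ := ih1 l hl
    obtain ⟨w', h3, h4⟩ := ih2 w h2
    exact ⟨w', h1.trans h3, h4⟩

def kit (e : End) : ℕ × Kt := (e.1, (e.2.1, e.2.2 == e.2.1))
def lit (s : Bool) (e : End) : ℕ × Lt := (e.1, ((s, !e.2.1, 0), e.2.2 == !e.2.1))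

theorem k2_kit (e : End) : k2 (kit e) = e := by
  obtain ⟨a, b, c⟩ := e
  cases b <;> cases c <;> rfl

theorem k3_kit (e : End) : k3 (kit e) = bar e := by
  obtain ⟨a, b, c⟩ := e
  cases b <;> cases c <;> rfl

theorem e2_lit (s : Bool) (e : End) : e2 (lit s e) = e := by
  obtain ⟨a, b, c⟩ := e
  cases b <;> cases c <;> rfl

theorem e1_lit (s : Bool) (e : End) : e1 (lit s e) = bar e := by
  obtain ⟨a, b, c⟩ := e
  cases b <;> cases c <;> rfl

/-- The letters read off from the second strand. -/
def it2 (P : End → Bool) : List End → List (ℕ × Lt)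
  | [] => []
  | e :: b => if P e then shd 1 (it2 P b) else lit true e :: it2 P b

theorem it2_row (P : End → Bool) (b : List End) :
    row true k2 ((b.filter P).map kit) (it2 P b) = b := by
  induction b with
  | nil => rfl
  | cons e b ih =>
    cases h : P e with
    | true =>
      rw [List.filter_cons_of_pos h]
      simp only [it2, h, if_true, List.map_cons, row]
      rw [filter_shd true 0, low_shd 0, shd_zero, ih, k2_kit]
      rfl
    | false =>
      rw [List.filter_cons_of_neg (by simp [h])]
      simp only [it2, h, Bool.false_eq_true, if_false]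
      rw [row_head0 (s := true) (g := k2) (p := lit true e) rfl rfl, ih, e2_lit]

theorem shd_e1 (k : ℕ) (w : List (ℕ × Lt)) : (shd k w).map e1 = w.map e1 := by
  simp [shd, shp, e1, Function.comp_def]

theorem it2_e1 (P : End → Bool) (b : List End) :
    (it2 P b).map e1 = (b.filter fun e => !P e).map bar := by
  induction b with
  | nil => rfl
  | cons e b ih =>
    cases h : P e with
    | true =>
      rw [List.filter_cons_of_neg (by simp [h])]
      simp only [it2, h, if_true]
      rw [shd_e1, ih]
    | false =>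
      rw [List.filter_cons_of_pos (by simp [h])]
      simp only [it2, h, Bool.false_eq_true, if_false, List.map_cons]
      rw [ih, e1_lit]

theorem it2_strand (P : End → Bool) (b : List End) : ∀ p ∈ it2 P b, p.2.1.1 = true := by
  induction b with
  | nil => simp [it2]
  | cons e b ih =>
    intro p hp
    cases h : P e with
    | true =>
      simp only [it2, h, if_true, shd, List.mem_map] at hp
      obtain ⟨q, hq, rfl⟩ := hp
      exact ih q hq
    | false =>
      simp only [it2, h, Bool.false_eq_true, if_false, List.mem_cons] at hp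
      rcases hp with rfl | hp
      · rfl
      · exact ih p hp

theorem row_skip {s : Bool} {g : ℕ × Kt → End} (B : List (ℕ × Kt)) (u v : List (ℕ × Lt))
    (h : ∀ p ∈ v, p.2.1.1 ≠ s) : row s g B (u ++ v) = row s g B u := by
  induction v using List.reverseRecOn with
  | nil => simp
  | append_singleton v p ih =>
    have h1 := row_other (s := s) (g := g) (p := p) (h p (by simp)) B (u ++ v) []
    simp only [List.append_nil] at h1
    rw [← List.append_assoc, h1]
    exact ih fun q hq => h q (by simp [hq])

theorem row_skip' {s : Bool} {g : ℕ × Kt → End} (B : List (ℕ × Kt)) (u v : List (ℕ × Lt))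
    (h : ∀ p ∈ u, p.2.1.1 ≠ s) : row s g B (u ++ v) = row s g B v := by
  induction u with
  | nil => simp
  | cons p u ih =>
    have h1 := row_other (s := s) (g := g) (p := p) (h p (by simp)) B [] (u ++ v)
    simp only [List.nil_append, List.cons_append] at h1 ⊢
    rw [h1]
    exact ih fun q hq => h q (by simp [hq])

theorem ids_nodup {L M : List End} (hM : (M.map key).Nodup) (hL : L.Nodup)
    (hs : ∀ e ∈ L, e ∈ M ∧ bar e ∈ M ∧ bar e ∉ L) : (L.map Prod.fst).Nodup := by
  refine List.Nodup.map_on ?_ hL
  intro x hx y hy hxy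
  by_cases h : x.2.1 = y.2.1
  · exact List.inj_on_of_nodup_map hM (hs x hx).1 (hs y hy).1 (Prod.ext hxy h)
  · exfalso
    have h1 : key (bar x) = key y := by
      refine Prod.ext hxy ?_
      simp only [key, bar]
      revert h; cases x.2.1 <;> cases y.2.1 <;> simp
    have h2 : bar x = y := List.inj_on_of_nodup_map hM (hs x hx).2.1 (hs y hy).1 h1
    exact (hs x hx).2.2 (h2 ▸ hy)

theorem bar_inj : Function.Injective bar := fun x y h => by rw [← bar_bar x, h, bar_bar]

theorem norm {a b c : List End} (h : TW (a, b, c)) (hP : PS (a, b, c)) :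
    ∃ B w, Valid B w ∧ TE (a, b, c) (real B w) := by
  let P : End → Bool := fun e => decide (bar e ∈ c)
  let c13 := c.filter fun e => decide (bar e ∈ a)
  have hnd := h.nodup
  have hndc : c.Nodup := (List.nodup_append.1 hnd).2.1
  have hndb : b.Nodup := (List.nodup_append.1 (List.nodup_append.1 hnd).1).2.1
  have hab : ∀ x ∈ a, x ∉ b := fun x hx hx' =>
    (List.nodup_append.1 (List.nodup_append.1 hnd).1).2.2 x hx x hx' rfl
  have pc : c.Perm (c13 ++ (b.filter P).map bar) := by
    refine (List.perm_ext_iff_of_nodup hndc ?_).2 ?_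
    · rw [List.nodup_append]
      refine ⟨hndc.filter _, (hndb.filter _).map bar_inj, ?_⟩
      intro x hx y hy hxy
      obtain ⟨z, hz, rfl⟩ := List.mem_map.1 hy
      have h1 : bar x ∈ a := by simpa using (List.mem_filter.1 hx).2
      rw [hxy, bar_bar] at h1
      exact hab z h1 (List.mem_filter.1 hz).1
    · intro e
      rw [List.mem_append, List.mem_filter, List.mem_map]
      constructor
      · intro he
        rcases hP.2.2 e he with h1 | h1
        · exact Or.inl ⟨he, by simpa using h1⟩
        · refine Or.inr ⟨bar e, List.mem_filter.2 ⟨h1, ?_⟩, bar_bar e⟩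
          simpa [P] using he
      · rintro (⟨h1, -⟩ | ⟨z, hz, rfl⟩)
        · exact h1
        · simpa [P] using (List.mem_filter.1 hz).2
  obtain ⟨a', b', t1, p1, f1⟩ := perm3 pc [] a b c (by simpa using h) (by simpa using hP)
    (by simp)
  simp only [List.nil_append] at t1 p1
  have f2 : b.filter P = b'.filter P := f1.symm
  rw [f2] at t1 p1 pc
  have hw := t1.right
  have nd := hw.nodup
  have nda : a'.Nodup := (List.nodup_append.1 (List.nodup_append.1 nd).1).1
  have ndb : b'.Nodup := (List.nodup_append.1 (List.nodup_append.1 nd).1).2.1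
  have ab : ∀ x ∈ a', x ∉ b' := fun x hx hx' =>
    (List.nodup_append.1 (List.nodup_append.1 nd).1).2.2 x hx x hx' rfl
  have ac : ∀ x ∈ a', x ∉ c := fun x hx hx' =>
    (List.nodup_append.1 nd).2.2 x (List.mem_append_left _ hx) x (pc.mem_iff.1 hx') rfl
  have bc : ∀ x ∈ b', x ∉ c := fun x hx hx' =>
    (List.nodup_append.1 nd).2.2 x (List.mem_append_right _ hx) x (pc.mem_iff.1 hx') rfl
  have q1 : ∀ e ∈ a', bar e ∈ b' ∨ bar e ∈ c := fun e he => by
    rcases p1.1 e he with h1 | h1
    · exact Or.inl h1
    · exact Or.inr (pc.mem_iff.2 h1)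
  have q2 : ∀ e ∈ b', bar e ∈ a' ∨ bar e ∈ c := fun e he => by
    rcases p1.2.1 e he with h1 | h1
    · exact Or.inl h1
    · exact Or.inr (pc.mem_iff.2 h1)
  have q3 : ∀ e ∈ c, bar e ∈ a' ∨ bar e ∈ b' := fun e he => p1.2.2 e (pc.mem_iff.1 he)
  let B := (b'.filter P).map kit
  let v2 := it2 P b'
  let v3 := c13.map (lit false)
  have s3 : ∀ p ∈ v3, p.2.1.1 ≠ true := by
    intro p hp
    obtain ⟨e, -, rfl⟩ := List.mem_map.1 hp
    simp [lit]
  have s2 : ∀ p ∈ v2, p.2.1.1 ≠ false := by
    intro p hp
    rw [it2_strand P b' p hp]; simp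
  have r2 : row true k2 B (v2 ++ v3) = b' := by
    rw [row_skip B v2 v3 s3]; exact it2_row P b'
  have r3 : row false k3 B (v2 ++ v3) = c13 ++ (b'.filter P).map bar := by
    rw [row_skip' B v2 v3 s2]
    have := row_append false k3 [] B v3 [] (by
      intro p hp
      obtain ⟨e, -, rfl⟩ := List.mem_map.1 hp
      simp [lit])
    simp only [List.nil_append, List.length_nil, shd_zero, List.append_nil] at this
    rw [this, row_nil]
    congr 1
    · have e1 : v3.filter (fun p => p.2.1.1 == false) = v3 := by
        refine List.filter_eq_self.2 fun p hp => ?_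
        have := s3 p hp
        revert this; cases p.2.1.1 <;> simp
      simp only [row, e1]
      simp only [v3, List.map_map]
      conv_rhs => rw [← List.map_id c13]
      exact List.map_congr_left fun e _ => e2_lit false e
    · simp only [B, List.map_map]
      exact List.map_congr_left fun e _ => k3_kit e
  have pa : ((v2 ++ v3).map e1).Perm a' := by
    have e1 : (v2 ++ v3).map e1 = (b'.filter fun e => !P e).map bar ++ c13.map bar := by
      rw [List.map_append]
      congr 1
      · exact it2_e1 P b'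
      · simp only [v3, List.map_map]
        exact List.map_congr_left fun e _ => e1_lit false e
    rw [e1]
    refine (List.perm_ext_iff_of_nodup ?_ nda).2 ?_
    · rw [List.nodup_append]
      refine ⟨(ndb.filter _).map bar_inj, (hndc.filter _).map bar_inj, ?_⟩
      intro x hx y hy hxy
      obtain ⟨z, hz, rfl⟩ := List.mem_map.1 hx
      obtain ⟨z', hz', rfl⟩ := List.mem_map.1 hy
      have := bar_inj hxy
      subst this
      exact bc z (List.mem_filter.1 hz).1 (List.mem_filter.1 hz').1
    · intro e
      rw [List.mem_append, List.mem_map, List.mem_map]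
      constructor
      · rintro (⟨z, hz, rfl⟩ | ⟨z, hz, rfl⟩)
        · obtain ⟨h1, h2⟩ := List.mem_filter.1 hz
          rcases q2 z h1 with h3 | h3
          · exact h3
          · simp [P, h3] at h2
        · obtain ⟨h1, h2⟩ := List.mem_filter.1 hz
          rcases q3 z h1 with h3 | h3
          · exact h3
          · exfalso
            -- `z` would occur twice in the third strand
            have h4 : z ∈ (b'.filter P).map bar :=
              List.mem_map.2 ⟨bar z, List.mem_filter.2 ⟨h3, by simpa [P] using h1⟩, bar_bar z⟩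
            have h5 := (List.nodup_append.1 nd).2.1
            exact (List.nodup_append.1 h5).2.2 z hz z h4 rfl
      · intro he
        rcases q1 e he with h1 | h1
        · left
          refine ⟨bar e, List.mem_filter.2 ⟨h1, ?_⟩, bar_bar e⟩
          have : e ∉ c := ac e he
          simp [P, this]
        · right
          have h2 : bar e ∈ c13 ++ (b'.filter P).map bar := pc.mem_iff.1 h1
          rcases List.mem_append.1 h2 with h3 | h3
          · exact ⟨bar e, h3, bar_bar e⟩
          · exfalso
            obtain ⟨z, hz, hz'⟩ := List.mem_map.1 h3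
            have := bar_inj hz'
            subst this
            exact ab z he (List.mem_filter.1 hz).1
  obtain ⟨w, w1, w2⟩ := lift_perm pa (v2 ++ v3) rfl
  have hv : Valid B w := by
    have e1 : B.map Prod.fst ++ w.map Prod.fst = (b'.filter P ++ a').map Prod.fst := by
      rw [List.map_append, ← w2]
      congr 1
      · simp only [B, List.map_map]; rfl
      · simp only [List.map_map]; rfl
    unfold Valid
    rw [e1]
    have hcl := (TW_iff.1 hw).2
    refine ids_nodup (M := a' ++ b' ++ (c13 ++ (b'.filter P).map bar)) (TW_iff.1 hw).1 ?_ ?_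
    · rw [List.nodup_append]
      exact ⟨ndb.filter _, nda, fun x hx y hy hxy => ab y hy (hxy ▸ (List.mem_filter.1 hx).1)⟩
    · intro e he
      rcases List.mem_append.1 he with he | he
      · obtain ⟨h1, h2⟩ := List.mem_filter.1 he
        have h3 : bar e ∈ c := by simpa [P] using h2
        have h4 : e ∈ a' ++ b' ++ (c13 ++ (b'.filter P).map bar) :=
          List.mem_append_left _ (List.mem_append_right _ h1)
        refine ⟨h4, hcl e h4, fun h5 => ?_⟩
        rcases List.mem_append.1 h5 with h6 | h6
        · exact bc _ (List.mem_filter.1 h6).1 h3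
        · exact ac _ h6 h3
      · have h4 : e ∈ a' ++ b' ++ (c13 ++ (b'.filter P).map bar) :=
          List.mem_append_left _ (List.mem_append_left _ he)
        refine ⟨h4, hcl e h4, fun h5 => ?_⟩
        rcases List.mem_append.1 h5 with h6 | h6
        · obtain ⟨h7, h8⟩ := List.mem_filter.1 h6
          have h9 : e ∈ c := by simpa [P] using h8
          exact ac e he h9
        · rcases q1 e he with h7 | h7
          · exact ab _ h6 h7
          · exact ac _ h6 h7
  refine ⟨B, w, hv, t1.trans ?_⟩
  have e1 : ((a', b', c13 ++ (b'.filter P).map bar) : Tr) =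
      (a', row true k2 B (v2 ++ v3), row false k3 B (v2 ++ v3)) := by rw [r2, r3]
  rw [e1]
  have hw' := hw
  rw [e1] at hw'
  have t2 := te_rows w1 hw' (by
    intro p hp
    rw [← w2]
    exact List.mem_map_of_mem (w1.mem_iff.1 hp))
  rw [← w2] at t2 ⊢
  exact t2

end Pool.Agent.H763.SV3
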