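import Mathlib
import Pool.Agent.H763.Norm

/-! Virtual string links with at most three strands are monotone up to self-virtualization. -/

set_option autoImplicit false

namespace Pool.Agent.H763.SV3

open Pool.Agent.H85.Gauss

/-- Strands without self-crossings. -/
def NS (D : Diagram) : Prop := ∀ c ∈ D, ∀ e ∈ c, bar e ∉ c

theorem flat_append (D E : Diagram) : flat (D ++ E) = flat D ++ flat E := by simp [flat]

theorem gw_iff_one (l : List End) : GW 1 (l.map some) ↔ (l.map key).Nodup ∧
    ∀ e ∈ l, bar e ∈ l := by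
  have h1 : ends (l.map some) = l := ends_map l
  have h2 : (l.map some).count (none : Option End) = 0 := by rw [List.count_eq_zero]; simp
  constructor
  · rintro ⟨-, a, b⟩
    rw [h1] at a b
    exact ⟨a, b⟩
  · rintro ⟨a, b⟩
    exact ⟨by rw [h2], by rw [h1]; exact a, by rw [h1]; exact b⟩

theorem wf_del {n : ℕ} {D D' : Diagram} {e : End} (hl : D.length = D'.length) (h : WF n D)
    (p : D.flatten.Perm (D'.flatten ++ [e, bar e])) : WF n D' := by
  obtain ⟨a, b, c⟩ := h
  have h1 : GW 1 (D.flatten.map some) := (gw_iff_one _).2 ⟨b, c⟩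
  obtain ⟨i, o, s⟩ := e
  have h2 : GW 1 (D'.flatten.map some ++ [some (i, o, s), some (i, !o, s)]) := by
    refine h1.perm ?_
    have := p.map (some : End → Option End)
    simpa [bar] using this
  have h3 := (gw_iff_one _).1 h2.del.1
  exact ⟨hl ▸ a, h3.1, h3.2⟩

theorem remove_self {n : ℕ} : ∀ (k : ℕ) (D : Diagram), D.flatten.length = k → WF n D →
    ∃ D', WF n D' ∧ EqvSV n D D' ∧ NS D' := by
  intro k
  induction k using Nat.strong_induction_on with
  | _ k ih =>
    intro D hk h
    by_cases hN : NS D
    · exact ⟨D, h, Relation.EqvGen.refl _, hN⟩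
    · simp only [NS, not_forall, not_not] at hN
      obtain ⟨c, hc, e, he, hb⟩ := hN
      obtain ⟨A, C, rfl⟩ := List.append_of_mem hc
      have hne : e ≠ bar e := by
        intro h1
        have := congrArg (fun x : End => x.2.1) h1
        simp [bar] at this
      obtain ⟨x, u, v, w, rfl⟩ : ∃ x u v w, c = u ++ [x] ++ v ++ [bar x] ++ w := by
        rcases split_two he hb hne with ⟨u, v, w, rfl⟩ | ⟨u, v, w, rfl⟩
        · exact ⟨e, u, v, w, rfl⟩
        · exact ⟨bar e, u, v, w, by rw [bar_bar]⟩
      have hp : (A ++ (u ++ [x] ++ v ++ [bar x] ++ w) :: C).flatten.Perm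
          ((A ++ (u ++ v ++ w) :: C).flatten ++ [x, bar x]) := by
        rw [List.perm_iff_count]; intro y
        simp only [List.flatten_append, List.flatten_cons, List.count_append, List.count_cons,
          List.count_nil]
        ring
      have h1 : WF n (A ++ (u ++ v ++ w) :: C) := wf_del (by simp) h hp
      have h2 : (A ++ (u ++ v ++ w) :: C).flatten.length < k := by
        have := hp.length_eq
        rw [List.length_append] at this
        simp only [List.length_cons, List.length_nil] at this
        omega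
      obtain ⟨D', a1, a2, a3⟩ := ih _ h2 _ rfl h1
      refine ⟨D', a1, Relation.EqvGen.trans _ _ _ (Relation.EqvGen.symm _ _
        (Relation.EqvGen.rel _ _ ⟨h1, h, ?_⟩)) a2, a3⟩
      obtain ⟨i, o, s⟩ := x
      have := MoveSV.sv (flat A ++ u.map some) (v.map some) (w.map some ++ none :: flat C) i o s
        (by simp)
      rw [flat_append, flat_append, flat_cons, flat_cons]
      simpa [List.append_assoc, bar] using this

theorem ps_of {a b c : List End} (h : TW (a, b, c)) (hN : NS [a, b, c]) : PS (a, b, c) := by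
  have h1 := (TW_iff.1 h).2
  have na := hN a (by simp)
  have nb := hN b (by simp)
  have nc := hN c (by simp)
  refine ⟨fun e he => ?_, fun e he => ?_, fun e he => ?_⟩
  · have := h1 e (by rw [List.mem_append, List.mem_append]; exact Or.inl (Or.inl he))
    rw [List.mem_append, List.mem_append] at this
    rcases this with (h2 | h2) | h2
    · exact absurd h2 (na e he)
    · exact Or.inl h2
    · exact Or.inr h2
  · have := h1 e (by rw [List.mem_append, List.mem_append]; exact Or.inl (Or.inr he))
    rw [List.mem_append, List.mem_append] at this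
    rcases this with (h2 | h2) | h2
    · exact Or.inl h2
    · exact absurd h2 (nb e he)
    · exact Or.inr h2
  · have := h1 e (by rw [List.mem_append, List.mem_append]; exact Or.inr he)
    rw [List.mem_append, List.mem_append] at this
    rcases this with (h2 | h2) | h2
    · exact Or.inl h2
    · exact Or.inr h2
    · exact absurd h2 (nc e he)

/-- Three strands. -/
theorem three {D : Diagram} (h : WF 3 D) : ∃ β, WF 3 β ∧ Mono β ∧ EqvSV 3 D β := by
  obtain ⟨D', h1, h2, h3⟩ := remove_self _ D rfl h
  obtain ⟨a, b, c, rfl⟩ : ∃ a b c, D' = [a, b, c] := by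
    have := h1.1
    match D', this with
    | [a, b, c], _ => exact ⟨a, b, c, rfl⟩
  have hw : TW (a, b, c) := wf_toD.1 h1
  obtain ⟨B, w, hv, ht⟩ := norm hw (ps_of hw h3)
  obtain ⟨E, hE, e1, e2⟩ := mon_all (B.map Prod.snd) (FreeGroup.mk (w.map Prod.snd))
  rw [Phi_mk, ← phi_eq hv, cls_eq] at e1
  exact ⟨toD E, wf_toD.2 hE, e2, Relation.EqvGen.trans _ _ _ h2 (of_te (ht.trans e1))⟩

theorem cp_two {P : End → Prop} {a b b' : List End} (h : CP P b b')
    (hw : GW 2 (a.map some ++ [none] ++ b.map some)) (hP : ∀ e, P e → bar e ∈ a) :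
    GE 2 (a.map some ++ [none] ++ b.map some) (a.map some ++ [none] ++ b'.map some) := by
  induction h with
  | refl l => exact GE.refl hw
  | step u v p q hp hq =>
    have := comm_left (n := 2) (t := []) (S := a) (x := [none] ++ u.map some)
      (y := v.map some) (p := p) (q := q) (by simpa [List.append_assoc] using hw)
      (hP p hp) (hP q hq)
    simpa [List.append_assoc] using this
  | trans l l' l'' _ _ ih1 ih2 =>
    have h1 := ih1 hw
    exact h1.trans (ih2 h1.2.1)

theorem pairwise_idx {L : List ℕ} (h : L.Nodup) : L.Pairwise fun x y => L.idxOf x < L.idxOf y := by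
  rw [List.pairwise_iff_getElem]
  intro i j hi hj hij
  rw [h.idxOf_getElem, h.idxOf_getElem]
  exact hij

theorem two {D : Diagram} (h : WF 2 D) : ∃ β, WF 2 β ∧ Mono β ∧ EqvSV 2 D β := by
  obtain ⟨D', h1, h2, h3⟩ := remove_self _ D rfl h
  obtain ⟨a, b, rfl⟩ : ∃ a b, D' = [a, b] := by
    have := h1.1
    match D', this with
    | [a, b], _ => exact ⟨a, b, rfl⟩
  have hf : ∀ a b : List End, flat [a, b] = (a.map some ++ [none] ++ b.map some) ++ [none] := by
    intro a b; simp [flat]
  have hw := (wf_iff (hf a b)).1 h1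
  have na := h3 a (by simp)
  have nb := h3 b (by simp)
  obtain ⟨-, hk, hcl⟩ := h1
  have hfl : ([a, b] : Diagram).flatten = a ++ b := by simp
  have hk' : ((a ++ b).map key).Nodup := by rw [hfl] at hk; exact hk
  have hnd : (a ++ b).Nodup := List.Nodup.of_map key hk'
  have hcl' : ∀ e ∈ a ++ b, bar e ∈ a ++ b := by
    intro e he
    have := hcl e (by simpa using he)
    simpa [bar] using this
  have ha : ∀ e ∈ a, bar e ∈ b := fun e he => by
    rcases List.mem_append.1 (hcl' e (List.mem_append_left _ he)) with h4 | h4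
    · exact absurd h4 (na e he)
    · exact h4
  have hb : ∀ e ∈ b, bar e ∈ a := fun e he => by
    rcases List.mem_append.1 (hcl' e (List.mem_append_right _ he)) with h4 | h4
    · exact h4
    · exact absurd h4 (nb e he)
  obtain ⟨nda, ndb, -⟩ := List.nodup_append.1 hnd
  have hp : b.Perm (a.map bar) := by
    refine (List.perm_ext_iff_of_nodup ndb (nda.map bar_inj)).2 fun e => ?_
    rw [List.mem_map]
    constructor
    · intro he
      exact ⟨bar e, hb e he, bar_bar e⟩
    · rintro ⟨z, hz, rfl⟩
      exact ha z hz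
  have hc := cp_two (CP.of_perm (P := fun e => e ∈ b) hp fun e he => he) hw hb
  have hids : (a.map Prod.fst).Nodup := ids_nodup hk' nda fun e he =>
    ⟨List.mem_append_left _ he, List.mem_append_right _ (ha e he), na e he⟩
  have hpw := List.pairwise_map.1 (pairwise_idx hids)
  refine ⟨[a, a.map bar], (wf_iff (hf a (a.map bar))).2 hc.2.1,
    ⟨fun x => (a.map Prod.fst).idxOf x, ?_⟩,
    Relation.EqvGen.trans _ _ _ h2 (hc.2.2 _ _ (hf _ _) (hf _ _))⟩
  intro c hc
  simp only [List.mem_cons, List.not_mem_nil, or_false] at hc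
  rcases hc with rfl | rfl
  · exact hpw
  · exact List.pairwise_map.2 hpw

theorem one {D : Diagram} (h : WF 1 D) : ∃ β, WF 1 β ∧ Mono β ∧ EqvSV 1 D β := by
  obtain ⟨D', h1, h2, h3⟩ := remove_self _ D rfl h
  obtain ⟨a, rfl⟩ : ∃ a, D' = [a] := by
    have := h1.1
    match D', this with
    | [a], _ => exact ⟨a, rfl⟩
  have na := h3 a (by simp)
  have ha : a = [] := by
    rw [List.eq_nil_iff_forall_not_mem]
    intro e he
    have := h1.2.2 e (by simpa using he)
    exact na e he (by simpa [bar] using this)
  subst ha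
  refine ⟨[[]], h1, ⟨fun _ => 0, by simp⟩, h2⟩

theorem zero {D : Diagram} (h : WF 0 D) : ∃ β, WF 0 β ∧ Mono β ∧ EqvSV 0 D β := by
  have : D = [] := List.length_eq_zero_iff.1 h.1
  subst this
  exact ⟨[], h, ⟨fun _ => 0, by simp⟩, Relation.EqvGen.refl _⟩

theorem at_most_three {n : ℕ} (hn : n ≤ 3) {D : Diagram} (h : WF n D) :
    ∃ β, WF n β ∧ Mono β ∧ EqvSV n D β := by
  interval_cases n
  · exact zero h
  · exact one h
  · exact two h
  · exact three h

end Pool.Agent.H763.SV3
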