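import Pool.Agent.H812.SF.Stm2

/-!
# Project SF (helper812): infinitely many domains which are not similar to each other (helper763)
-/

set_option autoImplicit false

namespace Pool.Agent.H763.SfSEQ

open Set Filter Topology MeasureTheory
open Pool.Agent.N229.SC Pool.Agent.H812.SF

theorem similar_symm {Ω Ω' : Set E2} (h : Similar Ω Ω') : Similar Ω' Ω := by
  obtain ⟨k, T, b, hk, rfl⟩ := h
  refine ⟨k⁻¹, T.symm, -(k⁻¹ • T.symm b), inv_pos.2 hk, ?_⟩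
  rw [image_image]
  have h1 : ∀ x : E2, k⁻¹ • T.symm (k • T x + b) + -(k⁻¹ • T.symm b) = x := by
    intro x
    rw [map_add, map_smul, T.symm_apply_apply, smul_add, smul_smul, inv_mul_cancel₀ hk.ne',
      one_smul]
    abel
  simp only [h1, image_id']

theorem nearDisc_mono {ε ε' ρ : ℝ} {Ω : Set E2} (h : NearDisc ε ρ Ω) (hε : ε ≤ ε')
    (hρ : 0 ≤ ρ) : NearDisc ε' ρ Ω := by
  obtain ⟨r, f, h1, h2, h3, h4, h5⟩ := h
  refine ⟨r, f, h1, h2, h3, fun z hz => ?_, h5⟩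
  obtain ⟨h6, h7⟩ := h4 z hz
  exact ⟨h6.trans hε, h7.trans (mul_le_mul_of_nonneg_right hε hρ)⟩

/-- the properties of one domain -/
def Pr (x : Set E2 × ℝ × ℕ) : Prop :=
  PlaneDomain x.1 ∧ Schiffer x.1 1 ∧ ¬ IsDisc x.1 ∧ NearDisc (1 / ((x.2.2 : ℝ) + 1)) x.2.1 x.1 ∧
    Metric.ball 0 (x.2.1 - 1 / ((x.2.2 : ℝ) + 1)) ⊆ x.1 ∧
    x.1 ⊆ Metric.ball 0 (x.2.1 + 1 / ((x.2.2 : ℝ) + 1)) ∧ (x.2.2 : ℝ) + 1 ≤ x.2.1

/-- the relation between two of them -/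
def Rr (x y : Set E2 × ℝ × ℕ) : Prop :=
  ¬ Similar x.1 y.1 ∧ ¬ Similar y.1 x.1 ∧ x.2.2 < y.2.2

theorem away (h3 : S_SIM) (x : Set E2 × ℝ × ℕ) (hx : Pr x) : ∃ B : ℝ, ∀ ρ ε : ℝ, B ≤ ρ → 0 < ρ →
    ε ≤ 1 → ∀ Ω : Set E2, Metric.ball 0 (ρ - ε) ⊆ Ω → Ω ⊆ Metric.ball 0 (ρ + ε) →
    ¬ Similar x.1 Ω := by
  obtain ⟨η, hη, hη1, h⟩ := h3 x.1 hx.1.isOpen hx.1.isBounded hx.1.isConnected.nonempty hx.2.2.1
  refine ⟨1 / η, fun ρ ε hB hρ hε Ω ha hb hs => ?_⟩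
  have h4 : 1 ≤ η * ρ := by
    rw [div_le_iff₀ hη] at hB
    linarith
  refine h Ω hs ρ hρ ⟨?_, ?_⟩
  · refine Subset.trans (Metric.ball_subset_ball ?_) ha
    linarith
  · refine Subset.trans hb (Metric.ball_subset_ball ?_)
    linarith

theorem step (h1 : S_ONE) (h2 : S_J1Z) (h3 : S_SIM) (s : Finset (Set E2 × ℝ × ℕ))
    (hs : ∀ x ∈ s, Pr x) : ∃ y, Pr y ∧ ∀ x ∈ s, Rr x y := by
  classical
  have hB : ∀ x : Set E2 × ℝ × ℕ, ∃ B : ℝ, x ∈ s → ∀ ρ ε : ℝ, B ≤ ρ → 0 < ρ →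
      ε ≤ 1 → ∀ Ω : Set E2, Metric.ball 0 (ρ - ε) ⊆ Ω → Ω ⊆ Metric.ball 0 (ρ + ε) →
      ¬ Similar x.1 Ω := by
    intro x
    by_cases hx : x ∈ s
    · obtain ⟨B, hB⟩ := away h3 x (hs x hx)
      exact ⟨B, fun _ => hB⟩
    · exact ⟨0, fun h => absurd h hx⟩
  choose B hB using hB
  obtain ⟨M, hM⟩ := (s.image B).exists_le
  obtain ⟨m, hm⟩ := (s.image (fun x => x.2.2)).exists_le
  have hM' : ∀ x ∈ s, B x ≤ M := fun x hx => hM _ (Finset.mem_image_of_mem _ hx)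
  have hm' : ∀ x ∈ s, x.2.2 ≤ m := fun x hx =>
    hm _ (Finset.mem_image_of_mem (fun x : Set E2 × ℝ × ℕ => x.2.2) hx)
  have hpos : (0 : ℝ) < ((m + 1 : ℕ) : ℝ) + 1 := by positivity
  have hε : (0 : ℝ) < 1 / (((m + 1 : ℕ) : ℝ) + 1) := by positivity
  have hε1 : 1 / (((m + 1 : ℕ) : ℝ) + 1) ≤ 1 := by
    rw [div_le_one hpos]
    have : (0 : ℝ) ≤ ((m + 1 : ℕ) : ℝ) := Nat.cast_nonneg _
    linarith
  obtain ⟨R, hR⟩ := h1 _ hε
  obtain ⟨ρ, hρ, hJ⟩ := h2 (max R (max M (((m + 1 : ℕ) : ℝ) + 1)))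
  have hρR : R ≤ ρ := (le_max_left _ _).trans hρ
  have hρM : M ≤ ρ := (le_max_left _ _).trans ((le_max_right _ _).trans hρ)
  have hρm : ((m + 1 : ℕ) : ℝ) + 1 ≤ ρ := (le_max_right _ _).trans ((le_max_right _ _).trans hρ)
  obtain ⟨Ω, a1, a2, a3, a4, a5, a6⟩ := hR ρ hρR hJ
  refine ⟨(Ω, ρ, m + 1), ⟨a1, a2, a3, a4, a5, a6, hρm⟩, fun x hx => ?_⟩
  have hns : ¬ Similar x.1 Ω :=
    hB x hx ρ _ ((hM' x hx).trans hρM) (by linarith) hε1 Ω a5 a6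
  refine ⟨hns, fun h => hns (similar_symm h), ?_⟩
  show x.2.2 < m + 1
  have := hm' x hx
  omega

theorem proof_SEQ (h1 : S_ONE) (h2 : S_J1Z) (h3 : S_SIM) : S_SEQ := by
  obtain ⟨f, hf, hr⟩ := exists_seq_of_forall_finset_exists Pr Rr (step h1 h2 h3)
  have hmono : StrictMono fun k => (f k).2.2 := by
    intro j k hjk
    exact (hr j k hjk).2.2
  have hk : ∀ k, k ≤ (f k).2.2 := fun k => hmono.le_apply
  refine ⟨fun k => (f k).1, fun k => (f k).2.1, fun k => ⟨(hf k).1, (hf k).2.1, (hf k).2.2.1⟩,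
    fun k => ?_, ?_⟩
  · obtain ⟨-, -, -, b4, b5, b6, b7⟩ := hf k
    have hk' : (k : ℝ) ≤ ((f k).2.2 : ℝ) := by exact_mod_cast hk k
    have hk0 : (0 : ℝ) ≤ k := Nat.cast_nonneg _
    have hle : 1 / (((f k).2.2 : ℝ) + 1) ≤ 1 / ((k : ℝ) + 1) :=
      one_div_le_one_div_of_le (by linarith) (by linarith)
    refine ⟨by linarith, nearDisc_mono b4 hle (by linarith), ?_, ?_⟩
    · exact Subset.trans (Metric.ball_subset_ball (by linarith)) b5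
    · exact Subset.trans b6 (Metric.ball_subset_ball (by linarith))
  · intro j k hjk
    rcases lt_or_gt_of_ne hjk with h | h
    · exact (hr j k h).1
    · exact (hr k j h).2.1

end Pool.Agent.H763.SfSEQ
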